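import Pool.Agent.H412R2.RigStat

/-! Rigidity: entropy lower bound for the windows (task 9). -/

set_option autoImplicit false

namespace Pool.Agent.H412R2

open Finset

namespace RigEnt

theorem negMulLog_le_one_sub {y : ℝ} (hy : 0 ≤ y) : Real.negMulLog y ≤ 1 - y := by
  rcases hy.eq_or_lt with rfl | hy
  · simp
  · have h := Real.one_sub_inv_le_log_of_pos hy
    have h2 : y * (1 - y⁻¹) ≤ y * Real.log y := mul_le_mul_of_nonneg_left h hy.le
    have h3 : y * (1 - y⁻¹) = y - 1 := by field_simp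
    rw [h3] at h2
    simp only [Real.negMulLog]
    linarith

theorem scalar_bound {e y : ℝ} (he : 0 < e) (he1 : e ≤ 1) (hy : 0 ≤ y) (hy1 : y ≤ 1) :
    Real.negMulLog y ≤ e + (2 + 2 * Real.log (1 / e)) * (y * (1 - y)) := by
  have hlog : 0 ≤ Real.log (1 / e) := Real.log_nonneg (by rw [le_div_iff₀ he]; linarith)
  have hyy : 0 ≤ y * (1 - y) := mul_nonneg hy (by linarith)
  by_cases h : 1 / 2 ≤ y
  · have h1 := negMulLog_le_one_sub hy
    nlinarith [mul_nonneg hlog hyy, mul_nonneg (by linarith : (0:ℝ) ≤ 1 - y) (by linarith : (0:ℝ) ≤ 2 * y - 1)]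
  · push Not at h
    have h1 : Real.negMulLog y ≤ e + y * Real.log (1 / e) := by
      rcases hy.eq_or_lt with rfl | hy
      · simp; exact he.le
      · have h2 := Real.log_le_sub_one_of_pos (div_pos he hy)
        have h3 : Real.log (e / y) = Real.log e - Real.log y := Real.log_div he.ne' hy.ne'
        have h4 : Real.log (1 / e) = - Real.log e := by rw [one_div, Real.log_inv]
        have h5 : y * Real.log (e / y) ≤ y * (e / y - 1) := mul_le_mul_of_nonneg_left h2 hy.le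
        have h6 : y * (e / y - 1) = e - y := by field_simp
        rw [h3, h6] at h5
        rw [h4]
        simp only [Real.negMulLog]
        nlinarith
    nlinarith [mul_nonneg hlog (mul_nonneg hy (by linarith : (0:ℝ) ≤ 1 - 2 * y))]

theorem split_bound {q : ℕ} {e : ℝ} (he : 0 < e) (he1 : e ≤ 1) (m : ℝ) (md : ℕ → ℝ)
    (hmd : ∀ d ∈ range q, 0 ≤ md d) (hsum : ∑ d ∈ range q, md d = m) :
    ∑ d ∈ range q, Real.negMulLog (md d) - Real.negMulLog m ≤
      q * e * m + (2 + 2 * Real.log (1 / e)) * (m - ∑ d ∈ range q, md d ^ 2 / m) := by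
  have hm : 0 ≤ m := hsum ▸ Finset.sum_nonneg hmd
  rcases hm.eq_or_lt with rfl | hm
  · have h0 := (Finset.sum_eq_zero_iff_of_nonneg hmd).1 hsum
    rw [Finset.sum_eq_zero (fun d hd => by rw [h0 d hd]; simp)]
    simp
  · have h1 : ∀ d ∈ range q, Real.negMulLog (md d) =
        (md d / m) * Real.negMulLog m + m * Real.negMulLog (md d / m) := by
      intro d _
      have : md d = m * (md d / m) := by field_simp
      conv_lhs => rw [this]
      rw [Real.negMulLog_mul]
    have h2 : ∑ d ∈ range q, md d / m = 1 := by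
      rw [← Finset.sum_div, hsum, div_self hm.ne']
    rw [Finset.sum_congr rfl h1, Finset.sum_add_distrib, ← Finset.sum_mul, h2, one_mul,
      add_sub_cancel_left, ← Finset.mul_sum]
    have h3 : ∀ d ∈ range q, Real.negMulLog (md d / m) ≤
        e + (2 + 2 * Real.log (1 / e)) * ((md d / m) * (1 - md d / m)) := by
      intro d hd
      refine scalar_bound he he1 (div_nonneg (hmd d hd) hm.le) ?_
      rw [div_le_one hm, ← hsum]
      exact Finset.single_le_sum hmd hd
    have h4 := Finset.sum_le_sum h3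
    rw [Finset.sum_add_distrib, ← Finset.mul_sum] at h4
    have h5 : ∑ d ∈ range q, (md d / m) * (1 - md d / m) =
        ∑ d ∈ range q, md d / m - ∑ d ∈ range q, (md d / m) ^ 2 := by
      rw [← Finset.sum_sub_distrib]
      exact Finset.sum_congr rfl fun d _ => by ring
    rw [h2] at h5
    rw [h5] at h4
    simp only [Finset.sum_const, Finset.card_range, nsmul_eq_mul] at h4
    have h6 := mul_le_mul_of_nonneg_left h4 hm.le
    refine h6.trans (le_of_eq ?_)
    have h7 : m * ∑ d ∈ range q, (md d / m) ^ 2 = ∑ d ∈ range q, md d ^ 2 / m := by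
      rw [Finset.mul_sum]
      exact Finset.sum_congr rfl fun d _ => by field_simp
    rw [← h7]
    ring

/-- entropy at level `k` -/
noncomputable def eta {q R : ℕ} (κ : Ker q R) (t k : ℕ) (x : ℤ) : ℝ :=
  ∑ s ∈ range (t * κ.Smax + 1), ∑ v ∈ range (q ^ k), Real.negMulLog (pr κ k v t s x)

theorem eta_lower {q R : ℕ} (κ : Ker q R) (hq : 0 < q) (t k : ℕ) {x : ℤ} (hx : ¬ (q : ℤ) ∣ x)
    (hk : κ.D * t ≤ k) : (t : ℝ) * Real.log 2 ≤ eta κ t k x := by
  have h1 := pr_total' κ hq k t (t * κ.Smax + 1) hx (by omega)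
  have h2 : (t : ℝ) * Real.log 2 = ∑ s ∈ range (t * κ.Smax + 1), ∑ v ∈ range (q ^ k),
      pr κ k v t s x * (t * Real.log 2) := by
    simp_rw [← Finset.sum_mul]
    rw [h1, one_mul]
  rw [h2]
  unfold eta
  refine Finset.sum_le_sum fun s _ => Finset.sum_le_sum fun v _ => ?_
  have h3 := pr_sep κ k v t s hx hk
  have h4 := pr_nonneg κ k v t s x
  rcases h4.eq_or_lt with h5 | h5
  · rw [← h5]; simp
  · have h6 : Real.log (pr κ k v t s x) ≤ Real.log ((1 / 2) ^ t) := Real.log_le_log h5 h3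
    rw [Real.log_pow, one_div, Real.log_inv] at h6
    simp only [Real.negMulLog]
    nlinarith

theorem eta_upper {q R : ℕ} (κ : Ker q R) (hq : 0 < q) (t k : ℕ) {x : ℤ} (hx : ¬ (q : ℤ) ∣ x) :
    eta κ t k x ≤ Real.log (((t * κ.Smax + 1 : ℕ) : ℝ) * (q : ℝ) ^ k) + 1 := by
  have h1 := pr_total' κ hq k t (t * κ.Smax + 1) hx (by omega)
  set n : ℝ := ((t * κ.Smax + 1 : ℕ) : ℝ) * (q : ℝ) ^ k with hn
  have hq' : (0 : ℝ) < q := by exact_mod_cast hq
  have hn0 : 0 < n := by positivity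
  have h2 : Real.log n + 1 = ∑ s ∈ range (t * κ.Smax + 1), ∑ v ∈ range (q ^ k),
      (pr κ k v t s x * Real.log n + 1 / n) := by
    simp_rw [Finset.sum_add_distrib, ← Finset.sum_mul]
    rw [h1, one_mul]
    congr 1
    simp only [Finset.sum_const, Finset.card_range, nsmul_eq_mul]
    rw [hn]
    push_cast
    field_simp
  rw [h2]
  unfold eta
  refine Finset.sum_le_sum fun s _ => Finset.sum_le_sum fun v _ => ?_
  have h4 := pr_nonneg κ k v t s x
  set u := pr κ k v t s x with hu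
  rcases h4.eq_or_lt with h5 | h5
  · rw [← h5]; simp; positivity
  · have h6 := negMulLog_le_one_sub (mul_nonneg hn0.le h4)
    have h7 : Real.negMulLog (n * u) ≤ 1 := by
      have := mul_nonneg hn0.le h4
      linarith
    rw [Real.negMulLog_mul] at h7
    have h8 : u * Real.negMulLog n + n * Real.negMulLog u =
        n * (Real.negMulLog u - u * Real.log n) := by
      simp only [Real.negMulLog]; ring
    rw [h8] at h7
    have h9 : Real.negMulLog u - u * Real.log n ≤ 1 / n := by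
      rw [le_div_iff₀ hn0]; linarith
    linarith

theorem eta_step {q R : ℕ} (κ : Ker q R) (hq : 0 < q) (t i : ℕ) {x : ℤ} (hx : ¬ (q : ℤ) ∣ x)
    {e : ℝ} (he : 0 < e) (he1 : e ≤ 1) :
    eta κ t (i + 1) x - eta κ t i x ≤
      q * e + (2 + 2 * Real.log (1 / e)) * (1 - W κ t i (i + 1) x) := by
  have h1 := pr_total' κ hq i t (t * κ.Smax + 1) hx (by omega)
  have hE : eta κ t (i + 1) x = ∑ s ∈ range (t * κ.Smax + 1), ∑ a ∈ range (q ^ i),
      ∑ d ∈ range q, Real.negMulLog (pr κ (i + 1) ((a : ℤ) + (q : ℤ) ^ i * (d : ℤ)) t s x) := by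
    unfold eta
    refine Finset.sum_congr rfl fun s _ => ?_
    have := sum_window_range (q := q) (m := i) (L := 1)
      (F := fun z => Real.negMulLog (pr κ (i + 1) z t s x))
    rw [this]
    simp
  have hW : W κ t i (i + 1) x = ∑ s ∈ range (t * κ.Smax + 1), ∑ a ∈ range (q ^ i),
      ∑ d ∈ range q, pr κ (i + 1) ((a : ℤ) + (q : ℤ) ^ i * (d : ℤ)) t s x ^ 2 /
        pr κ i (a : ℤ) t s x := by
    unfold W
    refine Finset.sum_congr rfl fun s _ => ?_
    have := sum_window_range (q := q) (m := i) (L := 1)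
      (F := fun z => pr κ (i + 1) z t s x ^ 2 / pr κ i z t s x)
    rw [this]
    simp only [pow_one]
    refine Finset.sum_congr rfl fun a _ => Finset.sum_congr rfl fun d _ => ?_
    rw [pr_per]
  have key : eta κ t (i + 1) x - eta κ t i x ≤ ∑ s ∈ range (t * κ.Smax + 1), ∑ a ∈ range (q ^ i),
      (q * e * pr κ i (a : ℤ) t s x + (2 + 2 * Real.log (1 / e)) * (pr κ i (a : ℤ) t s x -
        ∑ d ∈ range q, pr κ (i + 1) ((a : ℤ) + (q : ℤ) ^ i * (d : ℤ)) t s x ^ 2 /
        pr κ i (a : ℤ) t s x)) := by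
    rw [hE]
    unfold eta
    rw [← Finset.sum_sub_distrib]
    refine Finset.sum_le_sum fun s _ => ?_
    rw [← Finset.sum_sub_distrib]
    refine Finset.sum_le_sum fun a _ => ?_
    exact split_bound he he1 _ _ (fun d _ => pr_nonneg _ _ _ _ _ _)
      ((pr_mass κ hq t s x).cons i (a : ℤ)).symm
  refine key.trans (le_of_eq ?_)
  simp_rw [Finset.sum_add_distrib, ← Finset.mul_sum, Finset.sum_sub_distrib]
  rw [h1, hW]
  ring

end RigEnt

open RigEnt in
/-- Task 9 -/
theorem window_lower {q R : ℕ} (κ : Ker q R) (hq : q.Prime) :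
    ∃ c : ℝ, 0 < c ∧ ∀ k₀ : ℕ, ∃ t : ℕ, 1 ≤ t ∧ k₀ < (κ.D + 1) * t ∧
      ∀ x : ℤ, ¬ (q : ℤ) ∣ x →
        c * ((κ.D + 1) * t : ℕ) ≤ ∑ i ∈ Ico k₀ ((κ.D + 1) * t), (1 - W κ t i (i + 1) x) := by
  have hq0 := hq.pos
  have hq' : (1 : ℝ) ≤ q := by exact_mod_cast hq0
  have hl2 : 0 < Real.log 2 := Real.log_pos (by norm_num)
  have hl2' : Real.log 2 ≤ 1 := by
    have := Real.log_two_lt_d9; linarith
  set D' : ℝ := (κ.D : ℝ) + 1 with hD'
  have hD1 : 1 ≤ D' := by rw [hD']; have : (0:ℝ) ≤ κ.D := by positivity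
                          linarith
  set e : ℝ := Real.log 2 / (4 * q * D') with he_def
  have hden : (1 : ℝ) ≤ 4 * q * D' := by nlinarith [mul_le_mul hq' hD1 (by norm_num) (by linarith)]
  have he : 0 < e := by positivity
  have he1 : e ≤ 1 := by
    rw [he_def, div_le_one (by positivity)]
    linarith
  set A : ℝ := 2 + 2 * Real.log (1 / e) with hA
  have hA0 : 0 < A := by
    have hlog : 0 ≤ Real.log (1 / e) := Real.log_nonneg (by rw [le_div_iff₀ he]; linarith)
    linarith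
  refine ⟨Real.log 2 / (4 * A * D'), by positivity, fun k₀ => ?_⟩
  -- choice of t
  have hev : ∀ᶠ t : ℕ in Filter.atTop, 1 ≤ t ∧ k₀ < (κ.D + 1) * t ∧
      Real.log t ≤ (Real.log 2 / 4) * t ∧
      Real.log (((κ.Smax : ℝ) + 1) * (q : ℝ) ^ k₀) + 1 ≤ (Real.log 2 / 4) * t := by
    have e1 : ∀ᶠ t : ℕ in Filter.atTop, 1 ≤ t := Filter.eventually_ge_atTop 1
    have e2 : ∀ᶠ t : ℕ in Filter.atTop, k₀ < (κ.D + 1) * t := by
      filter_upwards [Filter.eventually_gt_atTop k₀] with t ht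
      nlinarith
    have e3 : ∀ᶠ t : ℕ in Filter.atTop, Real.log t ≤ (Real.log 2 / 4) * t := by
      have h := (Real.isLittleO_log_id_atTop.bound (show (0:ℝ) < Real.log 2 / 4 by positivity))
      have h2 := tendsto_natCast_atTop_atTop (R := ℝ) |>.eventually h
      filter_upwards [h2] with t ht
      simp only [id_eq, Real.norm_eq_abs] at ht
      rw [abs_of_nonneg (by positivity : (0:ℝ) ≤ (t:ℝ))] at ht
      exact (le_abs_self _).trans ht
    have e4 : ∀ᶠ t : ℕ in Filter.atTop,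
        Real.log (((κ.Smax : ℝ) + 1) * (q : ℝ) ^ k₀) + 1 ≤ (Real.log 2 / 4) * t := by
      have h : Filter.Tendsto (fun t : ℕ => (Real.log 2 / 4) * (t : ℝ)) Filter.atTop Filter.atTop :=
        Filter.Tendsto.const_mul_atTop (by positivity) tendsto_natCast_atTop_atTop
      exact h.eventually_ge_atTop _
    filter_upwards [e1, e2, e3, e4] with t h1 h2 h3 h4
    exact ⟨h1, h2, h3, h4⟩
  obtain ⟨t, ht1, htk, ht3, ht4⟩ := hev.exists
  refine ⟨t, ht1, htk, fun x hx => ?_⟩
  have htpos : (1 : ℝ) ≤ t := by exact_mod_cast ht1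
  have hlow := eta_lower κ hq0 t ((κ.D + 1) * t) hx (by nlinarith)
  have hup := eta_upper κ hq0 t k₀ hx
  have hup2 : Real.log (((t * κ.Smax + 1 : ℕ) : ℝ) * (q : ℝ) ^ k₀) ≤
      Real.log t + Real.log (((κ.Smax : ℝ) + 1) * (q : ℝ) ^ k₀) := by
    rw [← Real.log_mul (by positivity) (by positivity)]
    apply Real.log_le_log (by positivity)
    push_cast
    have h : (t : ℝ) * κ.Smax + 1 ≤ t * (κ.Smax + 1) := by nlinarith
    calc ((t : ℝ) * κ.Smax + 1) * (q : ℝ) ^ k₀ ≤ (t * (κ.Smax + 1)) * (q : ℝ) ^ k₀ :=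
          mul_le_mul_of_nonneg_right h (by positivity)
      _ = _ := by ring
  have htel : eta κ t ((κ.D + 1) * t) x - eta κ t k₀ x =
      ∑ i ∈ Ico k₀ ((κ.D + 1) * t), (eta κ t (i + 1) x - eta κ t i x) :=
    (Finset.sum_Ico_sub (fun i => eta κ t i x) htk.le).symm
  have hsum : ∑ i ∈ Ico k₀ ((κ.D + 1) * t), (eta κ t (i + 1) x - eta κ t i x) ≤
      ∑ i ∈ Ico k₀ ((κ.D + 1) * t), (q * e + A * (1 - W κ t i (i + 1) x)) :=
    Finset.sum_le_sum fun i _ => eta_step κ hq0 t i hx he he1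
  have hsum2 : ∑ i ∈ Ico k₀ ((κ.D + 1) * t), ((q : ℝ) * e + A * (1 - W κ t i (i + 1) x)) =
      (((κ.D + 1) * t - k₀ : ℕ) : ℝ) * (q * e) +
        A * ∑ i ∈ Ico k₀ ((κ.D + 1) * t), (1 - W κ t i (i + 1) x) := by
    rw [Finset.sum_add_distrib, Finset.sum_const, Nat.card_Ico, nsmul_eq_mul, ← Finset.mul_sum]
  rw [hsum2] at hsum
  have hcard : (((κ.D + 1) * t - k₀ : ℕ) : ℝ) ≤ D' * t := by
    have : (κ.D + 1) * t - k₀ ≤ (κ.D + 1) * t := Nat.sub_le _ _
    calc (((κ.D + 1) * t - k₀ : ℕ) : ℝ) ≤ (((κ.D + 1) * t : ℕ) : ℝ) := by exact_mod_cast this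
      _ = D' * t := by push_cast; rw [hD']
  have hqe : (((κ.D + 1) * t - k₀ : ℕ) : ℝ) * (q * e) ≤ Real.log 2 / 4 * t := by
    calc (((κ.D + 1) * t - k₀ : ℕ) : ℝ) * (q * e) ≤ (D' * t) * (q * e) :=
          mul_le_mul_of_nonneg_right hcard (by positivity)
      _ = Real.log 2 / 4 * t := by
          rw [he_def]; field_simp
  set Sg := ∑ i ∈ Ico k₀ ((κ.D + 1) * t), (1 - W κ t i (i + 1) x) with hSg
  have hfin : Real.log 2 / 4 * t ≤ A * Sg := by
    rw [← htel] at hsum
    nlinarith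
  have : Real.log 2 / (4 * A * D') * (((κ.D + 1) * t : ℕ) : ℝ) = (Real.log 2 / 4 * t) / A := by
    push_cast
    rw [hD']
    have : (κ.D : ℝ) + 1 ≠ 0 := by positivity
    field_simp
  rw [this, div_le_iff₀ hA0]
  linarith

end Pool.Agent.H412R2
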