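import Pool.Agent.H412R2.Spread

/-!
Task 4 (LOG): average of `-log ff` by a first-passage argument.
-/

set_option autoImplicit false

namespace Pool.Agent.H412R2

/-! ### linearity and elementary facts on `Lop`, `ff` -/

theorem Lw_smul (E : ℕ) (u : ℕ → ℝ) (c : ℝ) (h : ℤ → ℝ) (x : ℤ) :
    Lw E u (fun z => c * h z) x = c * Lw E u h x := by
  unfold Lw
  rw [Finset.mul_sum]
  refine Finset.sum_congr rfl fun e _ => ?_
  split_ifs
  · ring
  · ring

theorem Lw_iter_smul (E : ℕ) (u : ℕ → ℝ) (c : ℝ) (n : ℕ) : ∀ (h : ℤ → ℝ) (x : ℤ),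
    (Lw E u)^[n] (fun z => c * h z) x = c * (Lw E u)^[n] h x := by
  induction n with
  | zero => intro h x; rfl
  | succ n ih =>
    intro h x
    rw [Function.iterate_succ_apply, Function.iterate_succ_apply]
    have : Lw E u (fun z => c * h z) = fun z => c * Lw E u h z := by
      funext z; exact Lw_smul E u c h z
    rw [this, ih]

theorem Lw_one_nonneg {E : ℕ} {u : ℕ → ℝ} (hu : ∀ e, 0 ≤ u e) {h : ℤ → ℝ} (hh : ∀ x, 0 ≤ h x)
    (x : ℤ) : 0 ≤ Lw E u h x := by
  unfold Lw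
  refine Finset.sum_nonneg fun e _ => ?_
  split_ifs
  · have := hu e; have := hh ((2 ^ e * x - 1) / 3); positivity
  · exact le_refl _

/-- indicator of the units -/
noncomputable def uu (x : ℤ) : ℝ := if (3 : ℤ) ∣ x then 0 else 1

theorem uu_nonneg (x : ℤ) : 0 ≤ uu x := by unfold uu; split_ifs <;> norm_num

theorem ff_zero (E : ℕ) (x : ℤ) : ff E 0 x = 1 := rfl

theorem ff_add (E t n : ℕ) (x : ℤ) : ff E (t + n) x = (Lop E)^[t] (ff E n) x := by
  unfold ff; rw [Function.iterate_add_apply]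

theorem kap2_nonneg {E : ℕ} (hE : 6 ≤ E) (e : ℕ) : 0 ≤ kap E * (1 / 2 : ℝ) ^ e := by
  have := kap_pos hE; positivity

theorem ff_periodic (E t : ℕ) (x y : ℤ) : ff E t (x + 3 ^ t * y) = ff E t x := by
  have := Lw_periodic (E := E) (u := fun e => kap E * (1 / 2 : ℝ) ^ e) (h := fun _ => 1) (m := 0)
    (fun _ _ => rfl) t x y
  simpa [ff, Lop] using this

theorem ff_nonneg {E : ℕ} (hE : 6 ≤ E) (t : ℕ) (x : ℤ) : 0 ≤ ff E t x := by
  have h := Lw_iter_mono (E := E) (u := fun e => kap E * (1 / 2 : ℝ) ^ e) (kap2_nonneg hE)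
    (h₁ := fun _ => 0 * 1) (h₂ := fun _ => 1) (fun _ => by norm_num) t x
  rw [Lw_iter_smul E _ 0 t (fun _ => 1) x] at h
  simpa [ff, Lop] using h

theorem ff_one_ge {E : ℕ} (hE : 6 ≤ E) {x : ℤ} (hx : ¬ (3 : ℤ) ∣ x) : 3 / 4 ≤ ff E 1 x := by
  have hk := one_le_kap hE
  have hk0 := kap_pos hE
  have h0 : ff E 1 x = ∑ e ∈ Finset.Icc 1 E, if (3 : ℤ) ∣ 2 ^ e * x - 1 then
      3 * (kap E * (1 / 2 : ℝ) ^ e) * 1 else 0 := rfl
  rw [h0]
  have hx2 : x % 3 = 1 ∨ x % 3 = 2 := by omega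
  have hnn : ∀ e ∈ Finset.Icc 1 E, (0 : ℝ) ≤ if (3 : ℤ) ∣ 2 ^ e * x - 1 then
      3 * (kap E * (1 / 2 : ℝ) ^ e) * 1 else 0 := by
    intro e _; split_ifs
    · positivity
    · exact le_refl _
  rcases hx2 with h | h
  · have h1 := Finset.single_le_sum hnn (Finset.mem_Icc.2 ⟨by norm_num, by omega⟩ : 2 ∈ Finset.Icc 1 E)
    rw [if_pos (by norm_num; omega)] at h1
    refine le_trans ?_ h1
    norm_num; linarith
  · have h1 := Finset.single_le_sum hnn (Finset.mem_Icc.2 ⟨by norm_num, by omega⟩ : 1 ∈ Finset.Icc 1 E)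
    rw [if_pos (by norm_num; omega)] at h1
    refine le_trans ?_ h1
    norm_num; linarith

theorem four_pow_mod (k : ℕ) : (4 : ℤ) ^ k % 3 = 1 := by
  induction k with
  | zero => rfl
  | succ k ih => rw [pow_succ]; omega

/-- parity of the valid letters -/
theorem valid_parity {x : ℤ} {e : ℕ} (h : (3 : ℤ) ∣ 2 ^ e * x - 1) :
    (x % 3 = 1 ∧ e % 2 = 0) ∨ (x % 3 = 2 ∧ e % 2 = 1) := by
  rcases Nat.even_or_odd' e with ⟨k, hk | hk⟩
  · have h4 := four_pow_mod k
    have : (2 : ℤ) ^ e = 4 ^ k := by rw [hk, pow_mul]; norm_num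
    rw [this] at h
    left
    obtain ⟨q, hq⟩ : ∃ q, (4 : ℤ) ^ k = 3 * q + 1 := ⟨4 ^ k / 3, by omega⟩
    rw [hq] at h
    have h5 : (3 : ℤ) ∣ x - 1 := by
      have : (3 * q + 1) * x - 1 = 3 * (q * x) + (x - 1) := by ring
      rw [this] at h
      omega
    omega
  · have h4 := four_pow_mod k
    have : (2 : ℤ) ^ e = 4 ^ k * 2 := by rw [hk, pow_add, pow_mul]; norm_num
    rw [this] at h
    right
    obtain ⟨q, hq⟩ : ∃ q, (4 : ℤ) ^ k = 3 * q + 1 := ⟨4 ^ k / 3, by omega⟩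
    rw [hq] at h
    have h5 : (3 : ℤ) ∣ 2 * x - 1 := by
      have : (3 * q + 1) * 2 * x - 1 = 3 * (q * 2 * x) + (2 * x - 1) := by ring
      rw [this] at h
      omega
    omega

theorem Lop_uu_ge {E : ℕ} (hE : 6 ≤ E) (x : ℤ) : (1 / 6) * Lop E (fun _ => 1) x ≤ Lop E uu x := by
  have hk0 := kap_pos hE
  have h0 : Lop E (fun _ => 1) x = ∑ e ∈ Finset.Icc 1 E, if (3 : ℤ) ∣ 2 ^ e * x - 1 then
      3 * (kap E * (1 / 2 : ℝ) ^ e) * 1 else 0 := rfl
  have h1 : Lop E uu x = ∑ e ∈ Finset.Icc 1 E, if (3 : ℤ) ∣ 2 ^ e * x - 1 then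
      3 * (kap E * (1 / 2 : ℝ) ^ e) * uu ((2 ^ e * x - 1) / 3) else 0 := rfl
  have hnn : ∀ e ∈ Finset.Icc 1 E, (0 : ℝ) ≤ if (3 : ℤ) ∣ 2 ^ e * x - 1 then
      3 * (kap E * (1 / 2 : ℝ) ^ e) * uu ((2 ^ e * x - 1) / 3) else 0 := by
    intro e _; have := uu_nonneg ((2 ^ e * x - 1) / 3); split_ifs
    · positivity
    · exact le_refl _
  have hx2 : x % 3 = 0 ∨ x % 3 = 1 ∨ x % 3 = 2 := by omega
  have hsum := sum_half E
  have hle1 : ∑ e ∈ Finset.Icc 1 E, (1 / 2 : ℝ) ^ e ≤ 1 := by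
    rw [hsum]; have : (0 : ℝ) < (1 / 2) ^ E := by positivity
    linarith
  rcases hx2 with h | h | h
  · -- non unit
    have : Lop E (fun _ => 1) x = 0 := by
      rw [h0]
      refine Finset.sum_eq_zero fun e _ => ?_
      rw [if_neg]
      intro hv
      have := valid_parity hv
      omega
    rw [this, mul_zero, h1]
    exact Finset.sum_nonneg hnn
  · -- x = 1 mod 3
    have hup : Lop E (fun _ => 1) x ≤ 3 * kap E * (3 / 8) := by
      rw [h0]
      have h2 : ∀ e ∈ Finset.Icc 1 E, (if (3 : ℤ) ∣ 2 ^ e * x - 1 then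
          3 * (kap E * (1 / 2 : ℝ) ^ e) * 1 else 0) ≤ 3 * kap E * ((1 / 2 : ℝ) ^ e -
            (if e = 1 then 1 / 2 else 0) - (if e = 3 then 1 / 8 else 0)) := by
        intro e _
        by_cases h3 : e = 1
        · subst h3
          rw [if_neg (by intro hv; have := valid_parity hv; omega)]
          norm_num
        by_cases h4 : e = 3
        · subst h4
          rw [if_neg (by intro hv; have := valid_parity hv; omega)]
          norm_num
        rw [if_neg h3, if_neg h4, sub_zero, sub_zero]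
        split_ifs with hv
        · exact le_of_eq (by ring)
        · positivity
      refine le_trans (Finset.sum_le_sum h2) ?_
      rw [← Finset.mul_sum, Finset.sum_sub_distrib, Finset.sum_sub_distrib,
        Finset.sum_ite_eq', Finset.sum_ite_eq', if_pos (Finset.mem_Icc.2 ⟨by norm_num, by omega⟩),
        if_pos (Finset.mem_Icc.2 ⟨by norm_num, by omega⟩)]
      apply mul_le_mul_of_nonneg_left _ (by positivity)
      linarith
    have hlow : 3 * kap E * (1 / 16) ≤ Lop E uu x := by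
      rw [h1]
      by_cases h3 : (3 : ℤ) ∣ (2 ^ 2 * x - 1) / 3
      · have h4 := Finset.single_le_sum hnn (Finset.mem_Icc.2 ⟨by norm_num, by omega⟩ : 4 ∈ Finset.Icc 1 E)
        rw [if_pos (by norm_num; omega)] at h4
        refine le_trans ?_ h4
        unfold uu
        rw [if_neg (by norm_num at h3 ⊢; omega)]
        norm_num; linarith
      · have h4 := Finset.single_le_sum hnn (Finset.mem_Icc.2 ⟨by norm_num, by omega⟩ : 2 ∈ Finset.Icc 1 E)
        rw [if_pos (by norm_num; omega)] at h4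
        refine le_trans ?_ h4
        unfold uu
        rw [if_neg h3]
        norm_num; linarith
    linarith
  · -- x = 2 mod 3
    have hup : Lop E (fun _ => 1) x ≤ 3 * kap E * (3 / 4) := by
      rw [h0]
      have h2 : ∀ e ∈ Finset.Icc 1 E, (if (3 : ℤ) ∣ 2 ^ e * x - 1 then
          3 * (kap E * (1 / 2 : ℝ) ^ e) * 1 else 0) ≤ 3 * kap E * ((1 / 2 : ℝ) ^ e -
            (if e = 2 then 1 / 4 else 0)) := by
        intro e _
        split_ifs with hv h3 h3
        · exfalso; subst h3; have := valid_parity hv; omega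
        · ring_nf; rfl
        · subst h3; norm_num
        · have : (0 : ℝ) ≤ (1 / 2) ^ e := by positivity
          have : 0 ≤ 3 * kap E := by positivity
          nlinarith
      refine le_trans (Finset.sum_le_sum h2) ?_
      rw [← Finset.mul_sum, Finset.sum_sub_distrib,
        Finset.sum_ite_eq', if_pos (Finset.mem_Icc.2 ⟨by norm_num, by omega⟩)]
      apply mul_le_mul_of_nonneg_left _ (by positivity)
      linarith
    have hlow : 3 * kap E * (1 / 8) ≤ Lop E uu x := by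
      rw [h1]
      by_cases h3 : (3 : ℤ) ∣ (2 ^ 1 * x - 1) / 3
      · have h4 := Finset.single_le_sum hnn (Finset.mem_Icc.2 ⟨by norm_num, by omega⟩ : 3 ∈ Finset.Icc 1 E)
        rw [if_pos (by norm_num; omega)] at h4
        refine le_trans ?_ h4
        unfold uu
        rw [if_neg (by norm_num at h3 ⊢; omega)]
        norm_num; linarith
      · have h4 := Finset.single_le_sum hnn (Finset.mem_Icc.2 ⟨by norm_num, by omega⟩ : 1 ∈ Finset.Icc 1 E)
        rw [if_pos (by norm_num; omega)] at h4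
        refine le_trans ?_ h4
        unfold uu
        rw [if_neg h3]
        norm_num; linarith
    linarith

theorem ff_ratio {E t : ℕ} (hE : 6 ≤ E) {x : ℤ} (hx : ¬ (3 : ℤ) ∣ x) :
    (1 / 10 : ℝ) * ff E t x ≤ ff E (t + 1) x := by
  cases t with
  | zero => rw [ff_zero]; have := ff_one_ge hE hx; simp at this ⊢; linarith
  | succ t =>
    have hmono := @Lw_iter_mono E (fun e => kap E * (1 / 2 : ℝ) ^ e) (kap2_nonneg hE)
    have h0 := ff_nonneg hE (t + 1) x
    have h1 : (3 / 4 : ℝ) * (Lop E)^[t + 1] uu x ≤ ff E (t + 1 + 1) x := by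
      rw [ff_add E (t + 1) 1]
      have := hmono (h₁ := fun z => (3 / 4 : ℝ) * uu z) (h₂ := ff E 1) (by
        intro z
        unfold uu
        split_ifs with hz
        · rw [mul_zero]; exact ff_nonneg hE 1 z
        · rw [mul_one]; exact ff_one_ge hE hz) (t + 1) x
      rw [Lw_iter_smul] at this
      exact this
    have h2 : (1 / 6 : ℝ) * ff E (t + 1) x ≤ (Lop E)^[t + 1] uu x := by
      rw [ff_add E t 1, Function.iterate_succ_apply]
      have := hmono (h₁ := fun z => (1 / 6 : ℝ) * ff E 1 z) (h₂ := Lop E uu) (by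
        intro z
        exact Lop_uu_ge hE z) t x
      rw [Lw_iter_smul] at this
      exact this
    linarith

theorem ff_pos {E t : ℕ} (hE : 6 ≤ E) {x : ℤ} (hx : ¬ (3 : ℤ) ∣ x) : 0 < ff E t x := by
  induction t with
  | zero => rw [ff_zero]; norm_num
  | succ t ih => have := ff_ratio (t := t) hE hx; linarith

/-! ### averages over residue blocks -/

/-- average of `φ` over the `3^m` residues `x + 3^t y` mod `3^(t+m)` -/
noncomputable def Av : ℕ → ℕ → (ℤ → ℝ) → ℤ → ℝ
  | 0, _, φ, x => φ x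
  | m + 1, t, φ, x => (1 / 3) * ∑ d ∈ Finset.range 3, Av m (t + 1) φ (x + 3 ^ t * (d : ℤ))

theorem sum_range_three_mul_nat (n : ℕ) (F : ℕ → ℝ) :
    ∑ y ∈ Finset.range (3 * n), F y = ∑ d ∈ Finset.range 3, ∑ y ∈ Finset.range n, F (d + 3 * y) := by
  induction n with
  | zero => simp
  | succ n ih =>
    rw [show 3 * (n + 1) = 3 * n + 1 + 1 + 1 by ring, Finset.sum_range_succ, Finset.sum_range_succ,
      Finset.sum_range_succ, ih]
    simp only [Finset.sum_range_succ, Finset.sum_range_zero]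
    rw [show 3 * n + 1 + 1 = 2 + 3 * n by ring, show 3 * n + 1 = 1 + 3 * n by ring]
    rw [show 0 + 3 * n = 3 * n by ring]
    ring

theorem Av_eq (m : ℕ) : ∀ (t : ℕ) (φ : ℤ → ℝ) (x : ℤ),
    3 ^ m * Av m t φ x = ∑ y ∈ Finset.range (3 ^ m), φ (x + 3 ^ t * (y : ℤ)) := by
  induction m with
  | zero => intro t φ x; simp [Av]
  | succ m ih =>
    intro t φ x
    rw [Av, pow_succ', pow_succ', sum_range_three_mul_nat]
    have h1 : ∀ d ∈ Finset.range 3, ∑ y ∈ Finset.range (3 ^ m), φ (x + 3 ^ t * ((d + 3 * y : ℕ) : ℤ)) =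
        3 ^ m * Av m (t + 1) φ (x + 3 ^ t * (d : ℤ)) := by
      intro d _
      rw [ih]
      refine Finset.sum_congr rfl fun y _ => ?_
      congr 1
      push_cast
      ring
    rw [Finset.sum_congr rfl h1, ← Finset.mul_sum]
    ring

theorem Av_mono (m : ℕ) {φ ψ : ℤ → ℝ} : ∀ (t : ℕ) (x : ℤ),
    (∀ y : ℤ, φ (x + 3 ^ t * y) ≤ ψ (x + 3 ^ t * y)) → Av m t φ x ≤ Av m t ψ x := by
  induction m with
  | zero => intro t x h; simpa [Av] using h 0
  | succ m ih =>
    intro t x h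
    rw [Av, Av]
    apply mul_le_mul_of_nonneg_left _ (by norm_num)
    refine Finset.sum_le_sum fun d _ => ih (t + 1) _ fun y => ?_
    have := h (d + 3 * y)
    have he : x + 3 ^ t * ((d : ℤ) + 3 * y) = x + 3 ^ t * (d : ℤ) + 3 ^ (t + 1) * y := by ring
    rwa [he] at this

theorem Av_lin (m : ℕ) (a b : ℝ) (φ ψ : ℤ → ℝ) : ∀ (t : ℕ) (x : ℤ),
    Av m t (fun z => a * φ z + b * ψ z) x = a * Av m t φ x + b * Av m t ψ x := by
  induction m with
  | zero => intro t x; rfl
  | succ m ih =>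
    intro t x
    simp only [Av, ih, Finset.sum_add_distrib, ← Finset.mul_sum]
    ring

theorem Av_const (m : ℕ) (c : ℝ) : ∀ (t : ℕ) (x : ℤ), Av m t (fun _ => c) x = c := by
  induction m with
  | zero => intro t x; rfl
  | succ m ih => intro t x; simp only [Av, ih]; simp

theorem Av_iter {E : ℕ} {h : ℤ → ℝ} {m : ℕ}
    (hper : ∀ x y : ℤ, h (x + 3 ^ m * y) = h x) (t : ℕ) (x : ℤ) :
    3 ^ m * Av m t ((Lop E)^[t] h) x = ff E t x * ∑ y ∈ Finset.range (3 ^ m), h (y : ℤ) := by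
  rw [Av_eq]
  exact Lw_iter_sum hper t x

theorem Av_ff {E : ℕ} (hE : 6 ≤ E) (m t : ℕ) (x : ℤ) : Av m t (ff E (t + m)) x = ff E t x := by
  have h1 : ff E (t + m) = (Lop E)^[t] (ff E m) := by funext z; exact ff_add E t m z
  have h2 := Av_iter (E := E) (h := ff E m) (m := m) (fun x y => ff_periodic E m x y) t x
  have h3 : ∑ y ∈ Finset.range (3 ^ m), ff E m (y : ℤ) = 3 ^ m := by
    have := Lw_total (E := E) (u := fun e => kap E * (1 / 2 : ℝ) ^ e) (h := fun _ => 1) (m := 0)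
      (fun _ _ => rfl) m
    rw [sum_kap hE] at this
    simpa [ff, Lop] using this
  rw [h3, ← h1] at h2
  have h4 : (0 : ℝ) < 3 ^ m := by positivity
  have h5 : (3 : ℝ) ^ m * (Av m t (ff E (t + m)) x - ff E t x) = 0 := by linarith
  rcases mul_eq_zero.1 h5 with h | h
  · exact absurd h h4.ne'
  · linarith

/-- the spread property at any past -/
theorem spread_Av {E T n : ℕ} {C : ℝ} (hE : 6 ≤ E) (hT : 1 ≤ T) (hC : 0 < C)
    (hsp : ∃ h : ℤ → ℝ, (∀ x y : ℤ, h (x + 3 ^ n * y) = h x) ∧ (∀ x, 0 ≤ h x) ∧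
      (∀ x, h x ≤ ff E n x) ∧ (∀ x, h x ≤ C * Real.sqrt T) ∧
      (1 / 2 : ℝ) * 3 ^ n ≤ ∑ y ∈ Finset.range (3 ^ n), h (y : ℤ))
    (t : ℕ) {x : ℤ} (hx : 0 < ff E t x) :
    1 / (4 * (C * Real.sqrt T)) ≤
      Av n t (fun z => if ff E t x / 4 ≤ ff E (t + n) z then 1 else 0) x := by
  obtain ⟨h, hper, h0, hle, hbd, hsum⟩ := hsp
  set M : ℝ := C * Real.sqrt T with hM
  have hM0 : 0 < M := mul_pos hC (Real.sqrt_pos.2 (by exact_mod_cast hT))
  have h1 := Av_iter (E := E) hper t x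
  have h3 : (0 : ℝ) < 3 ^ n := by positivity
  have h2 : ff E t x / 2 ≤ Av n t ((Lop E)^[t] h) x := by
    have h4 : ff E t x * ((1 / 2 : ℝ) * 3 ^ n) ≤ 3 ^ n * Av n t ((Lop E)^[t] h) x := by
      rw [h1]; exact mul_le_mul_of_nonneg_left hsum hx.le
    have h5 : (3 : ℝ) ^ n * (ff E t x / 2) ≤ 3 ^ n * Av n t ((Lop E)^[t] h) x := by linarith
    exact le_of_mul_le_mul_left h5 h3
  have hmono := @Lw_iter_mono E (fun e => kap E * (1 / 2 : ℝ) ^ e) (kap2_nonneg hE)
  have h4 : ∀ z, (Lop E)^[t] h z ≤ ff E (t + n) z := by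
    intro z; rw [ff_add]; exact hmono hle t z
  have h5 : ∀ z, (Lop E)^[t] h z ≤ M * ff E t z := by
    intro z
    have := hmono (h₁ := h) (h₂ := fun _ => M * 1) (fun z => by rw [mul_one]; exact hbd z) t z
    rw [Lw_iter_smul] at this
    exact this
  have h6 : Av n t ((Lop E)^[t] h) x ≤ Av n t (fun z => (M * ff E t x) *
      (if ff E t x / 4 ≤ ff E (t + n) z then 1 else 0) + (ff E t x / 4) * 1) x := by
    apply Av_mono
    intro y
    split_ifs with h7
    · have := h5 (x + 3 ^ t * y)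
      rw [ff_periodic] at this
      linarith
    · push Not at h7
      have := h4 (x + 3 ^ t * y)
      linarith
  rw [Av_lin n (M * ff E t x) (ff E t x / 4) _ (fun _ => 1), Av_const] at h6
  set A := Av n t (fun z => if ff E t x / 4 ≤ ff E (t + n) z then (1 : ℝ) else 0) x with hA
  have h8 : ff E t x * (1 / 4) ≤ ff E t x * (M * A) := by nlinarith
  have h9 : 1 / 4 ≤ M * A := le_of_mul_le_mul_left h8 hx
  rw [div_le_iff₀ (by positivity)]
  linarith

/-- survival probability above the level `l` -/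
noncomputable def surv (E : ℕ) (l : ℝ) : ℕ → ℕ → ℤ → ℝ
  | 0, _, _ => 1
  | m + 1, t, x => (1 / 3) * ∑ d ∈ Finset.range 3,
      if l ≤ ff E (t + 1) (x + 3 ^ t * (d : ℤ)) then surv E l m (t + 1) (x + 3 ^ t * (d : ℤ)) else 0

theorem unit_shift {x : ℤ} (hx : ¬ (3 : ℤ) ∣ x) {t : ℕ} (ht : 1 ≤ t) (d : ℤ) :
    ¬ (3 : ℤ) ∣ x + 3 ^ t * d := by
  obtain ⟨s, rfl⟩ : ∃ s, t = s + 1 := ⟨t - 1, by omega⟩
  rw [pow_succ]
  intro h
  apply hx
  have h2 : (3 : ℤ) ∣ 3 ^ s * 3 * d := ⟨3 ^ s * d, by ring⟩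
  exact (dvd_add_left h2).1 h

theorem surv_lower {E : ℕ} (hE : 6 ≤ E) {l hh : ℝ} (hh0 : 0 < hh) (m : ℕ) :
    ∀ (t : ℕ) (x : ℤ),
    Av m t (fun z => if hh ≤ ff E (t + m) z then 1 else 0) x ≤ surv E l m t x + l / hh ∨ l < 0 := by
  by_cases hl : l < 0
  · exact fun _ _ => Or.inr hl
  push Not at hl
  have hlh : 0 ≤ l / hh := by positivity
  induction m with
  | zero =>
    intro t x
    left
    simp only [Av, surv]
    split_ifs <;> linarith
  | succ m ih =>
    intro t x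
    left
    simp only [Av, surv]
    have h1 : ∀ d ∈ Finset.range 3,
        Av m (t + 1) (fun z => if hh ≤ ff E (t + (m + 1)) z then 1 else 0) (x + 3 ^ t * (d : ℤ)) ≤
        (if l ≤ ff E (t + 1) (x + 3 ^ t * (d : ℤ)) then surv E l m (t + 1) (x + 3 ^ t * (d : ℤ)) else 0)
          + l / hh := by
      intro d _
      have he : t + (m + 1) = t + 1 + m := by ring
      rw [he]
      split_ifs with h2
      · rcases ih (t + 1) (x + 3 ^ t * (d : ℤ)) with h3 | h3
        · exact h3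
        · linarith
      · push Not at h2
        rw [zero_add]
        have h3 : Av m (t + 1) (fun z => if hh ≤ ff E (t + 1 + m) z then 1 else 0) (x + 3 ^ t * (d : ℤ)) ≤
            Av m (t + 1) (fun z => (1 / hh) * ff E (t + 1 + m) z + 0 * 1) (x + 3 ^ t * (d : ℤ)) := by
          apply Av_mono
          intro y
          have h5 := ff_nonneg hE (t + 1 + m) (x + 3 ^ t * (d : ℤ) + 3 ^ (t + 1) * y)
          split_ifs with h4
          · rw [zero_mul, add_zero, one_div, inv_mul_eq_div, le_div_iff₀ hh0]; linarith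
          · rw [zero_mul, add_zero]; positivity
        rw [Av_lin m (1 / hh) 0 (ff E (t + 1 + m)) (fun _ => 1), Av_ff hE] at h3
        rw [zero_mul, add_zero] at h3
        refine le_trans h3 ?_
        rw [one_div, inv_mul_eq_div]
        exact div_le_div_of_nonneg_right h2.le hh0.le
    have h2 := Finset.sum_le_sum h1
    rw [Finset.sum_add_distrib] at h2
    have h3 : ∑ _d ∈ Finset.range 3, l / hh = 3 * (l / hh) := by simp
    rw [h3] at h2
    linarith

theorem surv_upper {E : ℕ} (hE : 6 ≤ E) {l B : ℝ} (hl : 0 < l) (_hB : 0 ≤ B) (n : ℕ)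
    (hIH : ∀ m < n, ∀ (t : ℕ) (x : ℤ), 1 ≤ t → ¬ (3 : ℤ) ∣ x →
      Av m t (fun z => - Real.log (ff E (t + m) z)) x + Real.log (ff E t x) ≤ B) (m : ℕ) :
    ∀ (t : ℕ) (x : ℤ), m ≤ n → 1 ≤ t → ¬ (3 : ℤ) ∣ x → l ≤ ff E t x →
      Av m t (fun z => - Real.log (ff E (t + m) z)) x ≤
        - Real.log (l * (1 / 10)) + B * (1 - surv E l m t x) := by
  induction m with
  | zero =>
    intro t x _ ht hx hlx
    simp only [Av, surv]
    have h1 : Real.log (l * (1 / 10)) ≤ Real.log (ff E (t + 0) x) := by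
      apply Real.log_le_log (by positivity)
      rw [add_zero]; linarith
    linarith
  | succ m ih =>
    intro t x hm ht hx hlx
    simp only [Av, surv]
    have h1 : ∀ d ∈ Finset.range 3,
        Av m (t + 1) (fun z => - Real.log (ff E (t + (m + 1)) z)) (x + 3 ^ t * (d : ℤ)) ≤
        (- Real.log (l * (1 / 10)) + B) - B *
        (if l ≤ ff E (t + 1) (x + 3 ^ t * (d : ℤ)) then surv E l m (t + 1) (x + 3 ^ t * (d : ℤ)) else 0) := by
      intro d _
      have he : t + (m + 1) = t + 1 + m := by ring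
      rw [he]
      have hxd := unit_shift hx ht (d : ℤ)
      split_ifs with h2
      · have := ih (t + 1) (x + 3 ^ t * (d : ℤ)) (by omega) (by omega) hxd h2
        linarith
      · rw [mul_zero, sub_zero]
        have h3 := hIH m (by omega) (t + 1) (x + 3 ^ t * (d : ℤ)) (by omega) hxd
        have h4 := ff_ratio (t := t) hE hxd
        rw [ff_periodic] at h4
        have h5 : Real.log (l * (1 / 10)) ≤ Real.log (ff E (t + 1) (x + 3 ^ t * (d : ℤ))) := by
          apply Real.log_le_log (by positivity)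
          linarith
        linarith
    have h2 := Finset.sum_le_sum h1
    rw [Finset.sum_sub_distrib, ← Finset.mul_sum] at h2
    have h3 : ∑ _d ∈ Finset.range 3, (- Real.log (l * (1 / 10)) + B) =
        3 * (- Real.log (l * (1 / 10)) + B) := by
      rw [Finset.sum_const, Finset.card_range, nsmul_eq_mul]; norm_num
    rw [h3] at h2
    linarith

theorem log_avg_aux {E T : ℕ} {C : ℝ} (hE : 6 ≤ E) (hT : 1 ≤ T) (hC : 1 ≤ C)
    (hsp : ∀ n, n ≤ T → ∃ h : ℤ → ℝ, (∀ x y : ℤ, h (x + 3 ^ n * y) = h x) ∧ (∀ x, 0 ≤ h x) ∧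
      (∀ x, h x ≤ ff E n x) ∧ (∀ x, h x ≤ C * Real.sqrt T) ∧
      (1 / 2 : ℝ) * 3 ^ n ≤ ∑ y ∈ Finset.range (3 ^ n), h (y : ℤ)) (n : ℕ) (hn : n ≤ T) :
    ∀ (t : ℕ) (x : ℤ), 1 ≤ t → ¬ (3 : ℤ) ∣ x →
      Av n t (fun z => - Real.log (ff E (t + n) z)) x + Real.log (ff E t x) ≤
        8 * (C * Real.sqrt T) * Real.log (320 * (C * Real.sqrt T)) := by
  induction n using Nat.strong_induction_on with
  | _ n ih =>
  intro t x ht hx
  set M : ℝ := C * Real.sqrt T with hM
  have hs1 : (1 : ℝ) ≤ Real.sqrt T := by rw [Real.one_le_sqrt]; exact_mod_cast hT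
  have hM1 : 1 ≤ M := by rw [hM]; nlinarith
  set c : ℝ := 1 / (4 * M) with hc
  have hc0 : 0 < c := by positivity
  have hc1 : c ≤ 1 := by rw [hc, div_le_iff₀ (by positivity)]; linarith
  have hcM : c * M = 1 / 4 := by rw [hc]; field_simp
  set f0 := ff E t x with hf0
  have hf0p : 0 < f0 := ff_pos hE hx
  set l : ℝ := c / 8 * f0 with hl
  have hl0 : 0 < l := by positivity
  set B : ℝ := 8 * M * Real.log (320 * M) with hB
  have hlogM : 0 ≤ Real.log (320 * M) := Real.log_nonneg (by linarith)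
  have hB0 : 0 ≤ B := by positivity
  have h1 := spread_Av hE hT (by linarith) (hsp n hn) t hf0p
  have h2 : Av n t (fun z => if f0 / 4 ≤ ff E (t + n) z then 1 else 0) x ≤
      surv E l n t x + l / (f0 / 4) := by
    rcases surv_lower hE (l := l) (hh := f0 / 4) (by positivity) n t x with h | h
    · exact h
    · linarith
  have h3 : l / (f0 / 4) = c / 2 := by rw [hl]; field_simp; norm_num
  have h4 : c / 2 ≤ surv E l n t x := by
    have : c ≤ Av n t (fun z => if f0 / 4 ≤ ff E (t + n) z then 1 else 0) x := h1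
    linarith
  have h5 := surv_upper hE hl0 hB0 n (fun m hm t x ht hx => ih m hm (by omega) t x ht hx) n t x
    le_rfl ht hx (by rw [hl]; nlinarith)
  have h6 : Real.log (l * (1 / 10)) = Real.log f0 - Real.log (320 * M) := by
    rw [← Real.log_div hf0p.ne' (by positivity)]
    congr 1
    rw [hl, hc]
    field_simp
    norm_num
  rw [h6] at h5
  have h7 : B * (1 - surv E l n t x) ≤ B * (1 - c / 2) :=
    mul_le_mul_of_nonneg_left (by linarith) hB0
  have h8 : B * (c / 2) = Real.log (320 * M) := by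
    rw [hB]
    have : 8 * M * Real.log (320 * M) * (c / 2) = 4 * (c * M) * Real.log (320 * M) := by ring
    rw [this, hcM]; ring
  nlinarith

theorem log_avg : ∃ C : ℝ, 0 < C ∧ ∀ T E : ℕ, 1 ≤ T → 6 * T ≤ E → ∀ x : ℤ, ¬ (3 : ℤ) ∣ x →
    ∑ y ∈ Finset.range (3 ^ T), - Real.log (ff E (T + 1) (x + 3 * (y : ℤ))) ≤
      3 ^ T * (C * Real.sqrt T * (1 + Real.log T)) := by
  obtain ⟨C0, hC0, hsp0⟩ := exists_spread
  set C : ℝ := max C0 1 with hC
  have hC1 : 1 ≤ C := le_max_right _ _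
  have hlogC : 0 ≤ Real.log (320 * C) := Real.log_nonneg (by linarith)
  refine ⟨8 * C * (Real.log (320 * C) + 1) + 1, by positivity, ?_⟩
  intro T E hT hTE x hx
  have hE : 6 ≤ E := by omega
  have hsp : ∀ n, n ≤ T → ∃ h : ℤ → ℝ, (∀ x y : ℤ, h (x + 3 ^ n * y) = h x) ∧ (∀ x, 0 ≤ h x) ∧
      (∀ x, h x ≤ ff E n x) ∧ (∀ x, h x ≤ C * Real.sqrt T) ∧
      (1 / 2 : ℝ) * 3 ^ n ≤ ∑ y ∈ Finset.range (3 ^ n), h (y : ℤ) := by
    intro n hn
    obtain ⟨h, h1, h2, h3, h4, h5⟩ := hsp0 T E n hT hTE hn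
    exact ⟨h, h1, h2, h3, fun x => le_trans (h4 x)
      (mul_le_mul_of_nonneg_right (le_max_left _ _) (Real.sqrt_nonneg _)), h5⟩
  have h1 := log_avg_aux hE hT hC1 hsp T le_rfl 1 x le_rfl hx
  have h2 := Av_eq T 1 (fun z => - Real.log (ff E (1 + T) z)) x
  rw [pow_one, add_comm 1 T] at h2
  rw [add_comm 1 T] at h1
  rw [← h2]
  apply mul_le_mul_of_nonneg_left _ (by positivity)
  have h3 : Real.log (3 / 4) ≤ Real.log (ff E 1 x) :=
    Real.log_le_log (by norm_num) (ff_one_ge hE hx)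
  have h4 : -1 ≤ Real.log (3 / 4) := by
    have : Real.log (3 / 4) = - Real.log (4 / 3) := by
      rw [← Real.log_inv]; norm_num
    rw [this]
    have := Real.log_le_sub_one_of_pos (show (0 : ℝ) < 4 / 3 by norm_num)
    linarith
  have hs1 : (1 : ℝ) ≤ Real.sqrt T := by rw [Real.one_le_sqrt]; exact_mod_cast hT
  have hT0 : (0 : ℝ) < T := by exact_mod_cast hT
  have hlT : 0 ≤ Real.log T := Real.log_nonneg (by exact_mod_cast hT)
  have h5 : Real.log (320 * (C * Real.sqrt T)) = Real.log (320 * C) + Real.log T / 2 := by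
    rw [← mul_assoc, Real.log_mul (by positivity) (by positivity), Real.log_sqrt hT0.le]
  rw [h5] at h1
  have h6 : 8 * (C * Real.sqrt T) * (Real.log (320 * C) + Real.log T / 2) + 1 ≤
      (8 * C * (Real.log (320 * C) + 1) + 1) * Real.sqrt T * (1 + Real.log T) := by
    have e1 : (Real.log (320 * C) + Real.log T / 2) ≤ (Real.log (320 * C) + 1) * (1 + Real.log T) := by
      nlinarith
    have e2 : 8 * (C * Real.sqrt T) * (Real.log (320 * C) + Real.log T / 2) ≤
        8 * (C * Real.sqrt T) * ((Real.log (320 * C) + 1) * (1 + Real.log T)) :=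
      mul_le_mul_of_nonneg_left e1 (by positivity)
    have e3 : (1 : ℝ) ≤ Real.sqrt T * (1 + Real.log T) := by nlinarith
    nlinarith
  linarith

end Pool.Agent.H412R2
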