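import Pool.Agent.H412R2.FinalOf
import Pool.Agent.H412R2.Typical
import Pool.Agent.H412R2.Rigidity

/-! The main counting theorem for backward `3x+1` trees. -/

set_option autoImplicit false

namespace Pool.Agent.H412R2

/-- for every `σ < 1` and every `a` not divisible by 3, the backward `3x+1` tree of `a` has at least
`c B^σ` elements of absolute value at most `B` -/
theorem main_count : MainCountStmt :=
  main_count_of typical (fun κ hq hq2 hR g hg hpos => positive κ hq hq2 hR g hg hpos)

end Pool.Agent.H412R2
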