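import Mathlib
import Pool.Agent.H412R2.Defs

/-! Task 7 (COUNT): from `positive` to the counting theorem for kernels. -/

set_option autoImplicit false

namespace Pool.Agent.H412R2

namespace CountThm

open Finset

variable {q R : ℕ}

/-- endpoints of `k`-step paths of total size `s` -/
noncomputable def En (κ : Ker q R) : ℕ → ℕ → ℤ → Finset ℤ
  | 0, s, x => if s = 0 then {x} else ∅
  | k + 1, s, x => if κ.S x ≤ s then (κ.K x).biUnion (fun b => En κ k (s - κ.S x) b) else ∅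

theorem path_zero_iff {S : ℤ → ℕ} {K : ℤ → Finset ℤ} {s : ℕ} {x z : ℤ} :
    Path S K 0 s x z ↔ s = 0 ∧ z = x := by
  constructor
  · intro h
    cases h
    exact ⟨rfl, rfl⟩
  · rintro ⟨rfl, rfl⟩
    exact Path.refl _

theorem path_succ_iff {S : ℤ → ℕ} {K : ℤ → Finset ℤ} {j s : ℕ} {x z : ℤ} :
    Path S K (j + 1) s x z ↔ ∃ s' b, s = s' + S x ∧ b ∈ K x ∧ Path S K j s' b z := by
  constructor
  · intro h
    cases h with
    | step hb hp => exact ⟨_, _, rfl, hb, hp⟩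
  · rintro ⟨s', b, rfl, hb, hp⟩
    exact Path.step hb hp

theorem mem_En (κ : Ker q R) (k : ℕ) : ∀ (s : ℕ) (x z : ℤ),
    z ∈ En κ k s x ↔ Path κ.S κ.K k s x z := by
  induction k with
  | zero =>
    intro s x z
    rw [path_zero_iff, En]
    split_ifs with h
    · simp [h]
    · simp [h]
  | succ k ih =>
    intro s x z
    rw [path_succ_iff, En]
    split_ifs with h
    · rw [mem_biUnion]
      constructor
      · rintro ⟨b, hb, hz⟩
        exact ⟨s - κ.S x, b, by omega, hb, (ih _ _ _).1 hz⟩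
      · rintro ⟨s', b, rfl, hb, hp⟩
        refine ⟨b, hb, ?_⟩
        rw [ih]
        simpa using hp
    · simp only [notMem_empty, false_iff, not_exists, not_and]
      intro s' b hs
      omega

theorem path_size_le (κ : Ker q R) (k : ℕ) : ∀ (s : ℕ) (x z : ℤ),
    Path κ.S κ.K k s x z → s ≤ k * κ.Smax := by
  induction k with
  | zero =>
    intro s x z h
    rw [path_zero_iff] at h
    omega
  | succ k ih =>
    intro s x z h
    rw [path_succ_iff] at h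
    obtain ⟨s', b, rfl, hb, hp⟩ := h
    have h1 := ih _ _ _ hp
    have h2 := κ.hSmax x
    rw [Nat.succ_mul]
    omega

theorem En_eq_empty (κ : Ker q R) {k s : ℕ} (x : ℤ) (h : k * κ.Smax < s) : En κ k s x = ∅ := by
  rw [Finset.eq_empty_iff_forall_notMem]
  intro z hz
  rw [mem_En] at hz
  have := path_size_le κ k s x z hz
  omega

theorem card_En_succ (κ : Ker q R) {k s : ℕ} {x : ℤ} (hx : ¬ (q : ℤ) ∣ x) :
    (En κ (k + 1) (κ.S x + s) x).card = ∑ b ∈ κ.K x, (En κ k s b).card := by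
  rw [En, if_pos (Nat.le_add_right _ _), Finset.card_biUnion]
  · simp
  · intro b hb b' hb' hne
    rw [Function.onFun, Finset.disjoint_left]
    intro z hz hz'
    rw [mem_En] at hz hz'
    exact hne (κ.hsep k _ x b b' z z hx hb hb' hz hz' (Int.ModEq.refl _))

theorem card_En_succ_lt (κ : Ker q R) {k s : ℕ} {x : ℤ} (h : s < κ.S x) :
    (En κ (k + 1) s x).card = 0 := by
  rw [En, if_neg (by omega), Finset.card_empty]

/-- ratio of a step -/
noncomputable def om (κ : Ker q R) (x : ℤ) : ℝ := 2 ^ (κ.S x) / (q : ℝ) ^ R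

open scoped Classical in
/-- number of `k`-step paths with ratio at most `B` -/
noncomputable def EE (κ : Ker q R) (k : ℕ) (x : ℤ) (B : ℝ) : ℝ :=
  ∑ s ∈ range (k * κ.Smax + 1),
    if (2 : ℝ) ^ s ≤ B * (q : ℝ) ^ (k * R) then ((En κ k s x).card : ℝ) else 0

open scoped Classical in
theorem EE_eq (κ : Ker q R) (k : ℕ) (x : ℤ) (B : ℝ) {L : ℕ} (hL : k * κ.Smax + 1 ≤ L) :
    EE κ k x B = ∑ s ∈ range L,
      if (2 : ℝ) ^ s ≤ B * (q : ℝ) ^ (k * R) then ((En κ k s x).card : ℝ) else 0 := by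
  rw [EE]
  refine Finset.sum_subset (by simpa using hL) ?_
  intro s _ hs
  rw [mem_range, not_lt] at hs
  rw [En_eq_empty κ x (by omega)]
  simp

theorem EE_nonneg (κ : Ker q R) (k : ℕ) (x : ℤ) (B : ℝ) : 0 ≤ EE κ k x B := by
  classical
  rw [EE]
  refine Finset.sum_nonneg (fun s _ => ?_)
  split_ifs
  · positivity
  · exact le_rfl

theorem EE_zero (κ : Ker q R) (x : ℤ) {B : ℝ} (hB : 1 ≤ B) : EE κ 0 x B = 1 := by
  classical
  rw [EE]
  simp [En, hB]

theorem EE_succ (κ : Ker q R) (hq : 0 < q) {k : ℕ} {x : ℤ} (hx : ¬ (q : ℤ) ∣ x) (B : ℝ) :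
    EE κ (k + 1) x B = ∑ b ∈ κ.K x, EE κ k b (B / om κ x) := by
  classical
  have hS := κ.hSmax x
  rw [EE_eq κ (k + 1) x B (L := κ.S x + ((k + 1) * κ.Smax + 1)) (by omega),
    Finset.sum_range_add, Finset.sum_eq_zero, zero_add]
  · have h1 : ∀ b ∈ κ.K x, EE κ k b (B / om κ x) = ∑ s ∈ range ((k + 1) * κ.Smax + 1),
        if (2 : ℝ) ^ s ≤ B / om κ x * (q : ℝ) ^ (k * R) then ((En κ k s b).card : ℝ) else 0 := by
      intro b _
      exact EE_eq κ k b _ (by rw [Nat.succ_mul]; omega)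
    rw [Finset.sum_congr rfl h1, Finset.sum_comm]
    refine Finset.sum_congr rfl (fun s _ => ?_)
    have hcond : (2 : ℝ) ^ (κ.S x + s) ≤ B * (q : ℝ) ^ ((k + 1) * R) ↔
        (2 : ℝ) ^ s ≤ B / om κ x * (q : ℝ) ^ (k * R) := by
      have hqR : (0 : ℝ) < (q : ℝ) ^ R := by positivity
      have h2 : (0 : ℝ) < 2 ^ (κ.S x) := by positivity
      have e : B / om κ x * (q : ℝ) ^ (k * R) = (B * (q : ℝ) ^ ((k + 1) * R)) / 2 ^ (κ.S x) := by
        rw [om, Nat.succ_mul, pow_add]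
        field_simp
      rw [e, le_div_iff₀ h2, pow_add, mul_comm]
    rw [card_En_succ κ hx]
    by_cases h : (2 : ℝ) ^ s ≤ B / om κ x * (q : ℝ) ^ (k * R)
    · rw [if_pos (hcond.2 h)]
      simp [h]
    · rw [if_neg (fun h' => h (hcond.1 h'))]
      simp [h]
  · intro s hs
    rw [mem_range] at hs
    rw [card_En_succ_lt κ hs]
    simp

/-- iterated transfer -/
noncomputable def IT (κ : Ker q R) (F : ℤ → ℝ → ℝ) : ℕ → ℤ → ℝ → ℝ
  | 0, x, B => F x B
  | k + 1, x, B => ∑ b ∈ κ.K x, IT κ F k b (B / om κ x)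

theorem IT_EE (κ : Ker q R) (hq : 0 < q) (m k : ℕ) : ∀ (x : ℤ), ¬ (q : ℤ) ∣ x → ∀ B : ℝ,
    IT κ (EE κ m) k x B = EE κ (m + k) x B := by
  induction k with
  | zero => intro x hx B; rfl
  | succ k ih =>
    intro x hx B
    rw [IT, ← add_assoc, EE_succ κ hq hx]
    exact Finset.sum_congr rfl (fun b hb => ih b (κ.hlive x b hx hb) _)

theorem IT_sum (κ : Ker q R) (F : ℕ → ℤ → ℝ → ℝ) (t : Finset ℕ) (k : ℕ) : ∀ (x : ℤ) (B : ℝ),
    IT κ (fun x B => ∑ m ∈ t, F m x B) k x B = ∑ m ∈ t, IT κ (F m) k x B := by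
  induction k with
  | zero => intro x B; rfl
  | succ k ih =>
    intro x B
    simp only [IT]
    rw [Finset.sum_comm]
    exact Finset.sum_congr rfl (fun b _ => ih b _)

/-- partition function -/
noncomputable def ZZ (κ : Ker q R) (σ : ℝ) : ℕ → ℤ → ℝ
  | 0, _ => 1
  | k + 1, x => ∑ b ∈ κ.K x, (om κ x) ^ (-σ) * ZZ κ σ k b

theorem om_pos (κ : Ker q R) (hq : 0 < q) (x : ℤ) : 0 < om κ x := by
  rw [om]
  positivity

theorem IT_pow (κ : Ker q R) (hq : 0 < q) (σ c : ℝ) (k : ℕ) : ∀ (x : ℤ), ∀ B : ℝ, 0 < B →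
    IT κ (fun _ B => c * B ^ σ) k x B = c * B ^ σ * ZZ κ σ k x := by
  induction k with
  | zero => intro x B hB; simp [IT, ZZ]
  | succ k ih =>
    intro x B hB
    have hω := om_pos κ hq x
    rw [IT, ZZ, Finset.mul_sum]
    refine Finset.sum_congr rfl (fun b _ => ?_)
    rw [ih b (B / om κ x) (div_pos hB hω), Real.div_rpow hB.le hω.le, Real.rpow_neg hω.le]
    ring

theorem IT_mono (κ : Ker q R) (hq : 0 < q) {w W : ℝ} (hw : 0 < w)
    (hlow : ∀ x : ℤ, ¬ (q : ℤ) ∣ x → w ≤ om κ x)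
    (hup : ∀ x : ℤ, ¬ (q : ℤ) ∣ x → om κ x ≤ W) (F₁ F₂ : ℤ → ℝ → ℝ) (k : ℕ) :
    ∀ (x : ℤ), ¬ (q : ℤ) ∣ x → ∀ B : ℝ, 0 < B →
    (∀ b : ℤ, ¬ (q : ℤ) ∣ b → ∀ B' : ℝ, 0 < B' → B ≤ B' * W ^ k → B' * w ^ k ≤ B →
      F₁ b B' ≤ F₂ b B') → IT κ F₁ k x B ≤ IT κ F₂ k x B := by
  induction k with
  | zero =>
    intro x hx B hB h
    exact h x hx B hB (by simp) (by simp)
  | succ k ih =>
    intro x hx B hB h
    have hω := om_pos κ hq x
    rw [IT, IT]
    refine Finset.sum_le_sum (fun b hb => ih b (κ.hlive x b hx hb) _ (div_pos hB hω) ?_)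
    intro b' hb' B' hB' h1 h2
    have hW : 0 < W := lt_of_lt_of_le hω (hup x hx)
    refine h b' hb' B' hB' ?_ ?_
    · rw [div_le_iff₀ hω] at h1
      refine h1.trans ?_
      rw [pow_succ, ← mul_assoc]
      exact mul_le_mul_of_nonneg_left (hup x hx) (by positivity)
    · rw [le_div_iff₀ hω] at h2
      refine le_trans ?_ h2
      rw [pow_succ, ← mul_assoc]
      exact mul_le_mul_of_nonneg_left (hlow x hx) (by positivity)

theorem log_ZZ (κ : Ker q R) (hq : 0 < q) (σ : ℝ) (g : ℤ → ℝ)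
    (hg : ∀ x : ℤ, g x = Real.log ((κ.K x).card) - σ * Real.log (om κ x)) (k : ℕ) :
    ∀ x : ℤ, ¬ (q : ℤ) ∣ x → 0 < ZZ κ σ k x ∧
      ∑ i ∈ range k, (κ.P)^[i] g x ≤ Real.log (ZZ κ σ k x) := by
  induction k with
  | zero => intro x hx; simp [ZZ]
  | succ k ih =>
    intro x hx
    have hω := om_pos κ hq x
    have hc := κ.hcard x hx
    have hcpos : (0 : ℝ) < ((κ.K x).card : ℝ) := by
      have : 0 < (κ.K x).card := by omega
      exact_mod_cast this
    have hne : (κ.K x).Nonempty := by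
      rw [← Finset.card_pos]; omega
    have hZb : ∀ b ∈ κ.K x, 0 < ZZ κ σ k b := fun b hb => (ih b (κ.hlive x b hx hb)).1
    have hsum : 0 < ∑ b ∈ κ.K x, ZZ κ σ k b := Finset.sum_pos hZb hne
    have hZ : ZZ κ σ (k + 1) x = (om κ x) ^ (-σ) * ∑ b ∈ κ.K x, ZZ κ σ k b := by
      rw [ZZ, Finset.mul_sum]
    have hrp : 0 < (om κ x) ^ (-σ) := Real.rpow_pos_of_pos hω _
    refine ⟨by rw [hZ]; positivity, ?_⟩
    have hlog : Real.log (ZZ κ σ (k + 1) x) = -σ * Real.log (om κ x) +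
        (Real.log ((κ.K x).card) + Real.log (∑ b ∈ κ.K x, ((κ.K x).card : ℝ)⁻¹ • ZZ κ σ k b)) := by
      rw [hZ, Real.log_mul hrp.ne' hsum.ne', Real.log_rpow hω, ← Finset.smul_sum, smul_eq_mul,
        Real.log_mul (by positivity) hsum.ne', Real.log_inv]
      ring
    have hJ : ∑ b ∈ κ.K x, ((κ.K x).card : ℝ)⁻¹ • Real.log (ZZ κ σ k b) ≤
        Real.log (∑ b ∈ κ.K x, ((κ.K x).card : ℝ)⁻¹ • ZZ κ σ k b) := by
      refine strictConcaveOn_log_Ioi.concaveOn.le_map_sum (fun _ _ => by positivity) ?_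
        (fun b hb => hZb b hb)
      rw [Finset.sum_const, nsmul_eq_mul, mul_inv_cancel₀ hcpos.ne']
    have hI : ∑ i ∈ range k, (κ.P)^[i + 1] g x ≤
        ∑ b ∈ κ.K x, ((κ.K x).card : ℝ)⁻¹ • Real.log (ZZ κ σ k b) := by
      have e1 : ∑ i ∈ range k, (κ.P)^[i + 1] g x =
          ∑ b ∈ κ.K x, ((κ.K x).card : ℝ)⁻¹ • ∑ i ∈ range k, (κ.P)^[i] g b := by
        simp only [Function.iterate_succ_apply', Ker.P, smul_eq_mul]
        rw [← Finset.sum_div, Finset.sum_comm, ← Finset.mul_sum]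
        rw [div_eq_mul_inv, mul_comm]
      rw [e1]
      refine Finset.sum_le_sum (fun b hb => ?_)
      rw [smul_eq_mul, smul_eq_mul]
      exact mul_le_mul_of_nonneg_left (ih b (κ.hlive x b hx hb)).2 (by positivity)
    rw [Finset.sum_range_succ', hlog]
    simp only [Function.iterate_zero, id_eq]
    rw [hg x]
    linarith

theorem node_size (κ : Ker q R) (hq : 0 < q)
    (hω : ∀ x : ℤ, ¬ (q : ℤ) ∣ x → (q : ℝ) ^ R < 2 ^ (κ.S x))
    (hoff : ∀ x b : ℤ, ¬ (q : ℤ) ∣ x → b ∈ κ.K x →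
      |(q : ℤ) ^ R * b - 2 ^ (κ.S x) * x| ≤ 2 ^ κ.Smax * (q : ℤ) ^ R) (k : ℕ) :
    ∀ (s : ℕ) (x z : ℤ), ¬ (q : ℤ) ∣ x → Path κ.S κ.K k s x z →
      (|z| : ℝ) + 2 ^ κ.Smax * (q : ℝ) ^ R ≤
        2 ^ s / (q : ℝ) ^ (k * R) * ((|x| : ℝ) + 2 ^ κ.Smax * (q : ℝ) ^ R) := by
  induction k with
  | zero =>
    intro s x z hx h
    rw [path_zero_iff] at h
    obtain ⟨rfl, rfl⟩ := h
    simp
  | succ k ih =>
    intro s x z hx h
    rw [path_succ_iff] at h
    obtain ⟨s', b, rfl, hb, hp⟩ := h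
    have h1 := ih s' b z (κ.hlive x b hx hb) hp
    have h2 := hoff x b hx hb
    have h2' : |(q : ℝ) ^ R * (b : ℝ) - 2 ^ (κ.S x) * (x : ℝ)| ≤ 2 ^ κ.Smax * (q : ℝ) ^ R := by
      exact_mod_cast h2
    have hqR : (0 : ℝ) < (q : ℝ) ^ R := by positivity
    have h3 : (q : ℝ) ^ R + 1 ≤ 2 ^ (κ.S x) := by
      have := hω x hx
      have h4 : q ^ R < 2 ^ (κ.S x) := by exact_mod_cast this
      exact_mod_cast h4
    have h5 : (q : ℝ) ^ R * |(b : ℝ)| ≤ 2 ^ (κ.S x) * |(x : ℝ)| + 2 ^ κ.Smax * (q : ℝ) ^ R := by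
      have e1 : (q : ℝ) ^ R * |(b : ℝ)| = |(q : ℝ) ^ R * (b : ℝ)| := by
        rw [abs_mul, abs_of_pos hqR]
      have e2 : 2 ^ (κ.S x) * |(x : ℝ)| = |2 ^ (κ.S x) * (x : ℝ)| := by
        rw [abs_mul, abs_of_pos (show (0 : ℝ) < 2 ^ (κ.S x) by positivity)]
      rw [e1, e2]
      have := abs_sub_abs_le_abs_sub ((q : ℝ) ^ R * (b : ℝ)) (2 ^ (κ.S x) * (x : ℝ))
      linarith
    have hM : (0 : ℝ) < 2 ^ κ.Smax := by positivity
    have h6 : |(b : ℝ)| + 2 ^ κ.Smax * (q : ℝ) ^ R ≤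
        2 ^ (κ.S x) / (q : ℝ) ^ R * (|(x : ℝ)| + 2 ^ κ.Smax * (q : ℝ) ^ R) := by
      rw [div_mul_eq_mul_div, le_div_iff₀ hqR]
      have h7 : ((q : ℝ) ^ R + 1) * (2 ^ κ.Smax * (q : ℝ) ^ R) ≤
          2 ^ (κ.S x) * (2 ^ κ.Smax * (q : ℝ) ^ R) :=
        mul_le_mul_of_nonneg_right h3 (by positivity)
      nlinarith [h5, h7]
    calc (|z| : ℝ) + 2 ^ κ.Smax * (q : ℝ) ^ R
        ≤ 2 ^ s' / (q : ℝ) ^ (k * R) * ((|b| : ℝ) + 2 ^ κ.Smax * (q : ℝ) ^ R) := h1
      _ ≤ 2 ^ s' / (q : ℝ) ^ (k * R) *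
          (2 ^ (κ.S x) / (q : ℝ) ^ R * (|(x : ℝ)| + 2 ^ κ.Smax * (q : ℝ) ^ R)) :=
        mul_le_mul_of_nonneg_left h6 (by positivity)
      _ = 2 ^ (s' + κ.S x) / (q : ℝ) ^ ((k + 1) * R) *
          ((|x| : ℝ) + 2 ^ κ.Smax * (q : ℝ) ^ R) := by
        rw [Nat.succ_mul, pow_add, pow_add]
        field_simp

/-- main lower bound for the number of paths -/
theorem main_lower (κ : Ker q R) (hq : 0 < q) {w W : ℝ} (hw : 1 < w)
    (hlow : ∀ x : ℤ, ¬ (q : ℤ) ∣ x → w ≤ om κ x)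
    (hup : ∀ x : ℤ, ¬ (q : ℤ) ∣ x → om κ x ≤ W) (hW : 1 ≤ W) {σ : ℝ} (hσ : 0 < σ) (N : ℕ)
    (hZ : ∀ x : ℤ, ¬ (q : ℤ) ∣ x → 1 ≤ ZZ κ σ N x) (M : ℕ) :
    ∀ x : ℤ, ¬ (q : ℤ) ∣ x → ∀ B : ℝ, 1 ≤ B → B ≤ (w ^ N) ^ M →
      (B / W ^ N) ^ σ ≤ ∑ m ∈ range (M + 1), EE κ (N * m) x B := by
  have hWN : 1 ≤ W ^ N := one_le_pow₀ hW
  have hWN0 : 0 < W ^ N := by positivity
  have hsmall : ∀ B : ℝ, 0 ≤ B → B ≤ W ^ N → (B / W ^ N) ^ σ ≤ 1 := by
    intro B hB0 hB
    exact Real.rpow_le_one (by positivity) ((div_le_one hWN0).2 hB) hσ.le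
  induction M with
  | zero =>
    intro x hx B hB hB'
    simp only [pow_zero] at hB'
    rw [Finset.sum_range_one, Nat.mul_zero, EE_zero κ x hB]
    exact hsmall B (by linarith) (hB'.trans hWN)
  | succ M ih =>
    intro x hx B hB hB'
    rw [Finset.sum_range_succ', Nat.mul_zero, EE_zero κ x hB]
    have hnn : 0 ≤ ∑ m ∈ range (M + 1), EE κ (N * (m + 1)) x B :=
      Finset.sum_nonneg (fun m _ => EE_nonneg κ _ x B)
    by_cases hBW : B ≤ W ^ N
    · have := hsmall B (by linarith) hBW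
      linarith
    · rw [not_le] at hBW
      have hB0 : 0 < B := by linarith
      have e1 : ∑ m ∈ range (M + 1), EE κ (N * (m + 1)) x B =
          IT κ (fun x B => ∑ m ∈ range (M + 1), EE κ (N * m) x B) N x B := by
        rw [IT_sum κ (fun m => EE κ (N * m))]
        refine Finset.sum_congr rfl (fun m _ => ?_)
        rw [IT_EE κ hq _ _ x hx, Nat.mul_succ]
      have h1 : IT κ (fun _ B => (W ^ N) ^ (-σ) * B ^ σ) N x B ≤
          IT κ (fun x B => ∑ m ∈ range (M + 1), EE κ (N * m) x B) N x B := by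
        refine IT_mono κ hq (by linarith) hlow hup _ _ N x hx B hB0 ?_
        intro b hb B' hB'0 h2 h3
        have hB'1 : 1 ≤ B' := by
          by_contra hlt
          rw [not_le] at hlt
          have : B' * W ^ N ≤ 1 * W ^ N := mul_le_mul_of_nonneg_right hlt.le hWN0.le
          linarith
        have hB'2 : B' ≤ (w ^ N) ^ M := by
          have hwN : 0 < w ^ N := by positivity
          have : B' * w ^ N ≤ (w ^ N) ^ M * w ^ N := by
            rw [← pow_succ]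
            exact h3.trans hB'
          exact le_of_mul_le_mul_right this hwN
        have := ih b hb B' hB'1 hB'2
        rw [Real.div_rpow hB'0.le hWN0.le] at this
        rw [Real.rpow_neg hWN0.le, inv_mul_eq_div]
        exact this
      rw [IT_pow κ hq σ _ N x B hB0] at h1
      have hc : 0 ≤ (W ^ N) ^ (-σ) * B ^ σ := by positivity
      have h4 : (W ^ N) ^ (-σ) * B ^ σ ≤ (W ^ N) ^ (-σ) * B ^ σ * ZZ κ σ N x :=
        le_mul_of_one_le_right hc (hZ x hx)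
      have h5 : (B / W ^ N) ^ σ = (W ^ N) ^ (-σ) * B ^ σ := by
        rw [Real.div_rpow hB0.le hWN0.le, Real.rpow_neg hWN0.le, inv_mul_eq_div]
      rw [h5, e1]
      linarith

theorem count_aux (κ : Ker q R) (hq : 0 < q) (σ : ℝ) (hσ : 0 < σ)
    (hω : ∀ x : ℤ, ¬ (q : ℤ) ∣ x → (q : ℝ) ^ R < 2 ^ (κ.S x))
    (hoff : ∀ x b : ℤ, ¬ (q : ℤ) ∣ x → b ∈ κ.K x →
      |(q : ℤ) ^ R * b - 2 ^ (κ.S x) * x| ≤ 2 ^ κ.Smax * (q : ℤ) ^ R)
    (N : ℕ) (hN : 1 ≤ N)
    (hZ : ∀ x : ℤ, ¬ (q : ℤ) ∣ x → 1 ≤ ZZ κ σ N x) :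
    ∀ a : ℤ, ¬ (q : ℤ) ∣ a → ∃ c B₀ : ℝ, 0 < c ∧ 1 ≤ B₀ ∧ ∀ B : ℝ, B₀ ≤ B → ∃ F : Finset ℤ,
      (∀ z ∈ F, (|z| : ℝ) ≤ B ∧ ∃ j s, Path κ.S κ.K j s a z) ∧
        c * B ^ σ ≤ F.card * (1 + Real.log B) ^ 2 := by
  classical
  intro a ha
  have hqR : (0 : ℝ) < (q : ℝ) ^ R := by positivity
  have hqR1 : (1 : ℝ) ≤ (q : ℝ) ^ R := one_le_pow₀ (by exact_mod_cast hq)
  set w : ℝ := 1 + 1 / (q : ℝ) ^ R with hwdef
  have hw : 1 < w := by
    rw [hwdef]
    have : 0 < 1 / (q : ℝ) ^ R := by positivity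
    linarith
  set W : ℝ := 2 ^ κ.Smax with hWdef
  have hW : 1 ≤ W := one_le_pow₀ (by norm_num)
  have hlow : ∀ x : ℤ, ¬ (q : ℤ) ∣ x → w ≤ om κ x := by
    intro x hx
    have h3 : (q : ℝ) ^ R + 1 ≤ 2 ^ (κ.S x) := by
      have := hω x hx
      have h4 : q ^ R < 2 ^ (κ.S x) := by exact_mod_cast this
      exact_mod_cast h4
    rw [om, le_div_iff₀ hqR, hwdef, add_mul, div_mul_cancel₀ _ hqR.ne']
    linarith
  have hup : ∀ x : ℤ, ¬ (q : ℤ) ∣ x → om κ x ≤ W := by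
    intro x hx
    rw [om, div_le_iff₀ hqR]
    calc (2 : ℝ) ^ (κ.S x) ≤ 2 ^ κ.Smax := pow_le_pow_right₀ (by norm_num) (κ.hSmax x)
      _ ≤ W * (q : ℝ) ^ R := le_mul_of_one_le_right (by positivity) hqR1
  set A : ℝ := (|a| : ℝ) + 2 ^ κ.Smax * (q : ℝ) ^ R with hAdef
  have hA : 1 ≤ A := by
    have h1 : 1 ≤ W * (q : ℝ) ^ R := one_le_mul_of_one_le_of_one_le hW hqR1
    have h2 : (0 : ℝ) ≤ |(a : ℝ)| := abs_nonneg _
    rw [hAdef]
    linarith
  have hlw : 0 < Real.log w := Real.log_pos hw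
  have hNpos : (0 : ℝ) < N := by exact_mod_cast hN
  set C1 : ℝ := 2 + 1 / (N * Real.log w) with hC1
  have hC1pos : 0 < C1 := by positivity
  set C2 : ℝ := N * κ.Smax * C1 + 1 with hC2
  have hC2pos : 0 < C2 := by positivity
  have hAW : 0 < A * W ^ N := by positivity
  refine ⟨1 / ((A * W ^ N) ^ σ * (C1 * C2)), A, by positivity, hA, ?_⟩
  intro B hB
  have hB0 : 0 < B := by linarith
  have hB1 : 1 ≤ B := hA.trans hB
  have hlB : 0 ≤ Real.log B := Real.log_nonneg hB1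
  set B' : ℝ := B / A with hB'
  have hB'1 : 1 ≤ B' := by rw [hB', le_div_iff₀ (by linarith)]; linarith
  have hB'B : B' ≤ B := div_le_self hB0.le hA
  have hlB' : 0 ≤ Real.log B' := Real.log_nonneg hB'1
  set M : ℕ := ⌈Real.log B' / (N * Real.log w)⌉₊ with hM
  have hM1 : B' ≤ (w ^ N) ^ M := by
    have h1 : Real.log B' / (N * Real.log w) ≤ M := Nat.le_ceil _
    rw [div_le_iff₀ (by positivity)] at h1
    have h2 : Real.log B' ≤ Real.log ((w ^ N) ^ M) := by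
      rw [Real.log_pow, Real.log_pow]
      exact h1
    exact (Real.log_le_log_iff (by linarith) (by positivity)).1 h2
  have hM2 : (M : ℝ) + 1 ≤ C1 * (1 + Real.log B) := by
    have h1 : (M : ℝ) < Real.log B' / (N * Real.log w) + 1 := Nat.ceil_lt_add_one (by positivity)
    have h2 : Real.log B' ≤ Real.log B := Real.log_le_log (by linarith) hB'B
    have h3 : Real.log B' / (N * Real.log w) ≤ Real.log B / (N * Real.log w) := by gcongr
    have h4 : Real.log B / (N * Real.log w) = 1 / (N * Real.log w) * Real.log B := by ring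
    have h5 : 0 ≤ 1 / (N * Real.log w) := by positivity
    rw [hC1]
    nlinarith
  have hmain := main_lower κ hq hw hlow hup hW hσ N hZ M a ha B' hB'1 hM1
  set F : Finset ℤ := (range (M + 1)).biUnion fun m => (range (N * m * κ.Smax + 1)).biUnion fun s =>
    if (2 : ℝ) ^ s ≤ B' * (q : ℝ) ^ (N * m * R) then En κ (N * m) s a else ∅ with hF
  refine ⟨F, ?_, ?_⟩
  · intro z hz
    rw [hF] at hz
    simp only [mem_biUnion] at hz
    obtain ⟨m, hm, s, hs, hz⟩ := hz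
    split_ifs at hz with hcond
    · rw [mem_En] at hz
      refine ⟨?_, N * m, s, hz⟩
      have h1 := node_size κ hq hω hoff (N * m) s a z ha hz
      have h2 : (2 : ℝ) ^ s / (q : ℝ) ^ (N * m * R) ≤ B' := by
        rw [div_le_iff₀ (by positivity)]
        exact hcond
      have h3 : (2 : ℝ) ^ s / (q : ℝ) ^ (N * m * R) * A ≤ B' * A :=
        mul_le_mul_of_nonneg_right h2 (by linarith)
      have h4 : B' * A = B := by rw [hB']; field_simp
      have h5 : (0 : ℝ) ≤ 2 ^ κ.Smax * (q : ℝ) ^ R := by positivity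
      have h6 : (|z| : ℝ) + 2 ^ κ.Smax * (q : ℝ) ^ R ≤ B := by
        rw [← h4]
        exact h1.trans h3
      linarith
    · simp at hz
  · have hup2 : ∑ m ∈ range (M + 1), EE κ (N * m) a B' ≤ ((M : ℝ) + 1) *
        ((N * M * κ.Smax + 1) * F.card) := by
      have h1 : ∀ m ∈ range (M + 1), EE κ (N * m) a B' ≤
          (N * M * κ.Smax + 1) * F.card := by
        intro m hm
        have hm' : m ≤ M := by rw [mem_range] at hm; omega
        have h2 : ∀ s ∈ range (N * m * κ.Smax + 1),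
            (if (2 : ℝ) ^ s ≤ B' * (q : ℝ) ^ (N * m * R) then ((En κ (N * m) s a).card : ℝ) else 0)
              ≤ (F.card : ℝ) := by
          intro s hs
          split_ifs with hcond
          · have hsub : En κ (N * m) s a ⊆ F := by
              intro z hz
              rw [hF]
              simp only [mem_biUnion]
              refine ⟨m, hm, s, hs, ?_⟩
              rw [if_pos hcond]
              exact hz
            exact_mod_cast Finset.card_le_card hsub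
          · positivity
        calc EE κ (N * m) a B' ≤ ∑ s ∈ range (N * m * κ.Smax + 1), (F.card : ℝ) := by
              rw [EE]
              exact Finset.sum_le_sum h2
          _ = ((N * m * κ.Smax + 1 : ℕ) : ℝ) * F.card := by
              rw [Finset.sum_const, card_range, nsmul_eq_mul]
          _ ≤ (N * M * κ.Smax + 1) * F.card := by
              refine mul_le_mul_of_nonneg_right ?_ (by positivity)
              have h3 : N * m * κ.Smax + 1 ≤ N * M * κ.Smax + 1 := by gcongr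
              exact_mod_cast h3
      calc ∑ m ∈ range (M + 1), EE κ (N * m) a B' ≤
            ∑ m ∈ range (M + 1), ((N * M * κ.Smax + 1) * F.card : ℝ) := Finset.sum_le_sum h1
        _ = ((M : ℝ) + 1) * ((N * M * κ.Smax + 1) * F.card) := by
            rw [Finset.sum_const, card_range, nsmul_eq_mul]
            push_cast
            ring
    have hC : ((N : ℝ) * M * κ.Smax + 1) ≤ C2 * (1 + Real.log B) := by
      have h1 : (M : ℝ) ≤ C1 * (1 + Real.log B) := by linarith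
      have h2 : (N : ℝ) * κ.Smax * M ≤ N * κ.Smax * (C1 * (1 + Real.log B)) :=
        mul_le_mul_of_nonneg_left h1 (by positivity)
      rw [hC2]
      nlinarith
    have h7 : ((M : ℝ) + 1) * ((N * M * κ.Smax + 1) * F.card) ≤
        (C1 * (1 + Real.log B)) * ((C2 * (1 + Real.log B)) * F.card) := by
      gcongr
    have h8 : (B' / W ^ N) ^ σ = B ^ σ / (A * W ^ N) ^ σ := by
      rw [hB', div_div, Real.div_rpow hB0.le hAW.le]
    have h9 : B ^ σ / (A * W ^ N) ^ σ ≤ (C1 * C2) * (F.card * (1 + Real.log B) ^ 2) := by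
      rw [← h8]
      refine (hmain.trans (hup2.trans h7)).trans (le_of_eq (by ring))
    have h10 : 0 < (A * W ^ N) ^ σ := by positivity
    rw [div_le_iff₀ h10] at h9
    rw [one_div, inv_mul_eq_div, div_le_iff₀ (by positivity)]
    linarith

end CountThm

theorem count_of_positive {q R : ℕ} (κ : Ker q R) (hq : q.Prime) (σ : ℝ) (hσ : 0 < σ)
    (hω : ∀ x : ℤ, ¬ (q : ℤ) ∣ x → (q : ℝ) ^ R < 2 ^ (κ.S x))
    (hoff : ∀ x b : ℤ, ¬ (q : ℤ) ∣ x → b ∈ κ.K x →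
      |(q : ℤ) ^ R * b - 2 ^ (κ.S x) * x| ≤ 2 ^ κ.Smax * (q : ℤ) ^ R)
    (hpos : ∀ r ∈ Finset.Ico 1 q,
      0 < ∑ x ∈ (Finset.range (q ^ (R + 1))).filter (fun x => x % q = r),
        (Real.log ((κ.K (x : ℤ)).card) - σ * Real.log (2 ^ (κ.S (x : ℤ)) / (q : ℝ) ^ R)))
    (hpositive : ∀ g : ℤ → ℝ,
      (∀ x y : ℤ, ¬ (q : ℤ) ∣ x → g (x + (q : ℤ) ^ (R + 1) * y) = g x) →
      (∀ r ∈ Finset.Ico 1 q,
        0 < ∑ x ∈ (Finset.range (q ^ (R + 1))).filter (fun x => x % q = r), g (x : ℤ)) →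
      ∃ N : ℕ, 1 ≤ N ∧ ∀ x : ℤ, ¬ (q : ℤ) ∣ x → 0 < ∑ i ∈ Finset.range N, (κ.P)^[i] g x) :
    ∀ a : ℤ, ¬ (q : ℤ) ∣ a → ∃ c B₀ : ℝ, 0 < c ∧ 1 ≤ B₀ ∧ ∀ B : ℝ, B₀ ≤ B → ∃ F : Finset ℤ,
      (∀ z ∈ F, (|z| : ℝ) ≤ B ∧ ∃ j s, Path κ.S κ.K j s a z) ∧
        c * B ^ σ ≤ F.card * (1 + Real.log B) ^ 2 := by
  set g : ℤ → ℝ := fun x => Real.log ((κ.K x).card) - σ * Real.log (2 ^ (κ.S x) / (q : ℝ) ^ R)
    with hgdef
  have hper : ∀ x y : ℤ, ¬ (q : ℤ) ∣ x → g (x + (q : ℤ) ^ (R + 1) * y) = g x := by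
    intro x y hx
    have hcard : (κ.K (x + (q : ℤ) ^ (R + 1) * y)).card = (κ.K x).card := by
      have himg : κ.K (x + (q : ℤ) ^ (R + 1) * y) =
          (κ.K x).image (fun b => b + 2 ^ (κ.S x) * ((q : ℤ) * y)) := by
        ext z
        rw [Finset.mem_image]
        constructor
        · intro hz
          refine ⟨z - 2 ^ (κ.S x) * ((q : ℤ) * y), ?_, by ring⟩
          rw [← κ.hK x y _ hx]
          simpa using hz
        · rintro ⟨b, hb, rfl⟩
          exact (κ.hK x y b hx).2 hb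
      rw [himg, Finset.card_image_of_injective]
      intro b b' h
      simpa using h
    simp only [hgdef]
    rw [hcard, κ.hS x y hx]
  obtain ⟨N, hN, hNpos⟩ := hpositive g hper hpos
  refine CountThm.count_aux κ hq.pos σ hσ hω hoff N hN ?_
  intro x hx
  obtain ⟨h1, h2⟩ := CountThm.log_ZZ κ hq.pos σ g (fun x => rfl) N x hx
  have h3 : 0 < Real.log (CountThm.ZZ κ σ N x) := lt_of_lt_of_le (hNpos x hx) h2
  exact ((Real.log_pos_iff h1.le).1 h3).le

end Pool.Agent.H412R2
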