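import Pool.Agent.H412R2.RigB

/-! Rigidity, part C: transition probabilities of a kernel. -/

set_option autoImplicit false

namespace Pool.Agent.H412R2

open Finset

variable {q R : ℕ}

/-- `pr κ k v j s x` : probability that after `j` steps from `x` one is `≡ v mod q^k` with total size `s` -/
noncomputable def pr (κ : Ker q R) (k : ℕ) (v : ℤ) : ℕ → ℕ → ℤ → ℝ
  | 0, s, x => if (q : ℤ) ^ k ∣ x - v ∧ s = 0 then 1 else 0
  | j + 1, s, x => if κ.S x ≤ s then
      (∑ b ∈ κ.K x, pr κ k v j (s - κ.S x) b) / ((κ.K x).card : ℝ) else 0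

theorem pr_nonneg (κ : Ker q R) (k : ℕ) (v : ℤ) (j s : ℕ) (x : ℤ) : 0 ≤ pr κ k v j s x := by
  induction j generalizing s x with
  | zero => unfold pr; split_ifs <;> norm_num
  | succ j ih =>
    unfold pr
    split_ifs
    · exact div_nonneg (Finset.sum_nonneg fun b _ => ih _ _) (by positivity)
    · exact le_rfl

theorem pr_per (κ : Ker q R) (k : ℕ) (v y : ℤ) (j s : ℕ) (x : ℤ) :
    pr κ k (v + (q : ℤ) ^ k * y) j s x = pr κ k v j s x := by
  induction j generalizing s x with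
  | zero =>
    unfold pr
    have : (q : ℤ) ^ k ∣ x - (v + (q : ℤ) ^ k * y) ↔ (q : ℤ) ^ k ∣ x - v := by
      have h : x - v = (x - (v + (q : ℤ) ^ k * y)) + (q : ℤ) ^ k * y := by ring
      rw [h, dvd_add_left (Dvd.intro _ rfl)]
    simp only [this]
  | succ j ih =>
    unfold pr
    simp only [ih]

theorem ind_cons (hq : 0 < q) (k : ℕ) (w : ℤ) :
    (if (q : ℤ) ^ k ∣ w then (1 : ℝ) else 0) =
      ∑ d ∈ range q, if (q : ℤ) ^ (k + 1) ∣ w - (q : ℤ) ^ k * (d : ℤ) then (1 : ℝ) else 0 := by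
  have hqz : (0 : ℤ) < q := by exact_mod_cast hq
  have hqk : (0 : ℤ) < (q : ℤ) ^ k := pow_pos hqz k
  by_cases h : (q : ℤ) ^ k ∣ w
  · obtain ⟨c, rfl⟩ := h
    have h1 : ∀ d : ℕ, ((q : ℤ) ^ (k + 1) ∣ (q : ℤ) ^ k * c - (q : ℤ) ^ k * (d : ℤ)) ↔
        (q : ℤ) ∣ c - d := by
      intro d
      rw [← mul_sub, pow_succ]
      exact mul_dvd_mul_iff_left hqk.ne'
    simp only [h1, dvd_mul_right, if_true]
    have h2 : ∀ d ∈ range q, ((q : ℤ) ∣ c - d ↔ d = (c % q).toNat) := by
      intro d hd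
      have hd' : (d : ℤ) < q := by exact_mod_cast Finset.mem_range.mp hd
      have hc0 : 0 ≤ c % q := Int.emod_nonneg c hqz.ne'
      have hc1 : c % q < q := Int.emod_lt_of_pos c hqz
      have hd2 : (d : ℤ) % q = d := Int.emod_eq_of_lt (by positivity) hd'
      rw [← Int.modEq_iff_dvd, Int.ModEq, hd2]
      constructor
      · intro h; omega
      · intro h; omega
    have hmem : (c % q).toNat ∈ range q := by
      have hc0 : 0 ≤ c % q := Int.emod_nonneg c hqz.ne'
      have hc1 : c % q < q := Int.emod_lt_of_pos c hqz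
      rw [Finset.mem_range]; omega
    rw [Finset.sum_congr rfl (fun d hd => by rw [if_congr (h2 d hd) rfl rfl]),
      Finset.sum_ite_eq' (range q) _ (fun _ => (1 : ℝ)), if_pos hmem]
  · rw [if_neg h]
    symm
    apply Finset.sum_eq_zero
    intro d _
    rw [if_neg]
    intro h2
    apply h
    have h3 : (q : ℤ) ^ k ∣ w - (q : ℤ) ^ k * (d : ℤ) := (pow_dvd_pow _ (Nat.le_succ k)).trans h2
    have h4 : w = (w - (q : ℤ) ^ k * (d : ℤ)) + (q : ℤ) ^ k * d := by ring
    rw [h4]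
    exact dvd_add h3 (Dvd.intro _ rfl)

theorem pr_cons (κ : Ker q R) (hq : 0 < q) (k : ℕ) (v : ℤ) (j s : ℕ) (x : ℤ) :
    pr κ k v j s x = ∑ d ∈ range q, pr κ (k + 1) (v + (q : ℤ) ^ k * (d : ℤ)) j s x := by
  induction j generalizing s x with
  | zero =>
    unfold pr
    by_cases hs : s = 0
    · simp only [hs, and_true]
      rw [ind_cons hq k (x - v)]
      refine Finset.sum_congr rfl fun d _ => ?_
      rw [sub_sub]
    · simp [hs]
  | succ j ih =>
    unfold pr
    split_ifs with h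
    · rw [← Finset.sum_div, Finset.sum_comm]
      congr 1
      refine Finset.sum_congr rfl fun b _ => ih _ _
    · simp

theorem pr_mass (κ : Ker q R) (hq : 0 < q) (j s : ℕ) (x : ℤ) :
    Mass q (fun k v => pr κ k v j s x) where
  nonneg := fun k v => pr_nonneg κ k v j s x
  per := fun k v y => pr_per κ k v y j s x
  cons := fun k v => pr_cons κ hq k v j s x

theorem pr_supp (κ : Ker q R) (k : ℕ) (v : ℤ) (j s : ℕ) (x : ℤ) (h : j * κ.Smax < s) :
    pr κ k v j s x = 0 := by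
  induction j generalizing s x with
  | zero => unfold pr; rw [if_neg]; rintro ⟨_, rfl⟩; omega
  | succ j ih =>
    unfold pr
    split_ifs with h1
    · rw [Finset.sum_eq_zero, zero_div]
      intro b _
      apply ih
      have := κ.hSmax x
      rw [Nat.succ_mul] at h
      omega
    · rfl

theorem sum_shift (B S : ℕ) (g : ℕ → ℝ) :
    ∑ s ∈ range B, (if S ≤ s then g (s - S) else 0) = ∑ s ∈ range (B - S), g s := by
  rw [← Finset.sum_filter]
  apply Finset.sum_bij' (fun s _ => s - S) (fun s _ => s + S)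
  · intro a ha; simp only [Finset.mem_filter, Finset.mem_range] at *; omega
  · intro a ha; simp only [Finset.mem_filter, Finset.mem_range] at *; omega
  · intro a ha; simp only [Finset.mem_filter, Finset.mem_range] at *; omega
  · intro a ha; simp only [Finset.mem_range] at *; omega
  · intro a ha; rfl

theorem K_nonempty (κ : Ker q R) {x : ℤ} (hx : ¬ (q : ℤ) ∣ x) : (0 : ℝ) < ((κ.K x).card : ℝ) := by
  have := κ.hcard x hx
  exact_mod_cast (by omega : 0 < (κ.K x).card)

/-- expansion of iterates of `P` on a periodic function -/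
theorem P_iter (κ : Ker q R) (hq : 0 < q) {k : ℕ} {F : ℤ → ℝ} (hF : Per q k F) (j B : ℕ) {x : ℤ}
    (hx : ¬ (q : ℤ) ∣ x) (hB : j * κ.Smax < B) :
    (κ.P)^[j] F x = ∑ s ∈ range B, ∑ v ∈ range (q ^ k), F v * pr κ k v j s x := by
  induction j generalizing B x with
  | zero =>
    have hB' : 0 < B := by omega
    unfold pr
    simp only [Function.iterate_zero, id_eq]
    rw [Finset.sum_eq_single_of_mem 0 (Finset.mem_range.2 hB')]
    · have hqk : 0 < q ^ k := pow_pos hq k
      have hqz : (0 : ℤ) < (q : ℤ) ^ k := by exact_mod_cast hqk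
      have h0 : 0 ≤ x % (q : ℤ) ^ k := Int.emod_nonneg x hqz.ne'
      have h1 : x % (q : ℤ) ^ k < (q : ℤ) ^ k := Int.emod_lt_of_pos x hqz
      have hcast : (((x % (q : ℤ) ^ k).toNat : ℕ) : ℤ) = x % (q : ℤ) ^ k := Int.toNat_of_nonneg h0
      rw [Finset.sum_eq_single_of_mem ((x % (q : ℤ) ^ k).toNat)]
      · rw [hcast, if_pos ⟨Int.dvd_self_sub_emod, rfl⟩, mul_one]
        exact hF.congr Int.dvd_self_sub_emod
      · rw [Finset.mem_range]
        have : (((x % (q : ℤ) ^ k).toNat : ℕ) : ℤ) < ((q ^ k : ℕ) : ℤ) := by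
          rw [hcast]; push_cast; exact h1
        exact_mod_cast this
      · intro v hv hne
        rw [if_neg, mul_zero]
        rintro ⟨hd, _⟩
        apply hne
        have hv' : (v : ℤ) < (q : ℤ) ^ k := by exact_mod_cast Finset.mem_range.mp hv
        have h2 : (v : ℤ) ≡ x [ZMOD (q : ℤ) ^ k] := (Int.modEq_iff_dvd).2 hd
        have h3 : (v : ℤ) = x % (q : ℤ) ^ k := by
          have : (v : ℤ) % (q : ℤ) ^ k = x % (q : ℤ) ^ k := h2
          rwa [Int.emod_eq_of_lt (by positivity) hv'] at this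
        omega
    · intro s _ hs
      apply Finset.sum_eq_zero
      intro v _
      rw [if_neg (by rintro ⟨_, h⟩; exact hs h), mul_zero]
  | succ j ih =>
    rw [Function.iterate_succ_apply']
    change (∑ b ∈ κ.K x, (κ.P)^[j] F b) / ((κ.K x).card : ℝ) = _
    have hSx := κ.hSmax x
    rw [Nat.succ_mul] at hB
    have h1 : ∀ b ∈ κ.K x, (κ.P)^[j] F b =
        ∑ s ∈ range (B - κ.S x), ∑ v ∈ range (q ^ k), F v * pr κ k v j s b := by
      intro b hb
      exact ih (B - κ.S x) (κ.hlive x b hx hb) (by omega)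
    rw [Finset.sum_congr rfl h1]
    have h2 : ∑ s ∈ range B, ∑ v ∈ range (q ^ k), F v * pr κ k v (j + 1) s x =
        ∑ s' ∈ range (B - κ.S x), (∑ b ∈ κ.K x, ∑ v ∈ range (q ^ k), F v * pr κ k v j s' b) /
            ((κ.K x).card : ℝ) := by
      rw [← sum_shift B (κ.S x) (fun s' => (∑ b ∈ κ.K x, ∑ v ∈ range (q ^ k),
        F v * pr κ k v j s' b) / ((κ.K x).card : ℝ))]
      refine Finset.sum_congr rfl fun s _ => ?_
      by_cases hs : κ.S x ≤ s
      · simp only [pr, if_pos hs]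
        rw [Finset.sum_comm (s := κ.K x), Finset.sum_div]
        refine Finset.sum_congr rfl fun v _ => ?_
        rw [← Finset.mul_sum, mul_div_assoc]
      · simp [pr, if_neg hs]
    rw [h2, ← Finset.sum_div, Finset.sum_comm]

theorem pr_total (κ : Ker q R) (hq : 0 < q) (j B : ℕ) {x : ℤ}
    (hx : ¬ (q : ℤ) ∣ x) (hB : j * κ.Smax < B) :
    ∑ s ∈ range B, pr κ 0 0 j s x = 1 := by
  have h := P_iter κ hq (k := 0) (F := fun _ => 1) (fun _ _ => rfl) j B hx hB
  simp only [pow_zero, Finset.range_one, Finset.sum_singleton, one_mul] at h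
  have h2 : ∀ (j : ℕ) (x : ℤ), ¬ (q : ℤ) ∣ x → (κ.P)^[j] (fun _ => 1) x = 1 := by
    intro j
    induction j with
    | zero => intro x _; rfl
    | succ j ih =>
      intro x hx
      rw [Function.iterate_succ_apply']
      change (∑ b ∈ κ.K x, (κ.P)^[j] (fun _ => 1) b) / ((κ.K x).card : ℝ) = 1
      rw [Finset.sum_congr rfl (fun b hb => ih b (κ.hlive x b hx hb))]
      simp only [Finset.sum_const, nsmul_eq_mul, mul_one]
      exact div_self (K_nonempty κ hx).ne'
  rw [h2 j x hx] at h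
  simpa using h.symm

theorem pr_total' (κ : Ker q R) (hq : 0 < q) (k j B : ℕ) {x : ℤ}
    (hx : ¬ (q : ℤ) ∣ x) (hB : j * κ.Smax < B) :
    ∑ s ∈ range B, ∑ v ∈ range (q ^ k), pr κ k v j s x = 1 := by
  rw [← pr_total κ hq j B hx hB]
  refine Finset.sum_congr rfl fun s _ => ?_
  exact (pr_mass κ hq j s x).total k

theorem K_shift (κ : Ker q R) {x : ℤ} (hx : ¬ (q : ℤ) ∣ x) (y : ℤ) :
    κ.K (x + (q : ℤ) ^ (R + 1) * y) = (κ.K x).image (fun b => b + 2 ^ (κ.S x) * ((q : ℤ) * y)) := by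
  ext c
  rw [Finset.mem_image]
  constructor
  · intro hc
    refine ⟨c - 2 ^ (κ.S x) * ((q : ℤ) * y), ?_, by ring⟩
    rw [← κ.hK x y _ hx]
    simpa using hc
  · rintro ⟨b, hb, rfl⟩
    exact (κ.hK x y b hx).2 hb

theorem alive_shift {x : ℤ} (hx : ¬ (q : ℤ) ∣ x) {k : ℕ} (hk : 1 ≤ k) (y : ℤ) :
    ¬ (q : ℤ) ∣ x + (q : ℤ) ^ k * y := by
  intro h
  apply hx
  have h2 : (q : ℤ) ∣ (q : ℤ) ^ k * y := (dvd_pow_self _ (by omega)).mul_right y
  exact (dvd_add_left h2).1 h

theorem pr_shift (κ : Ker q R) (k : ℕ) (v : ℤ) (j s m : ℕ) (hm : 1 ≤ m) {x : ℤ}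
    (hx : ¬ (q : ℤ) ∣ x) (y : ℤ) :
    pr κ k v j s (x + (q : ℤ) ^ (j * R + m) * y) =
      pr κ k (v - 2 ^ s * ((q : ℤ) ^ m * y)) j s x := by
  induction j generalizing s x y with
  | zero =>
    unfold pr
    by_cases hs : s = 0
    · subst hs
      simp only [and_true, zero_mul, zero_add, pow_zero, one_mul]
      congr 2
      ring
    · simp [hs]
  | succ j ih =>
    have e1 : (q : ℤ) ^ ((j + 1) * R + m) * y =
        (q : ℤ) ^ (R + 1) * ((q : ℤ) ^ (j * R + (m - 1)) * y) := by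
      rw [← mul_assoc, ← pow_add]
      congr 2
      rw [Nat.succ_mul]
      omega
    have e2 : (q : ℤ) * ((q : ℤ) ^ (j * R + (m - 1)) * y) = (q : ℤ) ^ (j * R + m) * y := by
      rw [← mul_assoc, ← pow_succ']
      congr 2
      omega
    rw [e1]
    unfold pr
    rw [κ.hS x _ hx, K_shift κ hx, e2]
    have hinj : Function.Injective (fun b : ℤ => b + 2 ^ (κ.S x) * ((q : ℤ) ^ (j * R + m) * y)) :=
      fun a b h => by simpa using h
    rw [Finset.card_image_of_injective _ hinj, Finset.sum_image (fun a _ b _ h => hinj h)]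
    split_ifs with h
    · congr 1
      refine Finset.sum_congr rfl fun b hb => ?_
      have := ih (s - κ.S x) (κ.hlive x b hx hb) (2 ^ (κ.S x) * y)
      have e3 : b + 2 ^ (κ.S x) * ((q : ℤ) ^ (j * R + m) * y) =
          b + (q : ℤ) ^ (j * R + m) * (2 ^ (κ.S x) * y) := by ring
      rw [e3, this]
      congr 1
      have e4 : (2 : ℤ) ^ s = 2 ^ (s - κ.S x) * 2 ^ (κ.S x) := by
        rw [← pow_add]; congr 1; omega
      rw [e4]
      ring
    · rfl

theorem sum_ind (hq : 0 < q) (K : ℕ) (x : ℤ) (G : ℕ → ℝ) :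
    ∑ c ∈ range (q ^ K), (if (q : ℤ) ^ K ∣ x - (c : ℤ) then G c else 0) =
      G ((x % (q : ℤ) ^ K).toNat) := by
  have hqk : 0 < q ^ K := pow_pos hq K
  have hqz : (0 : ℤ) < (q : ℤ) ^ K := by exact_mod_cast hqk
  have h0 : 0 ≤ x % (q : ℤ) ^ K := Int.emod_nonneg x hqz.ne'
  have h1 : x % (q : ℤ) ^ K < (q : ℤ) ^ K := Int.emod_lt_of_pos x hqz
  have hcast : (((x % (q : ℤ) ^ K).toNat : ℕ) : ℤ) = x % (q : ℤ) ^ K := Int.toNat_of_nonneg h0
  rw [Finset.sum_eq_single_of_mem ((x % (q : ℤ) ^ K).toNat)]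
  · rw [hcast, if_pos Int.dvd_self_sub_emod]
  · rw [Finset.mem_range]
    have : (((x % (q : ℤ) ^ K).toNat : ℕ) : ℤ) < ((q ^ K : ℕ) : ℤ) := by
      rw [hcast]; push_cast; exact h1
    exact_mod_cast this
  · intro v hv hne
    rw [if_neg]
    intro hd
    apply hne
    have hv' : (v : ℤ) < (q : ℤ) ^ K := by exact_mod_cast Finset.mem_range.mp hv
    have h2 : (v : ℤ) ≡ x [ZMOD (q : ℤ) ^ K] := (Int.modEq_iff_dvd).2 hd
    have h3 : (v : ℤ) = x % (q : ℤ) ^ K := by
      have : (v : ℤ) % (q : ℤ) ^ K = x % (q : ℤ) ^ K := h2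
      rwa [Int.emod_eq_of_lt (by positivity) hv'] at this
    omega

/-- Chapman–Kolmogorov -/
theorem pr_CK (κ : Ker q R) (hq : 0 < q) (k : ℕ) (hk : 1 ≤ k) (v : ℤ) (j i s : ℕ) {x : ℤ}
    (hx : ¬ (q : ℤ) ∣ x) :
    pr κ k v (j + i) s x = ∑ s' ∈ range (s + 1), ∑ c ∈ range (q ^ (k + i * R)),
      pr κ (k + i * R) (c : ℤ) j s' x * pr κ k v i (s - s') (c : ℤ) := by
  induction j generalizing s x with
  | zero =>
    have hqz : (0 : ℤ) < (q : ℤ) ^ (k + i * R) := by
      have : 0 < q ^ (k + i * R) := pow_pos hq _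
      exact_mod_cast this
    rw [Finset.sum_eq_single_of_mem 0 (Finset.mem_range.2 (by omega))]
    · simp only [pr, and_true, Nat.sub_zero, ite_mul, one_mul, zero_mul, zero_add]
      rw [sum_ind hq (k + i * R) x (fun c => pr κ k v i s (c : ℤ))]
      have h0 : 0 ≤ x % (q : ℤ) ^ (k + i * R) := Int.emod_nonneg x hqz.ne'
      rw [Int.toNat_of_nonneg h0]
      set c := x % (q : ℤ) ^ (k + i * R) with hc
      have hx2 : x = c + (q : ℤ) ^ (i * R + k) * (x / (q : ℤ) ^ (k + i * R)) := by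
        rw [add_comm (i * R) k]
        exact (Int.emod_add_mul_ediv x _).symm
      have hca : ¬ (q : ℤ) ∣ c := by
        intro h
        apply hx
        rw [hx2]
        exact dvd_add h ((dvd_pow_self _ (by omega)).mul_right _)
      conv_lhs => rw [hx2]
      rw [pr_shift κ k v i s k hk hca]
      have e : v - 2 ^ s * ((q : ℤ) ^ k * (x / (q : ℤ) ^ (k + i * R))) =
          v + (q : ℤ) ^ k * (-(2 ^ s * (x / (q : ℤ) ^ (k + i * R)))) := by ring
      rw [e, pr_per]
    · intro s' _ hs'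
      apply Finset.sum_eq_zero
      intro c _
      simp [pr, hs']
  | succ j ih =>
    have e : j + 1 + i = (j + i) + 1 := by ring
    rw [e]
    have h1 : pr κ k v (j + i + 1) s x = if κ.S x ≤ s then
      (∑ b ∈ κ.K x, pr κ k v (j + i) (s - κ.S x) b) / ((κ.K x).card : ℝ) else 0 := rfl
    have h2 : ∀ c : ℕ, ∀ s', pr κ (k + i * R) (c : ℤ) (j + 1) s' x = if κ.S x ≤ s' then
      (∑ b ∈ κ.K x, pr κ (k + i * R) (c : ℤ) j (s' - κ.S x) b) / ((κ.K x).card : ℝ) else 0 :=
      fun _ _ => rfl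
    rw [h1]
    by_cases hs : κ.S x ≤ s
    · rw [if_pos hs, Finset.sum_congr rfl (fun b hb => ih (s - κ.S x) (κ.hlive x b hx hb))]
      have h3 : ∑ s' ∈ range (s + 1), ∑ c ∈ range (q ^ (k + i * R)),
          pr κ (k + i * R) (c : ℤ) (j + 1) s' x * pr κ k v i (s - s') (c : ℤ) =
          ∑ s'' ∈ range (s + 1 - κ.S x), ∑ c ∈ range (q ^ (k + i * R)),
            ((∑ b ∈ κ.K x, pr κ (k + i * R) (c : ℤ) j s'' b) / ((κ.K x).card : ℝ)) *
              pr κ k v i (s - κ.S x - s'') (c : ℤ) := by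
        rw [← sum_shift (s + 1) (κ.S x) (fun s'' => ∑ c ∈ range (q ^ (k + i * R)),
            ((∑ b ∈ κ.K x, pr κ (k + i * R) (c : ℤ) j s'' b) / ((κ.K x).card : ℝ)) *
              pr κ k v i (s - κ.S x - s'') (c : ℤ))]
        refine Finset.sum_congr rfl fun s' _ => ?_
        by_cases h : κ.S x ≤ s'
        · simp only [h2, if_pos h]
          refine Finset.sum_congr rfl fun c _ => ?_
          congr 2
          omega
        · simp [h2, if_neg h]
      rw [h3]
      have e2 : s + 1 - κ.S x = s - κ.S x + 1 := by omega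
      rw [e2, Finset.sum_comm, Finset.sum_div]
      refine Finset.sum_congr rfl fun s' _ => ?_
      rw [Finset.sum_comm, Finset.sum_div]
      refine Finset.sum_congr rfl fun c _ => ?_
      rw [← Finset.sum_mul]
      ring
    · rw [if_neg hs]
      symm
      apply Finset.sum_eq_zero
      intro s' hs'
      apply Finset.sum_eq_zero
      intro c _
      rw [h2, if_neg (by rw [Finset.mem_range] at hs'; omega), zero_mul]

theorem pr_path (κ : Ker q R) (k : ℕ) (v : ℤ) (j s : ℕ) {x : ℤ}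
    (h : pr κ k v j s x ≠ 0) : ∃ z, Path κ.S κ.K j s x z ∧ (q : ℤ) ^ k ∣ z - v := by
  induction j generalizing s x with
  | zero =>
    unfold pr at h
    have h2 : (q : ℤ) ^ k ∣ x - v ∧ s = 0 := by
      by_contra hc
      exact h (if_neg hc)
    obtain ⟨h3, rfl⟩ := h2
    exact ⟨x, Path.refl x, h3⟩
  | succ j ih =>
    unfold pr at h
    by_cases hs : κ.S x ≤ s
    · rw [if_pos hs] at h
      have h2 : ∑ b ∈ κ.K x, pr κ k v j (s - κ.S x) b ≠ 0 := by
        intro h0; rw [h0, zero_div] at h; exact h rfl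
      obtain ⟨b, hb, hb2⟩ := Finset.exists_ne_zero_of_sum_ne_zero h2
      obtain ⟨z, hz, hzv⟩ := ih (s - κ.S x) hb2
      refine ⟨z, ?_, hzv⟩
      have := Path.step hb hz
      rwa [Nat.sub_add_cancel hs] at this
    · rw [if_neg hs] at h
      exact absurd rfl h

theorem pr_sep (κ : Ker q R) (k : ℕ) (v : ℤ) (j s : ℕ) {x : ℤ}
    (hx : ¬ (q : ℤ) ∣ x) (hk : κ.D * j ≤ k) : pr κ k v j s x ≤ (1 / 2) ^ j := by
  induction j generalizing s x with
  | zero => unfold pr; split_ifs <;> norm_num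
  | succ j ih =>
    have hk' : κ.D * j ≤ k := le_trans (Nat.mul_le_mul_left _ (Nat.le_succ j)) hk
    change (if κ.S x ≤ s then (∑ b ∈ κ.K x, pr κ k v j (s - κ.S x) b) / ((κ.K x).card : ℝ)
      else 0) ≤ _
    by_cases hs : κ.S x ≤ s
    · rw [if_pos hs]
      have hsum : ∑ b ∈ κ.K x, pr κ k v j (s - κ.S x) b ≤ (1 / 2) ^ j := by
        by_cases hall : ∀ b ∈ κ.K x, pr κ k v j (s - κ.S x) b = 0
        · rw [Finset.sum_eq_zero hall]; positivity
        · push Not at hall
          obtain ⟨b₀, hb₀, hne⟩ := hall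
          rw [Finset.sum_eq_single_of_mem b₀ hb₀]
          · exact ih _ (κ.hlive x b₀ hx hb₀) hk'
          · intro b hb hbne
            by_contra hc
            apply hbne
            obtain ⟨z, hz, hzv⟩ := pr_path κ k v j _ hc
            obtain ⟨z', hz', hzv'⟩ := pr_path κ k v j _ hne
            refine κ.hsep j _ x b b₀ z z' hx hb hb₀ hz hz' ?_
            have h1 : (q : ℤ) ^ k ∣ z' - z := by
              have := dvd_sub hzv' hzv
              simpa using this
            exact (Int.modEq_iff_dvd).2 ((pow_dvd_pow _ hk).trans h1)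
      have hcard : (2 : ℝ) ≤ ((κ.K x).card : ℝ) := by exact_mod_cast κ.hcard x hx
      calc (∑ b ∈ κ.K x, pr κ k v j (s - κ.S x) b) / ((κ.K x).card : ℝ)
          ≤ (1 / 2) ^ j / ((κ.K x).card : ℝ) := by
            apply div_le_div_of_nonneg_right hsum; positivity
        _ ≤ (1 / 2) ^ j / 2 := by
            apply div_le_div_of_nonneg_left (by positivity) (by norm_num) hcard
        _ = (1 / 2) ^ (j + 1) := by rw [pow_succ]; ring
    · rw [if_neg hs]; positivity

/-- expected collision probability of the window `[m,n)` of `X_j` given `X_j mod q^m`, the total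
size, and `X_0 = x` -/
noncomputable def W (κ : Ker q R) (j m n : ℕ) (x : ℤ) : ℝ :=
  ∑ s ∈ range (j * κ.Smax + 1), ∑ z ∈ range (q ^ n), pr κ n z j s x ^ 2 / pr κ m z j s x

theorem W_eq (κ : Ker q R) (j m n B : ℕ) (x : ℤ) (hB : j * κ.Smax < B) :
    W κ j m n x = ∑ s ∈ range B, ∑ z ∈ range (q ^ n), pr κ n z j s x ^ 2 / pr κ m z j s x := by
  unfold W
  apply Finset.sum_subset
  · intro s hs
    rw [Finset.mem_range] at *
    omega
  · intro s _ hs
    apply Finset.sum_eq_zero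
    intro z _
    rw [pr_supp κ n z j s x (by rw [Finset.mem_range] at hs; omega)]
    simp

theorem W_nonneg (κ : Ker q R) (j m n : ℕ) (x : ℤ) : 0 ≤ W κ j m n x :=
  Finset.sum_nonneg fun _ _ => Finset.sum_nonneg fun _ _ =>
    div_nonneg (sq_nonneg _) (pr_nonneg κ _ _ _ _ _)

theorem W_le_one (κ : Ker q R) (hq : 0 < q) (j : ℕ) {m n : ℕ} (hmn : m ≤ n) {x : ℤ}
    (hx : ¬ (q : ℤ) ∣ x) : W κ j m n x ≤ 1 := by
  rw [← pr_total' κ hq n j (j * κ.Smax + 1) hx (by omega)]
  unfold W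
  refine Finset.sum_le_sum fun s _ => Finset.sum_le_sum fun z _ => ?_
  have h1 := (pr_mass κ hq j s x).mono hq hmn z
  have h0 := pr_nonneg κ n z j s x
  by_cases h : pr κ m z j s x = 0
  · rw [h, div_zero]; exact h0
  · have hpos : 0 < pr κ m z j s x := lt_of_le_of_ne (pr_nonneg κ m z j s x) (Ne.symm h)
    rw [div_le_iff₀ hpos, sq]
    exact mul_le_mul_of_nonneg_left h1 h0

/-- longer windows have smaller collision probability: `W(m,n) ≤ W(i,i+1)` for `m ≤ i < n` -/
theorem W_window (κ : Ker q R) (hq : 0 < q) (j : ℕ) {m n i : ℕ} (hmi : m ≤ i) (hin : i < n)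
    {x : ℤ} : W κ j m n x ≤ W κ j i (i + 1) x := by
  unfold W
  refine Finset.sum_le_sum fun s _ => ?_
  have hM := pr_mass κ hq j s x
  obtain ⟨L, rfl⟩ := Nat.exists_eq_add_of_le (Nat.succ_le_of_lt hin)
  rw [Nat.succ_eq_add_one]
  have h1 : ∑ z ∈ range (q ^ (i + 1 + L)), pr κ (i + 1 + L) z j s x ^ 2 / pr κ m z j s x ≤
      ∑ z ∈ range (q ^ (i + 1 + L)), pr κ (i + 1 + L) z j s x ^ 2 / pr κ i z j s x := by
    refine Finset.sum_le_sum fun z _ => ?_
    have hle : pr κ i z j s x ≤ pr κ m z j s x := hM.mono hq hmi z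
    by_cases h : pr κ i z j s x = 0
    · have h2 : pr κ (i + 1 + L) z j s x ≤ pr κ i z j s x := hM.mono hq (by omega) z
      have h3 : pr κ (i + 1 + L) z j s x = 0 :=
        le_antisymm (h ▸ h2) (pr_nonneg κ _ _ _ _ _)
      rw [h3]; simp
    · have hpos : 0 < pr κ i z j s x := lt_of_le_of_ne (pr_nonneg κ i z j s x) (Ne.symm h)
      exact div_le_div_of_nonneg_left (sq_nonneg _) hpos hle
  refine h1.trans ?_
  have h2 := sum_window_range (q := q) (m := i + 1) (L := L)
    (F := fun z => pr κ (i + 1 + L) z j s x ^ 2 / pr κ i z j s x)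
  rw [h2]
  refine Finset.sum_le_sum fun z _ => ?_
  have hden : ∀ y : ℕ, pr κ i ((z : ℤ) + (q : ℤ) ^ (i + 1) * (y : ℤ)) j s x =
      pr κ i (z : ℤ) j s x := fun y => (hM.per i).mono (Nat.le_succ i) _ _
  simp only [hden]
  rw [← Finset.sum_div]
  apply div_le_div_of_nonneg_right _ (pr_nonneg κ _ _ _ _ _)
  have hcons := hM.cons_add (i + 1) L (z : ℤ)
  rw [hcons]
  exact Finset.sum_sq_le_sq_sum_of_nonneg (fun y _ => pr_nonneg κ _ _ _ _ _)

end Pool.Agent.H412R2
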