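import Pool.Agent.H412R2.RigStat

/-! Rigidity, part F: the fluctuation functional of a stationary family. -/

set_option autoImplicit false

namespace Pool.Agent.H412R2

open Finset

variable {q R : ℕ}

/-- fluctuation at level `n` -/
noncomputable def fl (π : ℕ → ℤ → ℝ) (q n : ℕ) (z : ℤ) : ℝ := π n z - π (n - 1) z / q

/-- the functional -/
noncomputable def Dn (q : ℕ) (π : ℕ → ℤ → ℝ) (m n : ℕ) : ℝ :=
  ∑ z ∈ range (q ^ n), fl π q n (z : ℤ) ^ 2 / π m (z : ℤ)

theorem fl_per {π : ℕ → ℤ → ℝ} (hM : Mass q π) (n : ℕ) : Per q n (fl π q n) := by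
  intro x y
  unfold fl
  rw [hM.per n x y, (hM.per (n - 1)).mono (Nat.sub_le n 1) x y]

theorem fl_sharp {π : ℕ → ℤ → ℝ} (hM : Mass q π) (hq : 0 < q) {n : ℕ} (hn : 1 ≤ n) (z : ℤ) :
    ∑ d ∈ range q, fl π q n (z + (q : ℤ) ^ (n - 1) * (d : ℤ)) = 0 := by
  unfold fl
  rw [Finset.sum_sub_distrib]
  have h1 := hM.cons (n - 1) z
  rw [Nat.sub_add_cancel hn] at h1
  rw [← h1]
  have h2 : ∀ d ∈ range q, π (n - 1) (z + (q : ℤ) ^ (n - 1) * (d : ℤ)) / q = π (n - 1) z / q := by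
    intro d _
    rw [hM.per (n - 1) z d]
  rw [Finset.sum_congr rfl h2, Finset.sum_const, Finset.card_range, nsmul_eq_mul]
  have : (q : ℝ) ≠ 0 := by exact_mod_cast hq.ne'
  field_simp
  ring

theorem fl_abs_le {π : ℕ → ℤ → ℝ} (hM : Mass q π) (hq : 0 < q) {n : ℕ} (hn : 1 ≤ n) (z : ℤ) :
    |fl π q n z| ≤ π (n - 1) z := by
  unfold fl
  have h1 := hM.le_succ hq (n - 1) z
  rw [Nat.sub_add_cancel hn] at h1
  have h2 := hM.nonneg n z
  have h3 := hM.nonneg (n - 1) z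
  have h4 : π (n - 1) z / q ≤ π (n - 1) z := by
    apply div_le_self h3
    exact_mod_cast hq
  have h5 : 0 ≤ π (n - 1) z / q := by positivity
  rw [abs_le]
  constructor <;> linarith

theorem pr_sum_digit (κ : Ker q R) (hq : q.Prime) (hq2 : q ≠ 2) (m : ℕ) (hm : 1 ≤ m) (z : ℤ)
    (j s : ℕ) {c : ℤ} (hc : ¬ (q : ℤ) ∣ c) :
    ∑ d ∈ range q, pr κ (m + 1) z j s (c + (q : ℤ) ^ (j * R + m) * (d : ℤ)) = pr κ m z j s c := by
  have h1 : ∀ d ∈ range q, pr κ (m + 1) z j s (c + (q : ℤ) ^ (j * R + m) * (d : ℤ)) =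
      pr κ (m + 1) (z + (q : ℤ) ^ m * (-(2 ^ s) * (d : ℤ) + 0)) j s c := by
    intro d _
    rw [pr_shift κ (m + 1) z j s m hm hc]
    congr 1
    ring
  rw [Finset.sum_congr rfl h1]
  have h2 := sum_range_affine (n := q) hq.pos
    (fun y : ℤ => pr κ (m + 1) (z + (q : ℤ) ^ m * y) j s c) (by
      intro x y
      have e : z + (q : ℤ) ^ m * (x + (q : ℤ) * y) =
          (z + (q : ℤ) ^ m * x) + (q : ℤ) ^ (m + 1) * y := by ring
      rw [e, pr_per]) (-(2 ^ s)) 0 (by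
      apply IsCoprime.neg_left
      apply IsCoprime.pow_left
      have : Nat.Coprime 2 q := (Nat.coprime_primes Nat.prime_two hq).2 (Ne.symm hq2)
      exact_mod_cast Nat.isCoprime_iff_coprime.2 this)
  rw [h2, ← pr_cons κ hq.pos m z j s c]

theorem fl_stat {κ : Ker q R} {π : ℕ → ℤ → ℝ} (hπ : Stat κ π) (hq : q.Prime) (hq2 : q ≠ 2)
    (j n : ℕ) (hn : 2 ≤ n) (z : ℤ) :
    fl π q n z = ∑ c ∈ range (q ^ (n + j * R)), fl π q (n + j * R) (c : ℤ) *
      ∑ s ∈ range (j * κ.Smax + 1), pr κ n z j s (c : ℤ) := by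
  obtain ⟨m, rfl⟩ := Nat.exists_eq_add_of_le' (show 1 ≤ n by omega)
  have hm : 1 ≤ m := by omega
  unfold fl
  have e0 : m + 1 + j * R - 1 = m + j * R := by omega
  rw [Nat.add_sub_cancel, e0]
  simp only [sub_mul]
  rw [Finset.sum_sub_distrib, ← hπ.stat j (m + 1) z (by omega)]
  congr 1
  rw [hπ.stat j m z hm]
  have e1 : m + 1 + j * R = (m + j * R) + 1 := by ring
  rw [e1, sum_window_range (q := q) (m := m + j * R) (L := 1)
    (F := fun c => π (m + j * R) c / q * ∑ s ∈ range (j * κ.Smax + 1), pr κ (m + 1) z j s c),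
    Finset.sum_div]
  refine Finset.sum_congr rfl fun c _ => ?_
  by_cases hc : (q : ℤ) ∣ (c : ℤ)
  · have h0 : ∀ y : ℤ, π (m + j * R) ((c : ℤ) + (q : ℤ) ^ (m + j * R) * y) = 0 := by
      intro y
      rw [hπ.mass.per (m + j * R) c y]
      exact hπ.dead _ _ (by omega) hc
    have h00 := h0 0
    simp only [mul_zero, add_zero] at h00
    simp [h0, h00]
  · rw [pow_one]
    have h1 : ∀ d ∈ range q, π (m + j * R) ((c : ℤ) + (q : ℤ) ^ (m + j * R) * (d : ℤ)) / q *
        ∑ s ∈ range (j * κ.Smax + 1),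
          pr κ (m + 1) z j s ((c : ℤ) + (q : ℤ) ^ (m + j * R) * (d : ℤ)) =
        π (m + j * R) (c : ℤ) / q * ∑ s ∈ range (j * κ.Smax + 1),
          pr κ (m + 1) z j s ((c : ℤ) + (q : ℤ) ^ (m + j * R) * (d : ℤ)) := by
      intro d _
      rw [hπ.mass.per (m + j * R) c d]
    rw [Finset.sum_congr rfl h1, ← Finset.mul_sum, Finset.sum_comm]
    have h2 : ∀ s ∈ range (j * κ.Smax + 1), ∑ d ∈ range q,
        pr κ (m + 1) z j s ((c : ℤ) + (q : ℤ) ^ (m + j * R) * (d : ℤ)) = pr κ m z j s c := by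
      intro s _
      rw [show m + j * R = j * R + m by ring]
      exact pr_sum_digit κ hq hq2 m hm z j s hc
    rw [Finset.sum_congr rfl h2]
    ring

theorem Dn_gain {κ : Ker q R} {π : ℕ → ℤ → ℝ} (hπ : Stat κ π) (hq : q.Prime) (hq2 : q ≠ 2)
    (j m L : ℕ) (hm : 1 ≤ m) (hL : 1 ≤ L) :
    Dn q π m (m + L) ≤ Dn q π (j * R + m) (j * R + m + L) -
      1 / (2 * (q : ℝ) ^ (2 * L)) * ∑ c ∈ range (q ^ (j * R + m)),
        ((∑ y ∈ range (q ^ L), fl π q (j * R + m + L)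
          ((c : ℤ) + (q : ℤ) ^ (j * R + m) * (y : ℤ)) ^ 2) / π (j * R + m) (c : ℤ)) *
        (1 - W κ j m (m + L) (c : ℤ)) := by
  have hq0 := hq.pos
  have hM := hπ.mass
  have : NeZero (q ^ L) := ⟨(pow_pos hq0 L).ne'⟩
  have hqr : (0 : ℝ) < (q : ℝ) := by exact_mod_cast hq0
  set K := j * R + m with hK
  have hFM : ∀ (c y : ℤ), π K c = 0 → fl π q (K + L) (c + (q : ℤ) ^ K * y) = 0 := by
    intro c y h0
    have h1 := fl_abs_le hM hq0 (show 1 ≤ K + L by omega) (c + (q : ℤ) ^ K * y)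
    have h2 := hM.mono hq0 (show K ≤ K + L - 1 by omega) (c + (q : ℤ) ^ K * y)
    rw [hM.per K c y, h0] at h2
    have h3 : |fl π q (K + L) (c + (q : ℤ) ^ K * y)| ≤ 0 := h1.trans h2
    exact abs_eq_zero.1 (le_antisymm h3 (abs_nonneg _))
  have h := GM κ hq hq2 m L j 1 hm (fun _ c => fl π q (K + L) c) (fun _ c => π K c)
    (fun _ _ => hM.nonneg _ _) (fun _ c y h0 => hFM c y h0)
    (fun _ c hc => hπ.dead _ _ (by omega) hc) (1 / (2 * (q : ℝ) ^ (2 * L)))
    (by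
      intro s c w hw
      have hsh : ∀ v : ZMod (q ^ L), ∑ d ∈ range q, wnd q K L (fl π q (K + L)) c
          (v + (q : ZMod (q ^ L)) ^ (L - 1) * (d : ZMod (q ^ L))) = 0 := by
        intro v
        have h1 := fl_sharp hM hq0 (show 1 ≤ K + L by omega) (c + (q : ℤ) ^ K * (v.val : ℤ))
        rw [← h1]
        refine Finset.sum_congr rfl fun d _ => ?_
        have e1 : v + (q : ZMod (q ^ L)) ^ (L - 1) * (d : ZMod (q ^ L)) =
            (((v.val : ℤ) + (q : ℤ) ^ (L - 1) * (d : ℤ) : ℤ) : ZMod (q ^ L)) := by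
          push_cast; simp
        rw [e1, wnd_intCast hq0 (fl_per hM (K + L))]
        congr 1
        have e2 : K + L - 1 = K + (L - 1) := by omega
        rw [e2, pow_add]
        ring
      have h2 := sharp_bound hq hL (wnd q K L (fl π q (K + L)) c) hsh w hw
      have h3 : 2 * (1 / (2 * (q : ℝ) ^ (2 * L))) = 1 / (q : ℝ) ^ (2 * L) := by
        field_simp
      rw [h3, one_div, inv_mul_le_iff₀ (by positivity)]
      exact h2)
  -- left side
  have hleft : Dn q π m (m + L) ≤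
      ∑ s ∈ range (1 + j * κ.Smax), ∑ z ∈ range (q ^ (m + L)),
      (∑ s' ∈ range 1, ∑ c ∈ range (q ^ (K + L)),
        fl π q (K + L) (c : ℤ) * prz κ (m + L) (z : ℤ) j s s' (c : ℤ)) ^ 2 /
      (∑ s' ∈ range 1, ∑ c ∈ range (q ^ K), π K (c : ℤ) * prz κ m (z : ℤ) j s s' (c : ℤ)) := by
    unfold Dn
    rw [Finset.sum_comm]
    refine Finset.sum_le_sum fun z _ => ?_
    simp only [Finset.range_one, Finset.sum_singleton]
    have hprz : ∀ (k : ℕ) (s : ℕ) (c : ℤ), prz κ k (z : ℤ) j s 0 c = pr κ k (z : ℤ) j s c := by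
      intro k s c; simp [prz]
    simp only [hprz]
    have e1 : fl π q (m + L) (z : ℤ) = ∑ s ∈ range (1 + j * κ.Smax),
        ∑ c ∈ range (q ^ (K + L)), fl π q (K + L) (c : ℤ) * pr κ (m + L) (z : ℤ) j s (c : ℤ) := by
      rw [fl_stat hπ hq hq2 j (m + L) (by omega) z, show m + L + j * R = K + L by rw [hK]; ring,
        Finset.sum_comm, show j * κ.Smax + 1 = 1 + j * κ.Smax by ring]
      refine Finset.sum_congr rfl fun c _ => ?_
      rw [Finset.mul_sum]
    have e2 : π m (z : ℤ) = ∑ s ∈ range (1 + j * κ.Smax),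
        ∑ c ∈ range (q ^ K), π K (c : ℤ) * pr κ m (z : ℤ) j s (c : ℤ) := by
      rw [hπ.stat j m z hm, show m + j * R = K by rw [hK]; ring,
        Finset.sum_comm, show j * κ.Smax + 1 = 1 + j * κ.Smax by ring]
      refine Finset.sum_congr rfl fun c _ => ?_
      rw [Finset.mul_sum]
    rw [e1, e2]
    apply titu
    · intro s _
      exact Finset.sum_nonneg fun c _ => mul_nonneg (hM.nonneg _ _) (pr_nonneg _ _ _ _ _ _)
    · intro s _ h0
      have h1 := (Finset.sum_eq_zero_iff_of_nonneg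
        (fun c _ => mul_nonneg (hM.nonneg _ _) (pr_nonneg _ _ _ _ _ _))).1 h0
      rw [sum_window_range (q := q) (m := K) (L := L) (F := fun c =>
        fl π q (K + L) c * pr κ (m + L) (z : ℤ) j s c)]
      apply Finset.sum_eq_zero
      intro c hc
      apply Finset.sum_eq_zero
      intro y _
      rcases mul_eq_zero.1 (h1 c hc) with h2 | h2
      · rw [hFM c y h2, zero_mul]
      · by_cases hcd : (q : ℤ) ∣ (c : ℤ)
        · rw [hFM c y (hπ.dead _ _ (by omega) hcd), zero_mul]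
        · have h3 := (pr_mass κ hq0 j s ((c : ℤ) + (q : ℤ) ^ K * (y : ℤ))).mono hq0
            (show m ≤ m + L by omega) (z : ℤ)
          have h4 : pr κ m (z : ℤ) j s ((c : ℤ) + (q : ℤ) ^ K * (y : ℤ)) =
              pr κ m (z : ℤ) j s (c : ℤ) := by
            rw [hK, pr_shift κ m (z : ℤ) j s m hm hcd]
            have e : (z : ℤ) - 2 ^ s * ((q : ℤ) ^ m * (y : ℤ)) =
              (z : ℤ) + (q : ℤ) ^ m * (-(2 ^ s * (y : ℤ))) := by ring
            rw [e, pr_per]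
          have h5 : pr κ (m + L) (z : ℤ) j s ((c : ℤ) + (q : ℤ) ^ K * (y : ℤ)) ≤ 0 :=
            h3.trans (le_of_eq (h4.trans h2))
          rw [le_antisymm h5 (pr_nonneg _ _ _ _ _ _), mul_zero]
  refine hleft.trans (h.trans (le_of_eq ?_))
  simp only [Finset.range_one, Finset.sum_singleton]
  have hD : Dn q π K (K + L) = ∑ c ∈ range (q ^ K), (∑ y ∈ range (q ^ L), fl π q (K + L)
          ((c : ℤ) + (q : ℤ) ^ K * (y : ℤ)) ^ 2) / π K (c : ℤ) := by
    unfold Dn
    rw [sum_window_range (q := q) (m := K) (L := L) (F := fun z => fl π q (K + L) z ^ 2 / π K z)]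
    refine Finset.sum_congr rfl fun c _ => ?_
    rw [Finset.sum_div]
    refine Finset.sum_congr rfl fun y _ => ?_
    rw [hM.per K c y]
  rw [hD, Finset.mul_sum, ← Finset.sum_sub_distrib]
  refine Finset.sum_congr rfl fun c _ => ?_
  ring

end Pool.Agent.H412R2
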