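import Pool.Agent.H412R2.RigF

/-! Rigidity, part G: averages against a stationary family. -/

set_option autoImplicit false

namespace Pool.Agent.H412R2

open Finset

variable {q R : ℕ}

/-- nondegeneracy of digit `i` of `X_j` given the lower digits, the size and `X_0 = x` -/
noncomputable def nd (κ : Ker q R) (j i : ℕ) (x : ℤ) : ℝ := 1 - W κ j i (i + 1) x

theorem nd_nonneg (κ : Ker q R) (hq : 0 < q) (j i : ℕ) {x : ℤ} (hx : ¬ (q : ℤ) ∣ x) :
    0 ≤ nd κ j i x := by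
  have := W_le_one κ hq j (Nat.le_succ i) hx
  unfold nd; linarith

theorem nd_le_one (κ : Ker q R) (j i : ℕ) (x : ℤ) : nd κ j i x ≤ 1 := by
  have := W_nonneg κ j i (i + 1) x
  unfold nd; linarith

/-- `W` is periodic on alive points -/
theorem W_per (κ : Ker q R) (hq : 0 < q) (j m n : ℕ) (hm : 1 ≤ m) (hmn : m ≤ n) {x : ℤ}
    (hx : ¬ (q : ℤ) ∣ x) (y : ℤ) :
    W κ j m n (x + (q : ℤ) ^ (j * R + m) * y) = W κ j m n x := by
  unfold W
  refine Finset.sum_congr rfl fun s _ => ?_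
  have hMx := pr_mass κ hq j s x
  have h1 : ∀ z : ℤ, pr κ n z j s (x + (q : ℤ) ^ (j * R + m) * y) ^ 2 /
      pr κ m z j s (x + (q : ℤ) ^ (j * R + m) * y) =
      (fun z => pr κ n z j s x ^ 2 / pr κ m z j s x) (1 * z + (-(2 ^ s * ((q : ℤ) ^ m * y)))) := by
    intro z
    rw [pr_shift κ n z j s m hm hx, pr_shift κ m z j s m hm hx]
    beta_reduce
    rw [one_mul, sub_eq_add_neg]
  simp only [h1]
  have hper : ∀ x' y' : ℤ, (fun z => pr κ n z j s x ^ 2 / pr κ m z j s x) (x' + (q ^ n : ℕ) * y') =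
      (fun z => pr κ n z j s x ^ 2 / pr κ m z j s x) x' := by
    intro x' y'
    beta_reduce
    push_cast
    have a1 : pr κ n (x' + (q : ℤ) ^ n * y') j s x = pr κ n x' j s x := hMx.per n x' y'
    have a2 : pr κ m (x' + (q : ℤ) ^ n * y') j s x = pr κ m x' j s x :=
      (hMx.per m).mono hmn x' y'
    rw [a1, a2]
  exact sum_range_affine (n := q ^ n) (pow_pos hq n)
    (fun z => pr κ n z j s x ^ 2 / pr κ m z j s x) hper 1 _ isCoprime_one_left

/-- average at level `K` -/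
noncomputable def Ev (q : ℕ) (π : ℕ → ℤ → ℝ) (K : ℕ) (f : ℤ → ℝ) : ℝ :=
  ∑ c ∈ range (q ^ K), π K (c : ℤ) * f (c : ℤ)

/-- periodic of level `k` on alive points -/
def PerA (q k : ℕ) (f : ℤ → ℝ) : Prop :=
  ∀ x y : ℤ, ¬ (q : ℤ) ∣ x → f (x + (q : ℤ) ^ k * y) = f x

theorem PerA.mono {k l : ℕ} {f : ℤ → ℝ} (h : PerA q k f) (hkl : k ≤ l) : PerA q l f := by
  intro x y hx
  obtain ⟨d, rfl⟩ := Nat.exists_eq_add_of_le hkl
  rw [pow_add, mul_assoc]
  exact h x _ hx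

theorem Ev_add {κ : Ker q R} {π : ℕ → ℤ → ℝ} (hπ : Stat κ π) {k : ℕ} (hk : 1 ≤ k) (d : ℕ)
    {f : ℤ → ℝ} (hf : PerA q k f) : Ev q π (k + d) f = Ev q π k f := by
  unfold Ev
  rw [sum_window_range (q := q) (m := k) (L := d) (F := fun c => π (k + d) c * f c)]
  refine Finset.sum_congr rfl fun c _ => ?_
  by_cases hc : (q : ℤ) ∣ (c : ℤ)
  · rw [hπ.dead k c hk hc, zero_mul]
    apply Finset.sum_eq_zero
    intro y _
    have h2 : (q : ℤ) ∣ (c : ℤ) + (q : ℤ) ^ k * (y : ℤ) :=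
      dvd_add hc ((dvd_pow_self _ (by omega)).mul_right _)
    rw [hπ.dead (k + d) _ (by omega) h2, zero_mul]
  · have h1 : ∀ y ∈ range (q ^ d), π (k + d) ((c : ℤ) + (q : ℤ) ^ k * (y : ℤ)) *
        f ((c : ℤ) + (q : ℤ) ^ k * (y : ℤ)) =
        π (k + d) ((c : ℤ) + (q : ℤ) ^ k * (y : ℤ)) * f (c : ℤ) := by
      intro y _
      rw [hf (c : ℤ) (y : ℤ) hc]
    rw [Finset.sum_congr rfl h1, ← Finset.sum_mul, ← hπ.mass.cons_add k d (c : ℤ)]

theorem Ev_level {κ : Ker q R} {π : ℕ → ℤ → ℝ} (hπ : Stat κ π) {k l : ℕ} (hk : 1 ≤ k)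
    (hkl : k ≤ l) {f : ℤ → ℝ} (hf : PerA q k f) : Ev q π l f = Ev q π k f := by
  obtain ⟨d, rfl⟩ := Nat.exists_eq_add_of_le hkl
  exact Ev_add hπ hk d hf

theorem Ev_mono {κ : Ker q R} {π : ℕ → ℤ → ℝ} (hπ : Stat κ π) {k : ℕ} (hk : 1 ≤ k)
    {f g : ℤ → ℝ} (hfg : ∀ x : ℤ, ¬ (q : ℤ) ∣ x → f x ≤ g x) : Ev q π k f ≤ Ev q π k g := by
  unfold Ev
  refine Finset.sum_le_sum fun c _ => ?_
  by_cases hc : (q : ℤ) ∣ (c : ℤ)
  · rw [hπ.dead k c hk hc, zero_mul, zero_mul]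
  · exact mul_le_mul_of_nonneg_left (hfg _ hc) (hπ.mass.nonneg _ _)

theorem P_mono (κ : Ker q R) {f g : ℤ → ℝ} (hfg : ∀ x : ℤ, ¬ (q : ℤ) ∣ x → f x ≤ g x) {x : ℤ}
    (hx : ¬ (q : ℤ) ∣ x) : κ.P f x ≤ κ.P g x := by
  unfold Ker.P
  apply div_le_div_of_nonneg_right _ (K_nonempty κ hx).le
  exact Finset.sum_le_sum fun b hb => hfg b (κ.hlive x b hx hb)

theorem P_const (κ : Ker q R) (a : ℝ) {x : ℤ} (hx : ¬ (q : ℤ) ∣ x) : κ.P (fun _ => a) x = a := by
  unfold Ker.P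
  rw [Finset.sum_const, nsmul_eq_mul]
  have := (K_nonempty κ hx).ne'
  field_simp

theorem Ev_P {κ : Ker q R} {π : ℕ → ℤ → ℝ} (hπ : Stat κ π) (hq : 0 < q) {k : ℕ} (hk : 1 ≤ k)
    {f : ℤ → ℝ} (hf : PerA q k f) : Ev q π (k + R) (κ.P f) = Ev q π k f := by
  -- replace `f` by a periodic function
  set F : ℤ → ℝ := fun x => if (q : ℤ) ∣ x then 0 else f x with hF
  have hFper : Per q k F := by
    intro x y
    have h1 : (q : ℤ) ∣ x + (q : ℤ) ^ k * y ↔ (q : ℤ) ∣ x :=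
      (dvd_add_left ((dvd_pow_self _ (by omega)).mul_right _))
    simp only [hF]
    by_cases h : (q : ℤ) ∣ x
    · rw [if_pos (h1.2 h), if_pos h]
    · rw [if_neg (fun hh => h (h1.1 hh)), if_neg h, hf x y h]
  have hPF : ∀ x : ℤ, ¬ (q : ℤ) ∣ x → κ.P f x = κ.P F x := by
    intro x hx
    unfold Ker.P
    congr 1
    refine Finset.sum_congr rfl fun b hb => ?_
    simp only [hF, if_neg (κ.hlive x b hx hb)]
  have e1 : Ev q π (k + R) (κ.P f) = Ev q π (k + 1 * R) (κ.P F) := by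
    rw [one_mul]
    unfold Ev
    refine Finset.sum_congr rfl fun c _ => ?_
    by_cases hc : (q : ℤ) ∣ (c : ℤ)
    · rw [hπ.dead _ c (by omega) hc, zero_mul, zero_mul]
    · rw [hPF _ hc]
  rw [e1]
  unfold Ev
  have e2 : ∀ c ∈ range (q ^ (k + 1 * R)), π (k + 1 * R) (c : ℤ) * κ.P F (c : ℤ) =
      ∑ v ∈ range (q ^ k), f (v : ℤ) * (π (k + 1 * R) (c : ℤ) *
        ∑ s ∈ range (1 * κ.Smax + 1), pr κ k (v : ℤ) 1 s (c : ℤ)) := by
    intro c _
    by_cases hc : (q : ℤ) ∣ (c : ℤ)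
    · rw [hπ.dead _ c (by omega) hc]
      simp
    · have h1 := P_iter κ hq hFper 1 (1 * κ.Smax + 1) hc (by omega)
      rw [Function.iterate_one] at h1
      rw [h1, Finset.sum_comm, Finset.mul_sum]
      refine Finset.sum_congr rfl fun v _ => ?_
      rw [← Finset.mul_sum]
      by_cases hv : (q : ℤ) ∣ (v : ℤ)
      · have : ∑ s ∈ range (1 * κ.Smax + 1), pr κ k (v : ℤ) 1 s (c : ℤ) = 0 :=
          Finset.sum_eq_zero fun s _ => pr_dead κ hk hv 1 s hc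
        rw [this]; ring
      · simp only [hF, if_neg hv]; ring
  rw [Finset.sum_congr rfl e2, Finset.sum_comm]
  refine Finset.sum_congr rfl fun v _ => ?_
  rw [← Finset.mul_sum, ← hπ.stat 1 k v hk]
  ring

/-- average nondegeneracy -/
noncomputable def tau (κ : Ker q R) (π : ℕ → ℤ → ℝ) (j i : ℕ) : ℝ :=
  Ev q π (j * R + i) (nd κ j i)

theorem nd_per (κ : Ker q R) (hq : 0 < q) (j i : ℕ) (hi : 1 ≤ i) :
    PerA q (j * R + i) (nd κ j i) := by
  intro x y hx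
  unfold nd
  rw [W_per κ hq j i (i + 1) hi (Nat.le_succ i) hx y]

theorem tau_time {κ : Ker q R} {π : ℕ → ℤ → ℝ} (hπ : Stat κ π) (hq : 0 < q) (j i : ℕ)
    (hi : 1 ≤ i) : tau κ π j i ≤ tau κ π (j + 1) i := by
  unfold tau
  rw [← Ev_P hπ hq (show 1 ≤ j * R + i by omega) (nd_per κ hq j i hi)]
  have e : (j + 1) * R + i = j * R + i + R := by ring
  rw [e]
  apply Ev_mono hπ (by omega)
  intro x hx
  have h1 := W_time κ hq j (Nat.le_succ i) hx
  have h2 : κ.P (nd κ j i) x = 1 - κ.P (W κ j i (i + 1)) x := by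
    have := (K_nonempty κ hx).ne'
    unfold Ker.P nd
    rw [Finset.sum_sub_distrib]
    simp only [Finset.sum_const, nsmul_eq_mul, mul_one]
    field_simp
  rw [h2]
  unfold nd
  linarith

theorem nd_level (κ : Ker q R) (hq : q.Prime) (hq2 : q ≠ 2) (j i : ℕ) (hi : 1 ≤ i) {x : ℤ}
    (hx : ¬ (q : ℤ) ∣ x) : nd κ j (i + R) x ≤ nd κ (j + 1) i x := by
  have := W_level κ hq hq2 j i 1 hi hx
  unfold nd
  rw [show i + R + 1 = i + 1 + R by ring]
  linarith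

theorem nd_level_iter (κ : Ker q R) (hq : q.Prime) (hq2 : q ≠ 2) (j i n : ℕ) (hi : 1 ≤ i) {x : ℤ}
    (hx : ¬ (q : ℤ) ∣ x) : nd κ j (i + n * R) x ≤ nd κ (j + n) i x := by
  induction n generalizing i with
  | zero => simp
  | succ n ih =>
    have h1 := ih (i + R) (by omega)
    rw [show i + R + n * R = i + (n + 1) * R by ring] at h1
    exact h1.trans (nd_level κ hq hq2 (j + n) i hi hx)

theorem tau_level {κ : Ker q R} {π : ℕ → ℤ → ℝ} (hπ : Stat κ π) (hq : q.Prime) (hq2 : q ≠ 2)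
    (j i : ℕ) (hi : 1 ≤ i) : tau κ π j (i + R) ≤ tau κ π (j + 1) i := by
  unfold tau
  rw [show (j + 1) * R + i = j * R + (i + R) by ring]
  apply Ev_mono hπ (by omega)
  intro x hx
  exact nd_level κ hq hq2 j i hi hx

theorem Ev_one {κ : Ker q R} {π : ℕ → ℤ → ℝ} (hπ : Stat κ π) (k : ℕ) :
    Ev q π k (fun _ => 1) = 1 := by
  unfold Ev
  simp only [mul_one]
  rw [hπ.mass.total k, hπ.total]

theorem tau_nonneg {κ : Ker q R} {π : ℕ → ℤ → ℝ} (hπ : Stat κ π) (hq : 0 < q) (j i : ℕ)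
    (hi : 1 ≤ i) : 0 ≤ tau κ π j i := by
  have h := Ev_mono hπ (k := j * R + i) (by omega) (f := fun _ => 0) (g := nd κ j i)
    (fun x hx => nd_nonneg κ hq j i hx)
  have h0 : Ev q π (j * R + i) (fun _ => 0) = 0 := by unfold Ev; simp
  rw [h0] at h
  exact h

theorem tau_le_one {κ : Ker q R} {π : ℕ → ℤ → ℝ} (hπ : Stat κ π) (j i : ℕ)
    (hi : 1 ≤ i) : tau κ π j i ≤ 1 := by
  rw [← Ev_one hπ (j * R + i)]
  exact Ev_mono hπ (by omega) (fun x _ => nd_le_one κ j i x)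

/-- a lower bound on a sum of `nd` valid everywhere persists in time -/
theorem nd_sum_time (κ : Ker q R) (hq : 0 < q) (I : Finset ℕ) (t : ℕ) (a : ℝ)
    (h : ∀ x : ℤ, ¬ (q : ℤ) ∣ x → a ≤ ∑ i ∈ I, nd κ t i x) (j : ℕ) (hj : t ≤ j) :
    ∀ x : ℤ, ¬ (q : ℤ) ∣ x → a ≤ ∑ i ∈ I, nd κ j i x := by
  induction j, hj using Nat.le_induction with
  | base => exact h
  | succ j hj ih =>
    intro x hx
    have h1 : κ.P (fun _ => a) x ≤ κ.P (fun x => ∑ i ∈ I, nd κ j i x) x := P_mono κ ih hx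
    rw [P_const κ a hx] at h1
    have h2 : κ.P (fun x => ∑ i ∈ I, nd κ j i x) x = ∑ i ∈ I, κ.P (nd κ j i) x := by
      unfold Ker.P
      rw [Finset.sum_comm, Finset.sum_div]
    rw [h2] at h1
    refine h1.trans (Finset.sum_le_sum fun i _ => ?_)
    have h3 := W_time κ hq j (Nat.le_succ i) hx
    have h4 : κ.P (nd κ j i) x = 1 - κ.P (W κ j i (i + 1)) x := by
      have := (K_nonempty κ hx).ne'
      unfold Ker.P nd
      rw [Finset.sum_sub_distrib]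
      simp only [Finset.sum_const, nsmul_eq_mul, mul_one]
      field_simp
    rw [h4]
    unfold nd
    linarith

end Pool.Agent.H412R2
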