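import Pool.Agent.H412R2.RigG

/-! Rigidity, part H: the combination. -/

set_option autoImplicit false

namespace Pool.Agent.H412R2

open Finset

variable {q R : ℕ}

/-- a bounded monotone sequence has small increments -/
theorem small_incr (a : ℕ → ℝ) (hmono : ∀ n, a n ≤ a (n + 1)) (C : ℝ) (hC : ∀ n, a n ≤ C)
    (ε : ℝ) (hε : 0 < ε) : ∃ n, ∀ j, a (n + j) - a n ≤ ε := by
  by_contra hcon
  push Not at hcon
  have hm : Monotone a := monotone_nat_of_le_succ hmono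
  -- build arbitrarily large values
  have key : ∀ k : ℕ, ∃ n, a 0 + k * ε ≤ a n := by
    intro k
    induction k with
    | zero => exact ⟨0, by simp⟩
    | succ k ih =>
      obtain ⟨n, hn⟩ := ih
      obtain ⟨j, hj⟩ := hcon n
      refine ⟨n + j, ?_⟩
      push_cast
      nlinarith
  obtain ⟨k, hk⟩ := exists_nat_gt ((C - a 0) / ε)
  obtain ⟨n, hn⟩ := key k
  have h1 := hC n
  rw [div_lt_iff₀ hε] at hk
  nlinarith

theorem fl_window_sum {π : ℕ → ℤ → ℝ} (hM : Mass q π) (hq : 0 < q) (K L : ℕ) (hL : 1 ≤ L)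
    (c : ℤ) : ∑ y ∈ range (q ^ L), fl π q (K + L) (c + (q : ℤ) ^ K * (y : ℤ)) = 0 := by
  obtain ⟨L', rfl⟩ := Nat.exists_eq_add_of_le' hL
  rw [pow_succ, sum_range_mul' (q ^ L') q (fun y => fl π q (K + (L' + 1)) (c + (q : ℤ) ^ K * (y : ℤ)))]
  apply Finset.sum_eq_zero
  intro y _
  have h := fl_sharp hM hq (show 1 ≤ K + (L' + 1) by omega) (c + (q : ℤ) ^ K * (y : ℤ))
  rw [← h]
  refine Finset.sum_congr rfl fun d _ => ?_
  congr 1
  have e : K + (L' + 1) - 1 = K + L' := by omega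
  rw [e, pow_add]
  push_cast
  ring

/-- `Dn` is bounded by 2 -/
theorem Dn_le {κ : Ker q R} {π : ℕ → ℤ → ℝ} (hπ : Stat κ π) (hq : 0 < q) (m L : ℕ)
    (hL : 1 ≤ L) : Dn q π m (m + L) ≤ 2 := by
  have hM := hπ.mass
  have hqr : (0 : ℝ) < q := by exact_mod_cast hq
  have h1 : Dn q π m (m + L) ≤ ∑ z ∈ range (q ^ (m + L)),
      (2 * π (m + L) (z : ℤ) - fl π q (m + L) (z : ℤ)) := by
    unfold Dn
    refine Finset.sum_le_sum fun z _ => ?_
    have ha := fl_abs_le hM hq (show 1 ≤ m + L by omega) (z : ℤ)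
    have hb := hM.mono hq (show m ≤ m + L - 1 by omega) (z : ℤ)
    have hc : |fl π q (m + L) (z : ℤ)| ≤ 2 * π (m + L) (z : ℤ) - fl π q (m + L) (z : ℤ) := by
      have h2 := hM.nonneg (m + L) (z : ℤ)
      have h3 := hM.nonneg (m + L - 1) (z : ℤ)
      have h4 : 0 ≤ π (m + L - 1) (z : ℤ) / q := by positivity
      unfold fl
      rw [abs_le]
      constructor <;> linarith
    refine le_trans ?_ hc
    by_cases h0 : π m (z : ℤ) = 0
    · rw [h0, div_zero]; exact abs_nonneg _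
    · have hpos : 0 < π m (z : ℤ) := lt_of_le_of_ne (hM.nonneg _ _) (Ne.symm h0)
      rw [div_le_iff₀ hpos, ← sq_abs, sq]
      exact mul_le_mul_of_nonneg_left (ha.trans hb) (abs_nonneg _)
  refine h1.trans ?_
  rw [Finset.sum_sub_distrib, ← Finset.mul_sum, hM.total (m + L), hπ.total]
  have h2 : ∑ z ∈ range (q ^ (m + L)), fl π q (m + L) (z : ℤ) = 0 := by
    rw [sum_window_range (q := q) (m := m) (L := L) (F := fl π q (m + L))]
    apply Finset.sum_eq_zero
    intro a _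
    exact fl_window_sum hM hq m L hL a
  rw [h2]; norm_num

theorem Dn_mono {κ : Ker q R} {π : ℕ → ℤ → ℝ} (hπ : Stat κ π) (hq : q.Prime) (hq2 : q ≠ 2)
    (j m L : ℕ) (hm : 1 ≤ m) (hL : 1 ≤ L) :
    Dn q π m (m + L) ≤ Dn q π (j * R + m) (j * R + m + L) := by
  refine (Dn_gain hπ hq hq2 j m L hm hL).trans ?_
  have hqr : (0 : ℝ) < q := by exact_mod_cast hq.pos
  have : 0 ≤ 1 / (2 * (q : ℝ) ^ (2 * L)) * ∑ c ∈ range (q ^ (j * R + m)),
        ((∑ y ∈ range (q ^ L), fl π q (j * R + m + L)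
          ((c : ℤ) + (q : ℤ) ^ (j * R + m) * (y : ℤ)) ^ 2) / π (j * R + m) (c : ℤ)) *
        (1 - W κ j m (m + L) (c : ℤ)) := by
    apply mul_nonneg (by positivity)
    apply Finset.sum_nonneg
    intro c _
    by_cases hc : (q : ℤ) ∣ (c : ℤ)
    · rw [hπ.dead _ _ (by omega) hc, div_zero, zero_mul]
    · apply mul_nonneg
      · exact div_nonneg (Finset.sum_nonneg fun _ _ => sq_nonneg _) (hπ.mass.nonneg _ _)
      · have := W_le_one κ hq.pos j (show m ≤ m + L by omega) hc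
        linarith
  linarith

/-- uniform smallness of the decrements of the limit nondegeneracy -/
theorem exists_k0 {κ : Ker q R} {π : ℕ → ℤ → ℝ} (hπ : Stat κ π) (hq : q.Prime) (hq2 : q ≠ 2)
    (hR : 1 ≤ R) (δ : ℝ) (hδ : 0 < δ) :
    ∃ (ζ : ℕ → ℝ) (k₀ : ℕ), 1 ≤ k₀ ∧ (∀ j i, 1 ≤ i → tau κ π j i ≤ ζ i) ∧
      (∀ i, 1 ≤ i → ∀ ε : ℝ, 0 < ε → ∃ j₀, ∀ j, j₀ ≤ j → ζ i - ε ≤ tau κ π j i) ∧
      (∀ i, k₀ ≤ i → ∀ n, ζ i - ζ (i + n * R) ≤ δ) := by
  have hq0 := hq.pos
  set ζ : ℕ → ℝ := fun i => ⨆ j, tau κ π j i with hζ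
  have hbdd : ∀ i, 1 ≤ i → BddAbove (Set.range fun j => tau κ π j i) := by
    intro i hi
    refine ⟨1, ?_⟩
    rintro _ ⟨j, rfl⟩
    exact tau_le_one hπ j i hi
  have hle : ∀ j i, 1 ≤ i → tau κ π j i ≤ ζ i := fun j i hi => le_ciSup (hbdd i hi) j
  have hmonot : ∀ i, 1 ≤ i → Monotone (fun j => tau κ π j i) := fun i hi =>
    monotone_nat_of_le_succ fun j => tau_time hπ hq0 j i hi
  have happ : ∀ i, 1 ≤ i → ∀ ε : ℝ, 0 < ε → ∃ j₀, ∀ j, j₀ ≤ j → ζ i - ε ≤ tau κ π j i := by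
    intro i hi ε hε
    obtain ⟨j₀, hj₀⟩ := exists_lt_of_lt_ciSup (show ζ i - ε < ⨆ j, tau κ π j i by
      simp only [hζ]; linarith)
    exact ⟨j₀, fun j hj => hj₀.le.trans (hmonot i hi hj)⟩
  have hstep : ∀ i, 1 ≤ i → ζ (i + R) ≤ ζ i := by
    intro i hi
    apply ciSup_le
    intro j
    exact (tau_level hπ hq hq2 j i hi).trans (hle (j + 1) i hi)
  have hnonneg : ∀ i, 1 ≤ i → 0 ≤ ζ i := fun i hi =>
    (tau_nonneg hπ hq0 0 i hi).trans (hle 0 i hi)
  have hstepn : ∀ n i, 1 ≤ i → ζ (i + n * R) ≤ ζ i := by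
    intro n
    induction n with
    | zero => intro i _; simp
    | succ n ih =>
      intro i hi
      have h1 := hstep (i + n * R) (by omega)
      rw [show i + n * R + R = i + (n + 1) * R by ring] at h1
      exact h1.trans (ih i hi)
  -- for each residue
  have hres : ∀ r : ℕ, ∃ n, ∀ j, ζ (r + 1 + n * R) - ζ (r + 1 + (n + j) * R) ≤ δ := by
    intro r
    obtain ⟨n, hn⟩ := small_incr (fun n => - ζ (r + 1 + n * R)) (by
      intro n
      have := hstep (r + 1 + n * R) (by omega)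
      rw [show r + 1 + n * R + R = r + 1 + (n + 1) * R by ring] at this
      linarith) 0 (by
      intro n
      have := hnonneg (r + 1 + n * R) (by omega)
      linarith) δ hδ
    refine ⟨n, fun j => ?_⟩
    have := hn j
    linarith
  choose nr hnr using hres
  refine ⟨ζ, 1 + R + (∑ r ∈ range R, nr r) * R, by omega, hle, happ, ?_⟩
  intro i hi n
  -- write i = r + 1 + n' R
  set r := (i - 1) % R with hr
  set n' := (i - 1) / R with hn'
  have hi1 : i = r + 1 + n' * R := by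
    have := Nat.mod_add_div (i - 1) R
    rw [← hr, ← hn'] at this
    have h2 : R * n' = n' * R := Nat.mul_comm _ _
    omega
  have hrR : r < R := Nat.mod_lt _ (by omega)
  have hnrr : nr r ≤ n' := by
    have h1 : nr r ≤ ∑ r ∈ range R, nr r :=
      Finset.single_le_sum (f := nr) (fun _ _ => Nat.zero_le _) (Finset.mem_range.2 hrR)
    by_contra hcon
    push Not at hcon
    have h2 : n' + 1 ≤ ∑ r ∈ range R, nr r := by omega
    have h3 : (n' + 1) * R ≤ (∑ r ∈ range R, nr r) * R := Nat.mul_le_mul_right _ h2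
    have h4 : (n' + 1) * R = n' * R + R := by ring
    omega
  obtain ⟨d, hd⟩ := Nat.exists_eq_add_of_le hnrr
  have h1 := hnr r (d + n)
  have h2 := hstepn d (r + 1 + nr r * R) (by omega)
  rw [show r + 1 + nr r * R + d * R = i by rw [hi1, hd]; ring] at h2
  rw [show r + 1 + (nr r + (d + n)) * R = i + n * R by rw [hi1, hd]; ring] at h1
  linarith

end Pool.Agent.H412R2
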