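import Pool.Agent.H412R2.RigH

/-! Rigidity, part I: `Dn (i, i+1) = 0`. -/

set_option autoImplicit false

namespace Pool.Agent.H412R2

open Finset

variable {q R : ℕ}

theorem amgm_term (f P Q lam w : ℝ) (hf : |f| ≤ Q) (hP : 0 < P) (hlam : 0 < lam) (hw : 0 < w) :
    f ^ 2 / Q ≤ lam * P / w + w * (f ^ 2 / P) / (4 * lam) := by
  have h1 : f ^ 2 / Q ≤ |f| := by
    by_cases h0 : Q = 0
    · rw [h0, div_zero]; exact abs_nonneg _
    · have hpos : 0 < Q := lt_of_le_of_ne ((abs_nonneg _).trans hf) (Ne.symm h0)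
      rw [div_le_iff₀ hpos, ← sq_abs, sq]
      exact mul_le_mul_of_nonneg_left hf (abs_nonneg _)
  refine h1.trans ?_
  have hA : 0 < lam * P / w := by positivity
  have h2 : w * (f ^ 2 / P) / (4 * lam) = |f| ^ 2 / (4 * (lam * P / w)) := by
    rw [sq_abs]; field_simp
  rw [h2]
  have h3 : 0 ≤ (|f| - 2 * (lam * P / w)) ^ 2 := sq_nonneg _
  rw [← sub_nonneg]
  have h4 : lam * P / w + |f| ^ 2 / (4 * (lam * P / w)) - |f| =
      (|f| - 2 * (lam * P / w)) ^ 2 / (4 * (lam * P / w)) := by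
    field_simp; ring
  rw [h4]
  positivity

theorem Dn_small {κ : Ker q R} {π : ℕ → ℤ → ℝ} (hπ : Stat κ π) (hq : q.Prime) (hq2 : q ≠ 2)
    (hR : 1 ≤ R)
    (hwl : ∃ c : ℝ, 0 < c ∧ ∀ k₀ : ℕ, ∃ t : ℕ, 1 ≤ t ∧ k₀ < (κ.D + 1) * t ∧
      ∀ x : ℤ, ¬ (q : ℤ) ∣ x →
        c * ((κ.D + 1) * t : ℕ) ≤ ∑ i ∈ Ico k₀ ((κ.D + 1) * t), (1 - W κ t i (i + 1) x))
    (i₀ : ℕ) (hi₀ : 1 ≤ i₀) (ε : ℝ) (hε : 0 < ε) : Dn q π i₀ (i₀ + 1) ≤ ε := by
  have hq0 := hq.pos
  have hqr : (0 : ℝ) < q := by exact_mod_cast hq0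
  have hM := hπ.mass
  obtain ⟨c0, hc0, hw⟩ := hwl
  set δ := ε * c0 / 16 with hδdef
  set lam := ε * c0 / 4 with hlamdef
  have hδ : 0 < δ := by positivity
  have hlam : 0 < lam := by positivity
  obtain ⟨ζ, k₀, hk₀, hle, happ, hdec⟩ := exists_k0 hπ hq hq2 hR δ hδ
  obtain ⟨t, ht1, hkt, hwt⟩ := hw k₀
  set E := (κ.D + 1) * t with hE
  set L₀ := E - k₀ with hL₀
  have hL₀1 : 1 ≤ L₀ := by omega
  set A := k₀ + L₀ + 1 with hA
  have hRA : A ≤ R * A := Nat.le_mul_of_pos_left A (by omega)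
  set L := i₀ + R * A + 1 - k₀ with hL
  have hL1 : L₀ + 1 ≤ L := by omega
  have hkL : k₀ + L - 1 = i₀ + R * A := by omega
  set ε' := lam * (ε * c0) / (2 * (q : ℝ) ^ (3 * L)) with hε'def
  have hε' : 0 < ε' := by positivity
  obtain ⟨n, hn⟩ := small_incr (fun n => Dn q π (k₀ + n * R) (k₀ + n * R + L)) (by
    intro n
    have := Dn_mono hπ hq hq2 1 (k₀ + n * R) L (by omega) (by omega)
    rw [show 1 * R + (k₀ + n * R) = k₀ + (n + 1) * R by ring] at this
    exact this) 2 (fun n => Dn_le hπ hq0 _ L (by omega)) ε' hε'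
  set m := k₀ + n * R with hm
  have happ' : ∀ i, ∃ j₀, ∀ j, j₀ ≤ j → k₀ ≤ i → ζ (i + n * R) - δ ≤ tau κ π j (i + n * R) := by
    intro i
    by_cases hi : k₀ ≤ i
    · obtain ⟨j₀, hj₀⟩ := happ (i + n * R) (by omega) δ hδ
      exact ⟨j₀, fun j hj _ => hj₀ j hj⟩
    · exact ⟨0, fun j _ h => absurd h hi⟩
  choose jj hjj using happ'
  set j := t + ∑ i ∈ Ico k₀ E, jj i with hj
  have hjle : ∀ i ∈ Ico k₀ E, jj i ≤ j := by
    intro i hi
    have := Finset.single_le_sum (f := jj) (fun _ _ => Nat.zero_le _) hi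
    omega
  set K := j * R + m with hK
  set N := K + L with hN
  have hm1 : 1 ≤ m := by omega
  have hK1 : 1 ≤ K := by omega
  -- Y
  set Y : ℤ → ℝ := fun x => ∑ i ∈ Ico k₀ E, (nd κ (j + n) i x - nd κ j (i + n * R) x) with hY
  have hYnonneg : ∀ x : ℤ, ¬ (q : ℤ) ∣ x → 0 ≤ Y x := by
    intro x hx
    apply Finset.sum_nonneg
    intro i hi
    rw [Finset.mem_Ico] at hi
    have := nd_level_iter κ hq hq2 j i n (by omega) hx
    linarith
  have hEY : Ev q π N Y ≤ 2 * δ * L₀ := by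
    have e1 : Ev q π N Y = ∑ i ∈ Ico k₀ E, (tau κ π (j + n) i - tau κ π j (i + n * R)) := by
      have e2 : Ev q π N Y = ∑ i ∈ Ico k₀ E,
          (Ev q π N (nd κ (j + n) i) - Ev q π N (nd κ j (i + n * R))) := by
        simp only [Ev, hY]
        rw [← Finset.sum_congr rfl fun i _ => Finset.sum_sub_distrib
          (fun c : ℕ => π N (c : ℤ) * nd κ (j + n) i (c : ℤ))
          (fun c : ℕ => π N (c : ℤ) * nd κ j (i + n * R) (c : ℤ))]
        rw [Finset.sum_comm]
        refine Finset.sum_congr rfl fun c _ => ?_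
        rw [Finset.mul_sum]
        refine Finset.sum_congr rfl fun i _ => ?_
        ring
      rw [e2]
      refine Finset.sum_congr rfl fun i hi => ?_
      rw [Finset.mem_Ico] at hi
      unfold tau
      have l1 : (j + n) * R + i ≤ N := by
        have : (j + n) * R = j * R + n * R := by ring
        omega
      have l2 : j * R + (i + n * R) ≤ N := by omega
      rw [Ev_level hπ (by omega) l1 (nd_per κ hq0 (j + n) i (by omega)),
        Ev_level hπ (by omega) l2 (nd_per κ hq0 j (i + n * R) (by omega))]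
    rw [e1]
    calc ∑ i ∈ Ico k₀ E, (tau κ π (j + n) i - tau κ π j (i + n * R))
        ≤ ∑ i ∈ Ico k₀ E, (2 * δ) := by
          refine Finset.sum_le_sum fun i hi => ?_
          have hi' := Finset.mem_Ico.1 hi
          have h1 := hle (j + n) i (by omega)
          have h2 := hjj i j (hjle i hi) hi'.1
          have h3 := hdec i hi'.1 n
          linarith
      _ = 2 * δ * L₀ := by
          rw [Finset.sum_const, Nat.card_Ico, nsmul_eq_mul, hL₀]; ring
  -- pointwise lower bound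
  set θ : ℤ → ℝ := fun x => 1 - W κ j m (m + L) x with hθ
  have hpt : ∀ x : ℤ, ¬ (q : ℤ) ∣ x → c0 * L₀ ≤ L₀ * θ x + Y x := by
    intro x hx
    have h1 := nd_sum_time κ hq0 (Ico k₀ E) t (c0 * (E : ℕ)) (by
      intro x hx
      exact hwt x hx) (j + n) (by omega) x hx
    have h2 : (L₀ : ℝ) ≤ (E : ℝ) := by exact_mod_cast (by omega : L₀ ≤ E)
    have h3 : ∑ i ∈ Ico k₀ E, nd κ j (i + n * R) x ≤ L₀ * θ x := by
      calc ∑ i ∈ Ico k₀ E, nd κ j (i + n * R) x ≤ ∑ i ∈ Ico k₀ E, θ x := by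
            refine Finset.sum_le_sum fun i hi => ?_
            have hi' := Finset.mem_Ico.1 hi
            have := W_window κ hq0 j (m := m) (n := m + L) (i := i + n * R) (x := x)
              (by omega) (by omega)
            simp only [nd, hθ]
            linarith
        _ = L₀ * θ x := by rw [Finset.sum_const, Nat.card_Ico, nsmul_eq_mul, hL₀]
    have h4 : ∑ i ∈ Ico k₀ E, nd κ (j + n) i x = ∑ i ∈ Ico k₀ E, nd κ j (i + n * R) x + Y x := by
      simp only [hY]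
      rw [← Finset.sum_add_distrib]
      refine Finset.sum_congr rfl fun i _ => by ring
    have h5 : c0 * L₀ ≤ c0 * (E : ℕ) := mul_le_mul_of_nonneg_left h2 hc0.le
    linarith
  have hθper : PerA q K θ := by
    intro x y hx
    simp only [hθ]
    rw [hK, W_per κ hq0 j m (m + L) hm1 (by omega) hx y]
  have hθ1 : ∀ x, θ x ≤ 1 := by
    intro x
    have := W_nonneg κ j m (m + L) x
    simp only [hθ]; linarith
  have hθ0 : ∀ x : ℤ, ¬ (q : ℤ) ∣ x → 0 ≤ θ x := by
    intro x hx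
    have := W_le_one κ hq0 j (show m ≤ m + L by omega) hx
    simp only [hθ]; linarith
  -- components
  set fsq : ℕ → ℝ := fun c => ∑ y ∈ range (q ^ L), fl π q N ((c : ℤ) + (q : ℤ) ^ K * (y : ℤ)) ^ 2
    with hfsq
  set G : ℕ → ℝ := fun c => ∑ y ∈ range (q ^ L), fl π q N ((c : ℤ) + (q : ℤ) ^ K * (y : ℤ)) ^ 2 /
    π (N - 1) ((c : ℤ) + (q : ℤ) ^ K * (y : ℤ)) with hG
  set EY : ℕ → ℝ := fun c => ∑ y ∈ range (q ^ L), π N ((c : ℤ) + (q : ℤ) ^ K * (y : ℤ)) *
    Y ((c : ℤ) + (q : ℤ) ^ K * (y : ℤ)) with hEYc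
  have hcomp : ∀ c : ℕ, c0 * L₀ * G c ≤ L₀ * lam * π K (c : ℤ) +
      L₀ * ((q : ℝ) ^ L / (4 * lam)) * (fsq c / π K (c : ℤ) * θ (c : ℤ)) + 2 * EY c := by
    intro c
    have hflz : ∀ y : ℕ, |fl π q N ((c : ℤ) + (q : ℤ) ^ K * (y : ℤ))| ≤
        π (N - 1) ((c : ℤ) + (q : ℤ) ^ K * (y : ℤ)) := fun y => fl_abs_le hM hq0 (by omega) _
    have hπK : ∀ y : ℕ, π (N - 1) ((c : ℤ) + (q : ℤ) ^ K * (y : ℤ)) ≤ π K (c : ℤ) := by
      intro y
      have h1 := hM.mono hq0 (show K ≤ N - 1 by omega) ((c : ℤ) + (q : ℤ) ^ K * (y : ℤ))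
      rwa [hM.per K c y] at h1
    have hπN : ∀ y : ℕ, π N ((c : ℤ) + (q : ℤ) ^ K * (y : ℤ)) ≤ π K (c : ℤ) := by
      intro y
      have h1 := hM.mono hq0 (show K ≤ N by omega) ((c : ℤ) + (q : ℤ) ^ K * (y : ℤ))
      rwa [hM.per K c y] at h1
    by_cases hz : π K (c : ℤ) = 0
    · have g0 : G c = 0 := by
        apply Finset.sum_eq_zero
        intro y _
        have h1 := (hflz y).trans (hπK y)
        rw [hz] at h1
        have h2 := abs_eq_zero.1 (le_antisymm h1 (abs_nonneg _))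
        rw [h2]; simp
      have e0 : EY c = 0 := by
        apply Finset.sum_eq_zero
        intro y _
        have h1 := hπN y
        rw [hz] at h1
        rw [le_antisymm h1 (hM.nonneg _ _), zero_mul]
      rw [g0, e0, hz]
      simp
    · have hpos : 0 < π K (c : ℤ) := lt_of_le_of_ne (hM.nonneg _ _) (Ne.symm hz)
      have hcal : ¬ (q : ℤ) ∣ (c : ℤ) := fun h => hz (hπ.dead K c hK1 h)
      have hGnn : 0 ≤ G c := Finset.sum_nonneg fun y _ => div_nonneg (sq_nonneg _) (hM.nonneg _ _)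
      have hG2 : G c ≤ 2 * π K (c : ℤ) := by
        have h1 : G c ≤ ∑ y ∈ range (q ^ L), (2 * π N ((c : ℤ) + (q : ℤ) ^ K * (y : ℤ)) -
            fl π q N ((c : ℤ) + (q : ℤ) ^ K * (y : ℤ))) := by
          refine Finset.sum_le_sum fun y _ => ?_
          have h2 : fl π q N ((c : ℤ) + (q : ℤ) ^ K * (y : ℤ)) ^ 2 /
              π (N - 1) ((c : ℤ) + (q : ℤ) ^ K * (y : ℤ)) ≤
              |fl π q N ((c : ℤ) + (q : ℤ) ^ K * (y : ℤ))| := by
            by_cases h0 : π (N - 1) ((c : ℤ) + (q : ℤ) ^ K * (y : ℤ)) = 0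
            · rw [h0, div_zero]; exact abs_nonneg _
            · have hp : 0 < π (N - 1) ((c : ℤ) + (q : ℤ) ^ K * (y : ℤ)) :=
                lt_of_le_of_ne (hM.nonneg _ _) (Ne.symm h0)
              rw [div_le_iff₀ hp, ← sq_abs, sq]
              exact mul_le_mul_of_nonneg_left (hflz y) (abs_nonneg _)
          refine h2.trans ?_
          have h3 := hM.nonneg N ((c : ℤ) + (q : ℤ) ^ K * (y : ℤ))
          have h4 := hM.nonneg (N - 1) ((c : ℤ) + (q : ℤ) ^ K * (y : ℤ))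
          have h5 : 0 ≤ π (N - 1) ((c : ℤ) + (q : ℤ) ^ K * (y : ℤ)) / q := by positivity
          unfold fl
          rw [abs_le]
          constructor <;> linarith
        rw [Finset.sum_sub_distrib, ← Finset.mul_sum, ← hM.cons_add K L (c : ℤ),
          fl_window_sum hM hq0 K L (by omega) c] at h1
        linarith
      have hGX : G c ≤ lam * π K (c : ℤ) + (q : ℝ) ^ L / (4 * lam) * (fsq c / π K (c : ℤ)) := by
        have h1 : G c ≤ ∑ y ∈ range (q ^ L), (lam * π K (c : ℤ) / (q : ℝ) ^ L +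
            (q : ℝ) ^ L * (fl π q N ((c : ℤ) + (q : ℤ) ^ K * (y : ℤ)) ^ 2 / π K (c : ℤ)) /
              (4 * lam)) := by
          refine Finset.sum_le_sum fun y _ => ?_
          exact amgm_term _ _ _ lam _ (hflz y) hpos hlam (by positivity)
        rw [Finset.sum_add_distrib, Finset.sum_const, Finset.card_range, nsmul_eq_mul] at h1
        refine h1.trans (le_of_eq ?_)
        push_cast
        rw [← Finset.sum_div, ← Finset.mul_sum, ← Finset.sum_div]
        simp only [hfsq]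
        field_simp
      have hEYnn : 0 ≤ EY c := by
        apply Finset.sum_nonneg
        intro y _
        apply mul_nonneg (hM.nonneg _ _)
        exact hYnonneg _ (alive_shift hcal hK1 _)
      have hmean : c0 * L₀ * π K (c : ℤ) ≤ L₀ * θ (c : ℤ) * π K (c : ℤ) + EY c := by
        have h1 : ∑ y ∈ range (q ^ L), π N ((c : ℤ) + (q : ℤ) ^ K * (y : ℤ)) * (c0 * L₀) ≤
            ∑ y ∈ range (q ^ L), π N ((c : ℤ) + (q : ℤ) ^ K * (y : ℤ)) *
              (L₀ * θ (c : ℤ) + Y ((c : ℤ) + (q : ℤ) ^ K * (y : ℤ))) := by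
          refine Finset.sum_le_sum fun y _ => ?_
          apply mul_le_mul_of_nonneg_left _ (hM.nonneg _ _)
          have h2 := hpt _ (alive_shift hcal hK1 (y : ℤ))
          rwa [hθper (c : ℤ) (y : ℤ) hcal] at h2
        rw [← Finset.sum_mul, ← hM.cons_add K L (c : ℤ)] at h1
        simp only [mul_add] at h1
        rw [Finset.sum_add_distrib, ← Finset.sum_mul, ← hM.cons_add K L (c : ℤ)] at h1
        simp only [hEYc]
        linarith
      have hratio : G c / π K (c : ℤ) ≤ 2 := by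
        rw [div_le_iff₀ hpos]; exact hG2
      have hratio0 : 0 ≤ G c / π K (c : ℤ) := div_nonneg hGnn hpos.le
      have h6 : c0 * L₀ * G c ≤ (G c / π K (c : ℤ)) * (L₀ * θ (c : ℤ) * π K (c : ℤ) + EY c) := by
        have := mul_le_mul_of_nonneg_left hmean hratio0
        refine le_trans (le_of_eq ?_) this
        field_simp
      have h7 : (G c / π K (c : ℤ)) * (L₀ * θ (c : ℤ) * π K (c : ℤ) + EY c) =
          L₀ * θ (c : ℤ) * G c + (G c / π K (c : ℤ)) * EY c := by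
        field_simp
      rw [h7] at h6
      have h8 : (G c / π K (c : ℤ)) * EY c ≤ 2 * EY c := mul_le_mul_of_nonneg_right hratio hEYnn
      have hL₀nn : (0 : ℝ) ≤ L₀ := Nat.cast_nonneg _
      have h9 : L₀ * θ (c : ℤ) * G c ≤ L₀ * θ (c : ℤ) *
          (lam * π K (c : ℤ) + (q : ℝ) ^ L / (4 * lam) * (fsq c / π K (c : ℤ))) :=
        mul_le_mul_of_nonneg_left hGX (mul_nonneg hL₀nn (hθ0 _ hcal))
      have h10 : L₀ * θ (c : ℤ) * (lam * π K (c : ℤ)) ≤ L₀ * lam * π K (c : ℤ) := by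
        have h11 : θ (c : ℤ) * (L₀ * (lam * π K (c : ℤ))) ≤ 1 * (L₀ * (lam * π K (c : ℤ))) :=
          mul_le_mul_of_nonneg_right (hθ1 _) (by positivity)
        linarith
      linarith
  -- sum over c
  have hsum : c0 * L₀ * ∑ c ∈ range (q ^ K), G c ≤ L₀ * lam +
      L₀ * ((q : ℝ) ^ L / (4 * lam)) * ∑ c ∈ range (q ^ K), (fsq c / π K (c : ℤ) * θ (c : ℤ)) +
      2 * ∑ c ∈ range (q ^ K), EY c := by
    have h1 := Finset.sum_le_sum (s := range (q ^ K)) fun c _ => hcomp c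
    rw [← Finset.mul_sum, Finset.sum_add_distrib, Finset.sum_add_distrib, ← Finset.mul_sum,
      ← Finset.mul_sum, ← Finset.mul_sum, hM.total K, hπ.total, mul_one] at h1
    exact h1
  have hEYsum : ∑ c ∈ range (q ^ K), EY c = Ev q π N Y := by
    unfold Ev
    rw [hN, sum_window_range (q := q) (m := K) (L := L) (F := fun z => π (K + L) z * Y z)]
  have hGsum : ∑ c ∈ range (q ^ K), G c = Dn q π (N - 1) N := by
    unfold Dn
    rw [hN, sum_window_range (q := q) (m := K) (L := L)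
      (F := fun z => fl π q (K + L) z ^ 2 / π (K + L - 1) z)]
  have hgain := Dn_gain hπ hq hq2 j m L hm1 (by omega)
  have hgain2 : Dn q π (j * R + m) (j * R + m + L) - Dn q π m (m + L) ≤ ε' := by
    have := hn j
    rw [show k₀ + (n + j) * R = j * R + m by rw [hm]; ring] at this
    exact this
  have hS : ∑ c ∈ range (q ^ K), (fsq c / π K (c : ℤ) * θ (c : ℤ)) ≤ 2 * (q : ℝ) ^ (2 * L) * ε' := by
    have h1 : 1 / (2 * (q : ℝ) ^ (2 * L)) * ∑ c ∈ range (q ^ K),
        (fsq c / π K (c : ℤ) * θ (c : ℤ)) ≤ ε' := by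
      have : ∑ c ∈ range (q ^ K), (fsq c / π K (c : ℤ) * θ (c : ℤ)) =
          ∑ c ∈ range (q ^ (j * R + m)), ((∑ y ∈ range (q ^ L), fl π q (j * R + m + L)
          ((c : ℤ) + (q : ℤ) ^ (j * R + m) * (y : ℤ)) ^ 2) / π (j * R + m) (c : ℤ)) *
        (1 - W κ j m (m + L) (c : ℤ)) := rfl
      rw [this]
      linarith
    have hpos2 : (0 : ℝ) < 2 * (q : ℝ) ^ (2 * L) := by positivity
    rw [one_div, inv_mul_le_iff₀ hpos2] at h1
    exact h1
  have hL₀pos : (0 : ℝ) < L₀ := by exact_mod_cast (by omega : 0 < L₀)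
  have hfin : c0 * L₀ * Dn q π (N - 1) N ≤ L₀ * (3 / 4 * (ε * c0)) := by
    rw [← hGsum]
    refine hsum.trans ?_
    rw [hEYsum]
    have h1 : L₀ * ((q : ℝ) ^ L / (4 * lam)) * ∑ c ∈ range (q ^ K),
        (fsq c / π K (c : ℤ) * θ (c : ℤ)) ≤
        L₀ * ((q : ℝ) ^ L / (4 * lam)) * (2 * (q : ℝ) ^ (2 * L) * ε') :=
      mul_le_mul_of_nonneg_left hS (by positivity)
    have h2 : L₀ * ((q : ℝ) ^ L / (4 * lam)) * (2 * (q : ℝ) ^ (2 * L) * ε') =
        L₀ * (1 / 4 * (ε * c0)) := by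
      rw [hε'def]
      have e : (q : ℝ) ^ (3 * L) = (q : ℝ) ^ L * (q : ℝ) ^ (2 * L) := by
        rw [← pow_add]; congr 1; ring
      rw [e]
      field_simp
    have h3 : 2 * Ev q π N Y ≤ L₀ * (1 / 4 * (ε * c0)) := by
      have : 2 * (2 * δ * L₀) = L₀ * (1 / 4 * (ε * c0)) := by rw [hδdef]; ring
      linarith
    have h4 : (L₀ : ℝ) * lam = L₀ * (1 / 4 * (ε * c0)) := by rw [hlamdef]; ring
    linarith
  have hDN : Dn q π (N - 1) N ≤ ε := by
    have h1 : (c0 * L₀) * Dn q π (N - 1) N ≤ (c0 * L₀) * (3 / 4 * ε) := by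
      refine hfin.trans (le_of_eq ?_); ring
    have h2 := le_of_mul_le_mul_left h1 (by positivity)
    linarith
  have hlast := Dn_mono hπ hq hq2 (j + n + A) i₀ 1 hi₀ le_rfl
  have e1 : (j + n + A) * R + i₀ = N - 1 := by
    have e2 : (j + n + A) * R = j * R + n * R + R * A := by ring
    rw [e2]
    omega
  have e3 : N - 1 + 1 = N := by omega
  rw [e1, e3] at hlast
  exact hlast.trans hDN

end Pool.Agent.H412R2
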