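import Pool.Agent.H412R2.Defs
import Pool.Agent.H412R2.Tree
import Pool.Agent.H412R2.Oper

/-!
Task 3 (SPREAD): the well behaved part of the critical martingale `ff` is bounded by `C √T`.
-/

set_option autoImplicit false

namespace Pool.Agent.H412R2

/-- shifted test function after a first letter `e` -/
def shiftφ (φ : ℕ → ℤ → ℝ) (e : ℕ) : ℕ → ℤ → ℝ := fun s o => φ (s + e) (2 ^ s + 3 * o)

/-- weighted sum of a test function of (size, offset) over the words of `n` letters -/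
noncomputable def FF (E n : ℕ) (φ : ℕ → ℤ → ℝ) (x : ℤ) : ℝ :=
  ∑ s ∈ Finset.range (n * E + 1),
    (3 * kap E) ^ n * (1 / 2 : ℝ) ^ s * ∑ z ∈ tr 3 E n s x, φ s (2 ^ s * x - 3 ^ n * z)

/-- its mean -/
noncomputable def MM (E : ℕ) : ℕ → (ℕ → ℤ → ℝ) → ℝ
  | 0, φ => φ 0 0
  | n + 1, φ => ∑ e ∈ Finset.Icc 1 E, kap E * (1 / 2 : ℝ) ^ e * MM E n (shiftφ φ e)

theorem FF_zero (E : ℕ) (φ : ℕ → ℤ → ℝ) (x : ℤ) : FF E 0 φ x = φ 0 0 := by
  simp [FF, tr]

theorem FF_periodic (E n : ℕ) (φ : ℕ → ℤ → ℝ) (x y : ℤ) :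
    FF E n φ (x + 3 ^ n * y) = FF E n φ x := by
  unfold FF
  refine Finset.sum_congr rfl fun s _ => ?_
  congr 1
  have key : ∀ z, z + 2 ^ s * y ∈ tr 3 E n s (x + (3 : ℤ) ^ n * y) ↔ z ∈ tr 3 E n s x := by
    intro z
    have := mem_tr_shift (q := 3) (E := E) (n := n) (s := s) (by norm_num) x y z
    simpa using this
  symm
  refine Finset.sum_nbij' (fun z => z + 2 ^ s * y) (fun z => z - 2 ^ s * y) ?_ ?_ ?_ ?_ ?_
  · intro z hz; exact (key z).2 hz
  · intro z hz
    have := (key (z - 2 ^ s * y)).1 (by simpa using hz)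
    exact this
  · intro z _; simp
  · intro z _; simp
  · intro z _
    congr 1
    ring

theorem FF_succ (E n : ℕ) (φ : ℕ → ℤ → ℝ) (x : ℤ) :
    FF E (n + 1) φ x = ∑ e ∈ Finset.Icc 1 E, if (3 : ℤ) ∣ 2 ^ e * x - 1 then
      3 * kap E * (1 / 2 : ℝ) ^ e * FF E n (shiftφ φ e) ((2 ^ e * x - 1) / 3) else 0 := by
  unfold FF
  have h1 : ∀ s : ℕ, ∑ z ∈ tr 3 E (n + 1) s x, φ s (2 ^ s * x - 3 ^ (n + 1) * z) =
      ∑ e ∈ Finset.Icc 1 E, if e ≤ s then (if (3 : ℤ) ∣ 2 ^ e * x - 1 then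
        ∑ z ∈ tr 3 E n (s - e) ((2 ^ e * x - 1) / 3),
          shiftφ φ e (s - e) (2 ^ (s - e) * ((2 ^ e * x - 1) / 3) - 3 ^ n * z) else 0) else 0 := by
    intro s
    have h0 := sum_tr_succ (q := 3) (E := E) (n := n) (s := s) (by decide) (by norm_num) x
      (fun z => φ s (2 ^ s * x - 3 ^ (n + 1) * z))
    push_cast at h0
    have h2 : Finset.Icc 1 (min s E) = (Finset.Icc 1 E).filter (fun e => e ≤ s) := by
      ext e
      simp only [Finset.mem_Icc, Finset.mem_filter, le_min_iff]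
      tauto
    rw [h0, h2, Finset.sum_filter]
    refine Finset.sum_congr rfl fun e he => ?_
    simp only [Finset.mem_Icc] at he
    by_cases hes : e ≤ s
    swap
    · rw [if_neg hes, if_neg hes]
    rw [if_pos hes, if_pos hes]
    by_cases hv : (3 : ℤ) ∣ 2 ^ e * x - 1
    · rw [if_pos hv, if_pos hv]
      refine Finset.sum_congr rfl fun z _ => ?_
      obtain ⟨b, hb⟩ := hv
      have hb' : (2 ^ e * x - 1) / 3 = b := by rw [hb]; simp
      rw [hb']
      unfold shiftφ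
      have hs : s - e + e = s := by omega
      rw [hs]
      congr 1
      have h3 : (2 : ℤ) ^ s = 2 ^ (s - e) * 2 ^ e := by rw [← pow_add, hs]
      have h4 : (2 : ℤ) ^ e * x = 3 * b + 1 := by linarith
      calc (2 : ℤ) ^ s * x - 3 ^ (n + 1) * z = 2 ^ (s - e) * (2 ^ e * x) - 3 ^ (n + 1) * z := by
            rw [h3]; ring
        _ = 2 ^ (s - e) + 3 * (2 ^ (s - e) * b - 3 ^ n * z) := by rw [h4]; ring
    · rw [if_neg hv, if_neg hv]
  calc ∑ s ∈ Finset.range ((n + 1) * E + 1), (3 * kap E) ^ (n + 1) * (1 / 2 : ℝ) ^ s *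
          ∑ z ∈ tr 3 E (n + 1) s x, φ s (2 ^ s * x - 3 ^ (n + 1) * z)
      = ∑ s ∈ Finset.range ((n + 1) * E + 1), ∑ e ∈ Finset.Icc 1 E,
          (3 * kap E) ^ (n + 1) * (1 / 2 : ℝ) ^ s *
          (if e ≤ s then (if (3 : ℤ) ∣ 2 ^ e * x - 1 then
        ∑ z ∈ tr 3 E n (s - e) ((2 ^ e * x - 1) / 3),
          shiftφ φ e (s - e) (2 ^ (s - e) * ((2 ^ e * x - 1) / 3) - 3 ^ n * z) else 0) else 0) := by
        refine Finset.sum_congr rfl fun s _ => ?_
        rw [h1 s, Finset.mul_sum]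
    _ = ∑ e ∈ Finset.Icc 1 E, ∑ s ∈ Finset.range ((n + 1) * E + 1),
          (3 * kap E) ^ (n + 1) * (1 / 2 : ℝ) ^ s *
          (if e ≤ s then (if (3 : ℤ) ∣ 2 ^ e * x - 1 then
        ∑ z ∈ tr 3 E n (s - e) ((2 ^ e * x - 1) / 3),
          shiftφ φ e (s - e) (2 ^ (s - e) * ((2 ^ e * x - 1) / 3) - 3 ^ n * z) else 0) else 0) :=
        Finset.sum_comm
    _ = _ := by
        refine Finset.sum_congr rfl fun e he => ?_
        simp only [Finset.mem_Icc] at he
        by_cases hv : (3 : ℤ) ∣ 2 ^ e * x - 1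
        · simp only [if_pos hv]
          rw [Finset.mul_sum]
          have h5 : ∀ s : ℕ, (3 * kap E) ^ (n + 1) * (1 / 2 : ℝ) ^ s *
              (if e ≤ s then ∑ z ∈ tr 3 E n (s - e) ((2 ^ e * x - 1) / 3),
                shiftφ φ e (s - e) (2 ^ (s - e) * ((2 ^ e * x - 1) / 3) - 3 ^ n * z) else 0) =
              if e ≤ s then 3 * kap E * (1 / 2 : ℝ) ^ e * ((3 * kap E) ^ n * (1 / 2 : ℝ) ^ (s - e) *
                ∑ z ∈ tr 3 E n (s - e) ((2 ^ e * x - 1) / 3),
                shiftφ φ e (s - e) (2 ^ (s - e) * ((2 ^ e * x - 1) / 3) - 3 ^ n * z)) else 0 := by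
            intro s
            by_cases hs : e ≤ s
            · rw [if_pos hs, if_pos hs]
              have h6 : (1 / 2 : ℝ) ^ s = (1 / 2 : ℝ) ^ e * (1 / 2 : ℝ) ^ (s - e) := by
                rw [← pow_add]; congr 1; omega
              rw [h6, pow_succ]; ring
            · rw [if_neg hs, if_neg hs, mul_zero]
          rw [Finset.sum_congr rfl (fun s _ => h5 s), ← Finset.sum_filter]
          symm
          have hsub : (Finset.range (n * E + 1)).image (fun s => s + e) ⊆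
              (Finset.range ((n + 1) * E + 1)).filter (fun s => e ≤ s) := by
            intro s hs
            simp only [Finset.mem_image, Finset.mem_range, Finset.mem_filter] at hs ⊢
            obtain ⟨t, ht, rfl⟩ := hs
            constructor
            · have : (n + 1) * E = n * E + E := by ring
              omega
            · omega
          have hinj : Set.InjOn (fun s : ℕ => s + e) (Finset.range (n * E + 1) : Set ℕ) := by
            intro a _ b _ hab
            simpa using hab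
          rw [← Finset.sum_subset hsub, Finset.sum_image hinj]
          · refine Finset.sum_congr rfl fun s _ => ?_
            simp
          · intro s hs hs'
            have hempty : tr 3 E n (s - e) ((2 ^ e * x - 1) / 3) = ∅ := by
              by_contra hne
              obtain ⟨z, hz⟩ := Finset.nonempty_iff_ne_empty.2 hne
              have h7 := tr_size_le hz
              apply hs'
              simp only [Finset.mem_image, Finset.mem_range]
              simp only [Finset.mem_filter] at hs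
              exact ⟨s - e, by omega, by omega⟩
            rw [hempty]
            simp
        · simp only [if_neg hv]
          simp

theorem FF_total (E : ℕ) (n : ℕ) : ∀ (φ : ℕ → ℤ → ℝ),
    ∑ x ∈ Finset.range (3 ^ n), FF E n φ (x : ℤ) = 3 ^ n * MM E n φ := by
  induction n with
  | zero => intro φ; simp [FF_zero, MM]
  | succ n ih =>
    intro φ
    have h1 : ∀ x : ℤ, FF E (n + 1) φ x = ∑ e ∈ Finset.Icc 1 E, kap E * (1 / 2 : ℝ) ^ e *
        Lw E (fun e' => if e' = e then 1 else 0) (FF E n (shiftφ φ e)) x := by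
      intro x
      rw [FF_succ]
      refine Finset.sum_congr rfl fun e he => ?_
      unfold Lw
      rw [Finset.sum_eq_single e]
      · by_cases hv : (3 : ℤ) ∣ 2 ^ e * x - 1
        · simp only [if_pos hv, if_true]; ring
        · simp only [if_neg hv, mul_zero]
      · intro b _ hb
        simp [hb]
      · intro h; exact absurd he h
    have h2 : ∀ e ∈ Finset.Icc 1 E, ∑ x ∈ Finset.range (3 ^ (n + 1)),
        Lw E (fun e' => if e' = e then 1 else 0) (FF E n (shiftφ φ e)) (x : ℤ) =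
        3 * (3 ^ n * MM E n (shiftφ φ e)) := by
      intro e he
      have h3 := Lw_total (E := E) (u := fun e' => if e' = e then 1 else 0)
        (h := FF E n (shiftφ φ e)) (m := n) (fun x y => FF_periodic E n _ x y) 1
      have h4 : ∑ e' ∈ Finset.Icc 1 E, (if e' = e then (1 : ℝ) else 0) = 1 := by
        rw [Finset.sum_ite_eq' (Finset.Icc 1 E) e (fun _ => (1 : ℝ)), if_pos he]
      rw [h4, ih] at h3
      simp only [Function.iterate_one, pow_one, mul_one] at h3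
      rw [add_comm n 1]
      exact h3
    calc ∑ x ∈ Finset.range (3 ^ (n + 1)), FF E (n + 1) φ (x : ℤ)
        = ∑ x ∈ Finset.range (3 ^ (n + 1)), ∑ e ∈ Finset.Icc 1 E, kap E * (1 / 2 : ℝ) ^ e *
            Lw E (fun e' => if e' = e then 1 else 0) (FF E n (shiftφ φ e)) (x : ℤ) :=
          Finset.sum_congr rfl fun x _ => h1 _
      _ = ∑ e ∈ Finset.Icc 1 E, ∑ x ∈ Finset.range (3 ^ (n + 1)), kap E * (1 / 2 : ℝ) ^ e *
            Lw E (fun e' => if e' = e then 1 else 0) (FF E n (shiftφ φ e)) (x : ℤ) :=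
          Finset.sum_comm
      _ = ∑ e ∈ Finset.Icc 1 E, kap E * (1 / 2 : ℝ) ^ e * (3 * (3 ^ n * MM E n (shiftφ φ e))) := by
          refine Finset.sum_congr rfl fun e he => ?_
          rw [← Finset.mul_sum, h2 e he]
      _ = 3 ^ (n + 1) * MM E (n + 1) φ := by
          rw [MM, Finset.mul_sum]
          refine Finset.sum_congr rfl fun e _ => ?_
          rw [pow_succ]; ring

/-! ### numerical facts -/

theorem sum_half (E : ℕ) : ∑ e ∈ Finset.Icc 1 E, (1 / 2 : ℝ) ^ e = 1 - (1 / 2) ^ E := by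
  induction E with
  | zero => simp
  | succ E ih => rw [Finset.sum_Icc_succ_top (by omega), ih, pow_succ]; ring

theorem sum_half1 (E : ℕ) :
    ∑ e ∈ Finset.Icc 1 E, (1 / 2 : ℝ) ^ e * (e : ℝ) = 2 - (E + 2) * (1 / 2) ^ E := by
  induction E with
  | zero => simp
  | succ E ih => rw [Finset.sum_Icc_succ_top (by omega), ih, pow_succ]; push_cast; ring

theorem sum_half2 (E : ℕ) :
    ∑ e ∈ Finset.Icc 1 E, (1 / 2 : ℝ) ^ e * (e : ℝ) ^ 2 =
      6 - (E ^ 2 + 4 * E + 6) * (1 / 2) ^ E := by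
  induction E with
  | zero => simp
  | succ E ih => rw [Finset.sum_Icc_succ_top (by omega), ih, pow_succ]; push_cast; ring

theorem half_pow_le {E : ℕ} (hE : 6 ≤ E) : (1 / 2 : ℝ) ^ E ≤ 1 / 64 := by
  calc (1 / 2 : ℝ) ^ E ≤ (1 / 2) ^ 6 := pow_le_pow_of_le_one (by norm_num) (by norm_num) hE
    _ = 1 / 64 := by norm_num

theorem kap_pos {E : ℕ} (hE : 6 ≤ E) : 0 < kap E := by
  unfold kap
  have := half_pow_le hE
  apply div_pos one_pos; linarith

theorem one_le_kap {E : ℕ} (hE : 6 ≤ E) : 1 ≤ kap E := by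
  unfold kap
  have h1 := half_pow_le hE
  have h2 : (0 : ℝ) < (1 / 2) ^ E := by positivity
  rw [le_div_iff₀ (by linarith)]; linarith

theorem kap_le {E : ℕ} (hE : 6 ≤ E) : kap E ≤ 64 / 63 := by
  unfold kap
  have h1 := half_pow_le hE
  rw [div_le_div_iff₀ (by linarith) (by norm_num)]; linarith

theorem kap_mul {E : ℕ} (hE : 6 ≤ E) : kap E * (1 - (1 / 2) ^ E) = 1 := by
  unfold kap
  have h1 := half_pow_le hE
  rw [div_mul_cancel₀ _ (by linarith)]

theorem sum_kap {E : ℕ} (hE : 6 ≤ E) : ∑ e ∈ Finset.Icc 1 E, kap E * (1 / 2 : ℝ) ^ e = 1 := by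
  rw [← Finset.mul_sum, sum_half, kap_mul hE]

/-- `κ^n ≤ 2` for `n ≤ E` -/
theorem kap_pow_le {E n : ℕ} (hE : 6 ≤ E) (hn : n ≤ E) : kap E ^ n ≤ 2 := by
  unfold kap
  have h1 := half_pow_le hE
  have h2 : (0 : ℝ) < (1 / 2) ^ E := by positivity
  have h3 : 1 + (n : ℝ) * (-(1 / 2) ^ E) ≤ (1 + -(1 / 2 : ℝ) ^ E) ^ n :=
    one_add_mul_le_pow (by linarith) n
  have h4 : (E : ℝ) * (1 / 2) ^ E ≤ 1 / 2 := by
    have : ∀ k : ℕ, ((k + 2 : ℕ) : ℝ) * (1 / 2) ^ (k + 2) ≤ 1 / 2 := by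
      intro k
      induction k with
      | zero => norm_num
      | succ k ih =>
        have : ((k + 1 + 2 : ℕ) : ℝ) * (1 / 2) ^ (k + 1 + 2) =
            (((k + 2 : ℕ) : ℝ) * (1 / 2) ^ (k + 2) + (1 / 2) ^ (k + 2)) / 2 := by
          push_cast; ring
        rw [this]
        have h5 : (1 / 2 : ℝ) ^ (k + 2) ≤ 1 / 2 := by
          calc (1 / 2 : ℝ) ^ (k + 2) ≤ (1 / 2) ^ 1 :=
                pow_le_pow_of_le_one (by norm_num) (by norm_num) (by omega)
            _ = 1 / 2 := by norm_num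
        linarith
    obtain ⟨k, rfl⟩ : ∃ k, E = k + 2 := ⟨E - 2, by omega⟩
    exact this k
  have h5 : (n : ℝ) * (1 / 2) ^ E ≤ 1 / 2 :=
    le_trans (mul_le_mul_of_nonneg_right (by exact_mod_cast hn) h2.le) h4
  have h6 : (1 / 2 : ℝ) ≤ (1 - (1 / 2) ^ E) ^ n := by
    have : (1 : ℝ) + -(1 / 2) ^ E = 1 - (1 / 2) ^ E := by ring
    rw [this] at h3
    linarith
  rw [div_pow, one_pow, div_le_iff₀ (by linarith)]
  linarith

/-- mean letter and variance -/
noncomputable def mu (E : ℕ) : ℝ := ∑ e ∈ Finset.Icc 1 E, kap E * (1 / 2 : ℝ) ^ e * (e : ℝ)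

theorem mu_eq {E : ℕ} (hE : 6 ≤ E) : mu E - 2 = - (kap E * ((E : ℝ) * (1 / 2) ^ E)) := by
  unfold mu
  have : ∑ e ∈ Finset.Icc 1 E, kap E * (1 / 2 : ℝ) ^ e * (e : ℝ) =
      kap E * ∑ e ∈ Finset.Icc 1 E, (1 / 2 : ℝ) ^ e * (e : ℝ) := by
    rw [Finset.mul_sum]; exact Finset.sum_congr rfl fun e _ => by ring
  rw [this, sum_half1]
  have := kap_mul hE
  nlinarith [this]

theorem sq_le_two_pow {E : ℕ} (hE : 6 ≤ E) : ((E : ℝ)) ^ 2 * (1 / 2) ^ E ≤ 36 / 64 := by
  obtain ⟨k, rfl⟩ : ∃ k, E = k + 6 := ⟨E - 6, by omega⟩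
  clear hE
  induction k with
  | zero => norm_num
  | succ k ih =>
    push_cast at ih ⊢
    have h1 : (((k : ℝ) + 1 + 6)) ^ 2 ≤ 2 * ((k : ℝ) + 6) ^ 2 := by
      have : (0 : ℝ) ≤ k := by positivity
      nlinarith
    have h2 : (0 : ℝ) < (1 / 2) ^ (k + 6) := by positivity
    calc ((k : ℝ) + 1 + 6) ^ 2 * (1 / 2) ^ (k + 1 + 6)
        = ((k : ℝ) + 1 + 6) ^ 2 * (1 / 2) ^ (k + 6) / 2 := by ring
      _ ≤ (2 * ((k : ℝ) + 6) ^ 2) * (1 / 2) ^ (k + 6) / 2 := by
          have := mul_le_mul_of_nonneg_right h1 h2.le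
          linarith
      _ = ((k : ℝ) + 6) ^ 2 * (1 / 2) ^ (k + 6) := by ring
      _ ≤ 36 / 64 := ih

/-- `β = 2^{-3/2}` -/
theorem sum_beta_le (β : ℝ) (h0 : 0 ≤ β) (h1 : β ^ 2 = 1 / 8) (E : ℕ) :
    ∑ e ∈ Finset.Icc 1 E, β ^ e ≤ 0.5471 := by
  have hb : β ≤ 0.3536 := by nlinarith
  have hsum : ∀ E : ℕ, (1 - β) * ∑ e ∈ Finset.Icc 1 E, β ^ e = β - β ^ (E + 1) := by
    intro E
    induction E with
    | zero => simp
    | succ E ih => rw [Finset.sum_Icc_succ_top (by omega), mul_add, ih]; ring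
  have h2 := hsum E
  have h3 : (0 : ℝ) ≤ β ^ (E + 1) := by positivity
  nlinarith

/-! ### moments -/

theorem MM_lower {E : ℕ} (hE : 6 ≤ E) (n : ℕ) : ∀ (A B c D : ℝ) (φ : ℕ → ℤ → ℝ), 0 ≤ A → 0 ≤ B →
    (∀ (s : ℕ) (o : ℤ), D - A * ((s : ℝ) - c) ^ 2 - B * Real.sqrt ((o : ℝ) / 2 ^ s) ≤ φ s o) →
    D - A * (n * 7 + (n * mu E - c) ^ 2) - B * 20 ≤ MM E n φ := by
  induction n with
  | zero =>
    intro A B c D φ hA hB h
    have := h 0 0
    simp at this ⊢
    rw [MM]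
    nlinarith
  | succ n ih =>
    intro A B c D φ hA hB h
    rw [MM]
    set γ : ℝ := Real.sqrt (1 / 2) with hγ
    have hγ0 : 0 ≤ γ := Real.sqrt_nonneg _
    have hγ2 : γ ^ 2 = 1 / 2 := Real.sq_sqrt (by norm_num)
    have h3 : Real.sqrt 3 ≤ 1.7321 := by
      rw [Real.sqrt_le_left (by norm_num)]; norm_num
    have h30 : 0 ≤ Real.sqrt 3 := Real.sqrt_nonneg _
    have hsh : ∀ e : ℕ, ∀ (s : ℕ) (o : ℤ),
        (D - B * γ ^ e) - A * ((s : ℝ) - (c - e)) ^ 2 - (B * γ ^ e * Real.sqrt 3) *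
          Real.sqrt ((o : ℝ) / 2 ^ s) ≤ shiftφ φ e s o := by
      intro e s o
      have h1 := h (s + e) (2 ^ s + 3 * o)
      unfold shiftφ
      refine le_trans ?_ h1
      push_cast
      have h2 : Real.sqrt (((2 : ℝ) ^ s + 3 * (o : ℝ)) / 2 ^ (s + e)) ≤
          γ ^ e * (1 + Real.sqrt 3 * Real.sqrt ((o : ℝ) / 2 ^ s)) := by
        have h4 : ((2 : ℝ) ^ s + 3 * (o : ℝ)) / 2 ^ (s + e) = (1 / 2) ^ e * (1 + 3 * ((o : ℝ) / 2 ^ s)) := by
          rw [pow_add, one_div, inv_pow]; field_simp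
        rw [h4, Real.sqrt_mul (by positivity)]
        have h5 : Real.sqrt ((1 / 2 : ℝ) ^ e) = γ ^ e := by
          rw [hγ]
          rw [Real.sqrt_eq_iff_mul_self_eq (by positivity) (by positivity)]
          rw [← mul_pow, Real.mul_self_sqrt (by norm_num)]
        rw [h5]
        apply mul_le_mul_of_nonneg_left _ (by positivity)
        rw [← Real.sqrt_mul (by norm_num)]
        by_cases ho : 0 ≤ 3 * ((o : ℝ) / 2 ^ s)
        · rw [Real.sqrt_le_left (by positivity)]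
          have := Real.sq_sqrt ho
          have := Real.sqrt_nonneg (3 * ((o : ℝ) / 2 ^ s))
          nlinarith
        · push Not at ho
          rw [Real.sqrt_le_left (by positivity)]
          have := Real.sqrt_nonneg (3 * ((o : ℝ) / 2 ^ s))
          nlinarith
      have h6 : B * Real.sqrt (((2 : ℝ) ^ s + 3 * (o : ℝ)) / 2 ^ (s + e)) ≤
          B * (γ ^ e * (1 + Real.sqrt 3 * Real.sqrt ((o : ℝ) / 2 ^ s))) :=
        mul_le_mul_of_nonneg_left h2 hB
      have h7 : ((s : ℝ) + e - c) ^ 2 = ((s : ℝ) - (c - e)) ^ 2 := by ring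
      rw [h7]
      nlinarith
    have hI : ∀ e ∈ Finset.Icc 1 E, kap E * (1 / 2 : ℝ) ^ e *
        ((D - B * γ ^ e) - A * (n * 7 + (n * mu E - (c - e)) ^ 2) - (B * γ ^ e * Real.sqrt 3) * 20) ≤
        kap E * (1 / 2 : ℝ) ^ e * MM E n (shiftφ φ e) := by
      intro e _
      apply mul_le_mul_of_nonneg_left _ (by have := kap_pos hE; positivity)
      exact ih A (B * γ ^ e * Real.sqrt 3) (c - e) (D - B * γ ^ e) _ hA (by positivity) (hsh e)
    refine le_trans ?_ (Finset.sum_le_sum hI)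
    -- compute the sum
    have hβ : ∀ e : ℕ, (1 / 2 : ℝ) ^ e * γ ^ e = (1 / 2 * γ) ^ e := by
      intro e; rw [mul_pow]
    have hβs := sum_beta_le (1 / 2 * γ) (by positivity) (by rw [mul_pow, hγ2]; norm_num) E
    have hexp : ∑ e ∈ Finset.Icc 1 E, kap E * (1 / 2 : ℝ) ^ e *
        ((D - B * γ ^ e) - A * (n * 7 + (n * mu E - (c - e)) ^ 2) - (B * γ ^ e * Real.sqrt 3) * 20) =
        (D - A * (n * 7 + (n * mu E - c) ^ 2)) * (∑ e ∈ Finset.Icc 1 E, kap E * (1 / 2 : ℝ) ^ e)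
        - B * (1 + 20 * Real.sqrt 3) * kap E * (∑ e ∈ Finset.Icc 1 E, (1 / 2 * γ) ^ e)
        - 2 * A * (n * mu E - c) * (∑ e ∈ Finset.Icc 1 E, kap E * (1 / 2 : ℝ) ^ e * (e : ℝ))
        - A * kap E * (∑ e ∈ Finset.Icc 1 E, (1 / 2 : ℝ) ^ e * (e : ℝ) ^ 2) := by
      rw [Finset.mul_sum, Finset.mul_sum, Finset.mul_sum, Finset.mul_sum, ← Finset.sum_sub_distrib,
        ← Finset.sum_sub_distrib, ← Finset.sum_sub_distrib]
      refine Finset.sum_congr rfl fun e _ => ?_
      rw [← hβ e]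
      ring
    rw [hexp, sum_kap hE, sum_half2]
    have hmu : ∑ e ∈ Finset.Icc 1 E, kap E * (1 / 2 : ℝ) ^ e * (e : ℝ) = mu E := rfl
    rw [hmu]
    have hk1 := one_le_kap hE
    have hk2 := kap_le hE
    have hS2 : kap E * (6 - ((E : ℝ) ^ 2 + 4 * E + 6) * (1 / 2) ^ E) ≤ 7 := by
      have : (0 : ℝ) ≤ ((E : ℝ) ^ 2 + 4 * E + 6) * (1 / 2) ^ E := by positivity
      nlinarith
    have hρ : (1 + 20 * Real.sqrt 3) * kap E * (∑ e ∈ Finset.Icc 1 E, (1 / 2 * γ) ^ e) ≤ 20 := by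
      have h0 : 0 ≤ ∑ e ∈ Finset.Icc 1 E, (1 / 2 * γ) ^ e := Finset.sum_nonneg fun e _ => by positivity
      calc (1 + 20 * Real.sqrt 3) * kap E * (∑ e ∈ Finset.Icc 1 E, (1 / 2 * γ) ^ e)
          ≤ (1 + 20 * 1.7321) * (64 / 63) * 0.5471 := by
            apply mul_le_mul _ hβs h0 (by norm_num)
            apply mul_le_mul _ hk2 (by linarith) (by norm_num)
            linarith
        _ ≤ 20 := by norm_num
    have e1 : A * kap E * (6 - ((E : ℝ) ^ 2 + 4 * E + 6) * (1 / 2) ^ E) ≤ A * 7 := by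
      rw [mul_assoc]; exact mul_le_mul_of_nonneg_left hS2 hA
    have e2 : B * (1 + 20 * Real.sqrt 3) * kap E * (∑ e ∈ Finset.Icc 1 E, (1 / 2 * γ) ^ e) ≤ B * 20 := by
      have := mul_le_mul_of_nonneg_left hρ hB
      calc B * (1 + 20 * Real.sqrt 3) * kap E * (∑ e ∈ Finset.Icc 1 E, (1 / 2 * γ) ^ e)
          = B * ((1 + 20 * Real.sqrt 3) * kap E * (∑ e ∈ Finset.Icc 1 E, (1 / 2 * γ) ^ e)) := by ring
        _ ≤ B * 20 := this
    push_cast
    nlinarith [mul_nonneg hA (sq_nonneg (mu E))]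

/-! ### the bounded part -/

theorem count_interval (F : Finset ℤ) (a L : ℝ) (hL : 0 ≤ L)
    (h : ∀ z ∈ F, a ≤ (z : ℝ) ∧ (z : ℝ) ≤ a + L) : (F.card : ℝ) ≤ L + 1 := by
  have hsub : F ⊆ Finset.Icc ⌈a⌉ ⌊a + L⌋ := by
    intro z hz
    obtain ⟨h1, h2⟩ := h z hz
    rw [Finset.mem_Icc]
    exact ⟨Int.ceil_le.2 h1, Int.le_floor.2 h2⟩
  have h1 := Finset.card_le_card hsub
  rw [Int.card_Icc] at h1
  have h2 : (F.card : ℝ) ≤ ((⌊a + L⌋ + 1 - ⌈a⌉).toNat : ℝ) := by exact_mod_cast h1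
  refine le_trans h2 ?_
  have h3 : ((⌊a + L⌋ + 1 - ⌈a⌉).toNat : ℝ) = (((⌊a + L⌋ + 1 - ⌈a⌉).toNat : ℤ) : ℝ) := by
    push_cast; rfl
  rw [h3, Int.toNat_eq_max]
  push_cast
  have h4 := Int.floor_le (a + L)
  have h5 := Int.le_ceil a
  apply max_le
  · linarith
  · linarith

theorem pow_bound (k : ℕ) : (3 / 4 : ℝ) ^ (k ^ 2) * 256 ^ (k + 1) ≤ 256 ^ 20 := by
  by_cases hk : k < 20
  · have h1 : (3 / 4 : ℝ) ^ (k ^ 2) ≤ 1 := pow_le_one₀ (by norm_num) (by norm_num)
    have h2 : (256 : ℝ) ^ (k + 1) ≤ 256 ^ 20 := pow_le_pow_right₀ (by norm_num) (by omega)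
    calc (3 / 4 : ℝ) ^ (k ^ 2) * 256 ^ (k + 1) ≤ 1 * 256 ^ 20 :=
          mul_le_mul h1 h2 (by positivity) (by norm_num)
      _ = 256 ^ 20 := one_mul _
  · push Not at hk
    have h1 : (3 / 4 : ℝ) ^ k * 256 ≤ 1 := by
      have : (3 / 4 : ℝ) ^ k ≤ (3 / 4) ^ 20 := pow_le_pow_of_le_one (by norm_num) (by norm_num) hk
      have h2 : (3 / 4 : ℝ) ^ 20 * 256 ≤ 1 := by norm_num
      nlinarith
    calc (3 / 4 : ℝ) ^ (k ^ 2) * 256 ^ (k + 1) = ((3 / 4 : ℝ) ^ k * 256) ^ k * 256 := by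
          rw [mul_pow, ← pow_mul, pow_succ (256 : ℝ) k, pow_two]; ring
      _ ≤ 1 * 256 := by
          apply mul_le_mul_of_nonneg_right _ (by norm_num)
          exact pow_le_one₀ (by positivity) h1
      _ ≤ 256 ^ 20 := by norm_num

/-- truncated test function -/
noncomputable def φh (n : ℕ) : ℕ → ℤ → ℝ := fun s o =>
  if (2 * n ≤ s + 8 * (Nat.sqrt n + 1) ∧ s ≤ 2 * n + 8 * (Nat.sqrt n + 1)) ∧
    (o : ℝ) ≤ 6400 * 2 ^ s then 1 else 0

theorem φh_lower (n s : ℕ) (o : ℤ) :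
    1 - (1 / (64 * ((n : ℝ) + 1))) * ((s : ℝ) - 2 * n) ^ 2 - (1 / 80) * Real.sqrt ((o : ℝ) / 2 ^ s) ≤
      φh n s o := by
  unfold φh
  have hn : (0 : ℝ) < 64 * ((n : ℝ) + 1) := by positivity
  have hA : 0 ≤ (1 / (64 * ((n : ℝ) + 1))) * ((s : ℝ) - 2 * n) ^ 2 := by positivity
  have hB : 0 ≤ (1 / 80 : ℝ) * Real.sqrt ((o : ℝ) / 2 ^ s) := by positivity
  by_cases h1 : (2 * n ≤ s + 8 * (Nat.sqrt n + 1) ∧ s ≤ 2 * n + 8 * (Nat.sqrt n + 1))
  · by_cases h2 : (o : ℝ) ≤ 6400 * 2 ^ s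
    · rw [if_pos ⟨h1, h2⟩]; linarith
    · rw [if_neg (fun h => h2 h.2)]
      push Not at h2
      have h3 : (80 : ℝ) ≤ Real.sqrt ((o : ℝ) / 2 ^ s) := by
        apply Real.le_sqrt_of_sq_le
        rw [le_div_iff₀ (by positivity)]
        linarith
      linarith
  · rw [if_neg (fun h => h1 h.1)]
    set r : ℕ := Nat.sqrt n + 1 with hr
    have hlt : n < r * r := Nat.lt_succ_sqrt n
    have hlt' : ((n : ℝ) + 1) ≤ (r : ℝ) * r := by exact_mod_cast hlt
    have h4 : (8 * (r : ℝ)) ^ 2 ≤ ((s : ℝ) - 2 * n) ^ 2 := by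
      have : 8 * (r : ℝ) ≤ |(s : ℝ) - 2 * n| := by
        rw [le_abs]
        by_cases h5 : 2 * n ≤ s + 8 * r
        · left
          have h6 : 2 * n + 8 * r ≤ s := by
            by_contra h7
            exact h1 ⟨h5, by omega⟩
          have : (2 * n + 8 * r : ℝ) ≤ s := by exact_mod_cast h6
          linarith
        · right
          have h6 : s + 8 * r ≤ 2 * n := by omega
          have : (s + 8 * r : ℝ) ≤ 2 * n := by exact_mod_cast h6
          linarith
      calc (8 * (r : ℝ)) ^ 2 ≤ |(s : ℝ) - 2 * n| ^ 2 := pow_le_pow_left₀ (by positivity) this 2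
        _ = ((s : ℝ) - 2 * n) ^ 2 := sq_abs _
    have h5 : 1 ≤ (1 / (64 * ((n : ℝ) + 1))) * ((s : ℝ) - 2 * n) ^ 2 := by
      rw [one_div, inv_mul_eq_div, le_div_iff₀ hn]
      nlinarith
    linarith

theorem exists_spread : ∃ C : ℝ, 0 < C ∧ ∀ T E n : ℕ, 1 ≤ T → 6 * T ≤ E → n ≤ T →
    ∃ h : ℤ → ℝ, (∀ x y : ℤ, h (x + 3 ^ n * y) = h x) ∧ (∀ x, 0 ≤ h x) ∧
      (∀ x, h x ≤ ff E n x) ∧ (∀ x, h x ≤ C * Real.sqrt T) ∧
      (1 / 2 : ℝ) * 3 ^ n ≤ ∑ y ∈ Finset.range (3 ^ n), h (y : ℤ) := by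
  refine ⟨33 * (2 * (6400 + 256 ^ 20)), by positivity, ?_⟩
  intro T E n hT hTE hnT
  have hE : 6 ≤ E := by omega
  have hκ := kap_pos hE
  have hκn : kap E ^ n ≤ 2 := kap_pow_le hE (by omega)
  refine ⟨FF E n (φh n), fun x y => FF_periodic E n _ x y, ?_, ?_, ?_, ?_⟩
  · -- nonneg
    intro x
    unfold FF
    refine Finset.sum_nonneg fun s _ => mul_nonneg (by positivity) (Finset.sum_nonneg fun z _ => ?_)
    unfold φh; split_ifs <;> norm_num
  · -- ≤ ff
    intro x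
    have h1 : ff E n x = FF E n (fun _ _ => 1) x := by
      unfold ff Lop FF
      rw [Lw_iter_tr]
    rw [h1]
    unfold FF
    refine Finset.sum_le_sum fun s _ => mul_le_mul_of_nonneg_left
      (Finset.sum_le_sum fun z _ => ?_) (by positivity)
    unfold φh; split_ifs <;> norm_num
  · -- the uniform bound
    intro x
    set r : ℕ := 8 * (Nat.sqrt n + 1) with hr
    have hterm : ∀ s ∈ Finset.range (n * E + 1),
        (3 * kap E) ^ n * (1 / 2 : ℝ) ^ s *
          ∑ z ∈ tr 3 E n s x, φh n s (2 ^ s * x - 3 ^ n * z) ≤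
        if s ∈ Finset.Icc (2 * n - r) (2 * n + r) then 2 * (6400 + 256 ^ 20) else 0 := by
      intro s _
      by_cases hs : s ∈ Finset.Icc (2 * n - r) (2 * n + r)
      · rw [if_pos hs]
        rw [Finset.mem_Icc] at hs
        have hcard : ∑ z ∈ tr 3 E n s x, φh n s (2 ^ s * x - 3 ^ n * z) ≤
            6400 * 2 ^ s / 3 ^ n + 1 := by
          have h2 : ∑ z ∈ tr 3 E n s x, φh n s (2 ^ s * x - 3 ^ n * z) ≤
              (((tr 3 E n s x).filter (fun z =>
                ((2 ^ s * x - 3 ^ n * z : ℤ) : ℝ) ≤ 6400 * 2 ^ s)).card : ℝ) := by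
            rw [Finset.card_filter]
            push_cast
            refine Finset.sum_le_sum fun z _ => ?_
            unfold φh
            split_ifs with h3 h4 h4
            · exact le_refl _
            · exfalso; apply h4; have := h3.2; push_cast at this; exact this
            · norm_num
            · exact le_refl _
          refine le_trans h2 ?_
          apply count_interval _ ((2 ^ s * x - 6400 * 2 ^ s : ℝ) / 3 ^ n)
            (6400 * 2 ^ s / 3 ^ n) (by positivity)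
          intro z hz
          rw [Finset.mem_filter] at hz
          obtain ⟨hz1, hz2⟩ := hz
          have h5 := tr_off_nonneg (by norm_num) hz1
          have h5' : (0 : ℝ) ≤ 2 ^ s * x - 3 ^ n * z := by exact_mod_cast h5
          push_cast at hz2
          have h3n : (0 : ℝ) < 3 ^ n := by positivity
          constructor
          · rw [div_le_iff₀ h3n]; linarith
          · rw [← add_div, le_div_iff₀ h3n]; linarith
        have h3s : (3 : ℝ) ^ n * (1 / 2) ^ s ≤ 256 ^ 20 := by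
          have h6 : (2 : ℝ) ^ (2 * n) ≤ 2 ^ (s + r) := pow_le_pow_right₀ (by norm_num) (by omega)
          have h7 : (3 : ℝ) ^ n * (1 / 2) ^ s ≤ (3 / 4) ^ n * 2 ^ r := by
            have h8 : (3 / 4 : ℝ) ^ n * 2 ^ r = 3 ^ n * (1 / 2) ^ s * (2 ^ (s + r) / 2 ^ (2 * n)) := by
              rw [div_pow, pow_add, one_div, inv_pow, show (4 : ℝ) ^ n = 2 ^ (2 * n) by
                rw [pow_mul]; norm_num]
              field_simp
            rw [h8]
            have h9 : (1 : ℝ) ≤ 2 ^ (s + r) / 2 ^ (2 * n) := by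
              rw [le_div_iff₀ (by positivity)]; linarith
            have h10 : (0 : ℝ) ≤ 3 ^ n * (1 / 2) ^ s := by positivity
            nlinarith
          refine le_trans h7 ?_
          have h11 : (3 / 4 : ℝ) ^ n ≤ (3 / 4) ^ ((Nat.sqrt n) ^ 2) :=
            pow_le_pow_of_le_one (by norm_num) (by norm_num) (by
              have := Nat.sqrt_le n; rw [pow_two]; exact this)
          have h12 : (2 : ℝ) ^ r = 256 ^ (Nat.sqrt n + 1) := by
            rw [hr, pow_mul]; norm_num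
          rw [h12]
          refine le_trans (mul_le_mul_of_nonneg_right h11 (by positivity)) (pow_bound _)
        have h2s : (0 : ℝ) < (1 / 2) ^ s := by positivity
        calc (3 * kap E) ^ n * (1 / 2 : ℝ) ^ s *
              ∑ z ∈ tr 3 E n s x, φh n s (2 ^ s * x - 3 ^ n * z)
            ≤ (3 * kap E) ^ n * (1 / 2 : ℝ) ^ s * (6400 * 2 ^ s / 3 ^ n + 1) :=
              mul_le_mul_of_nonneg_left hcard (by positivity)
          _ = kap E ^ n * (6400 + 3 ^ n * (1 / 2) ^ s) := by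
              rw [mul_pow, one_div, inv_pow]
              field_simp
          _ ≤ 2 * (6400 + 256 ^ 20) := by
              apply mul_le_mul hκn (by linarith) (by positivity) (by norm_num)
      · rw [if_neg hs]
        rw [Finset.mem_Icc] at hs
        have : ∑ z ∈ tr 3 E n s x, φh n s (2 ^ s * x - 3 ^ n * z) = 0 := by
          refine Finset.sum_eq_zero fun z _ => ?_
          unfold φh
          rw [if_neg]
          intro h3
          apply hs
          omega
        rw [this, mul_zero]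
    have hsum := Finset.sum_le_sum hterm
    unfold FF
    refine le_trans hsum ?_
    rw [← Finset.sum_filter, Finset.sum_const, nsmul_eq_mul]
    have hcard2 : (((Finset.range (n * E + 1)).filter
        (fun s => s ∈ Finset.Icc (2 * n - r) (2 * n + r))).card : ℝ) ≤ 33 * Real.sqrt T := by
      have h1 : ((Finset.range (n * E + 1)).filter
        (fun s => s ∈ Finset.Icc (2 * n - r) (2 * n + r))).card ≤ 2 * r + 1 := by
        refine le_trans (Finset.card_le_card (t := Finset.Icc (2 * n - r) (2 * n + r)) ?_) ?_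
        · intro s hs
          exact (Finset.mem_filter.1 hs).2
        · rw [Nat.card_Icc]; omega
      have h2 : (((Finset.range (n * E + 1)).filter
        (fun s => s ∈ Finset.Icc (2 * n - r) (2 * n + r))).card : ℝ) ≤ 2 * r + 1 := by
        exact_mod_cast h1
      refine le_trans h2 ?_
      have h3 : ((Nat.sqrt n : ℕ) : ℝ) ≤ Real.sqrt T :=
        le_trans Real.nat_sqrt_le_real_sqrt (Real.sqrt_le_sqrt (by exact_mod_cast hnT))
      have h4 : (1 : ℝ) ≤ Real.sqrt T := by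
        rw [Real.one_le_sqrt]; exact_mod_cast hT
      rw [hr]
      push_cast
      linarith
    have := mul_le_mul_of_nonneg_right hcard2 (show (0 : ℝ) ≤ 2 * (6400 + 256 ^ 20) by positivity)
    calc _ ≤ 33 * Real.sqrt T * (2 * (6400 + 256 ^ 20)) := this
      _ = _ := by ring
  · -- the mean
    rw [FF_total]
    have h1 := MM_lower hE n (1 / (64 * ((n : ℝ) + 1))) (1 / 80) (2 * n) 1 (φh n)
      (by positivity) (by norm_num) (fun s o => φh_lower n s o)
    have h2 : (n * mu E - 2 * n) ^ 2 ≤ 1 := by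
      have h3 : n * mu E - 2 * n = - (kap E * ((n : ℝ) * (E : ℝ) * (1 / 2) ^ E)) := by
        have := mu_eq hE
        calc n * mu E - 2 * n = n * (mu E - 2) := by ring
          _ = _ := by rw [this]; ring
      have h4 : (n : ℝ) * (E : ℝ) * (1 / 2) ^ E ≤ 6 / 64 := by
        have h5 := sq_le_two_pow hE
        have h6 : 6 * (n : ℝ) ≤ E := by
          have : 6 * n ≤ E := by omega
          exact_mod_cast this
        have h7 : (0 : ℝ) ≤ (E : ℝ) * (1 / 2) ^ E := by positivity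
        calc (n : ℝ) * (E : ℝ) * (1 / 2) ^ E = n * (E * (1 / 2) ^ E) := by ring
          _ ≤ (E / 6) * (E * (1 / 2) ^ E) := mul_le_mul_of_nonneg_right (by linarith) h7
          _ = (E ^ 2 * (1 / 2) ^ E) / 6 := by ring
          _ ≤ 6 / 64 := by linarith
      have h8 : (0 : ℝ) ≤ (n : ℝ) * (E : ℝ) * (1 / 2) ^ E := by positivity
      have h9 := kap_le hE
      rw [h3, neg_sq]
      have h10 : kap E * ((n : ℝ) * (E : ℝ) * (1 / 2) ^ E) ≤ (64 / 63) * (6 / 64) :=
        mul_le_mul h9 h4 h8 (by norm_num)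
      have h11 : 0 ≤ kap E * ((n : ℝ) * (E : ℝ) * (1 / 2) ^ E) := by positivity
      nlinarith
    have h12 : (1 / (64 * ((n : ℝ) + 1))) * (n * 7 + (n * mu E - 2 * n) ^ 2) ≤ 7 / 64 := by
      rw [one_div, inv_mul_eq_div, div_le_div_iff₀ (by positivity) (by norm_num)]
      nlinarith
    have h13 : (1 / 2 : ℝ) ≤ MM E n (φh n) := by linarith
    have h14 : (0 : ℝ) < 3 ^ n := by positivity
    nlinarith

end Pool.Agent.H412R2
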